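import Mathlib
import Pool.Agent.N740.HK.Fl2

/-!
# Large deviations of the number of chosen integers in a window

The test function of helper740 (`N740/HK/Fl2`) with three different exponents, localised between
`a` and `b`.
-/

set_option autoImplicit false
set_option linter.unusedSectionVars false

open MeasureTheory Filter Set
open scoped ENNReal Topology

namespace Pool.Agent.N417.LD

open Pool.Agent.R528.RM Pool.Agent.N740.HK

variable {Ω : Type} {m0 : MeasurableSpace Ω} {μ : Measure Ω} [IsProbabilityMeasure μ]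
  {ℱ : Filtration ℕ m0} {A : ℕ → Set Ω}

/-- the test function -/
noncomputable def q3 (lam θ a b α β γ R s : ℝ) : ℝ :=
  Real.exp (-(lam * b)) * Real.exp (lam * s + α * lam ^ 2 * R)
  - Real.exp (θ * a - lam * b) * Real.exp ((lam - θ) * s + β * (lam - θ) ^ 2 * R)
  - Real.exp (-(θ * b) - lam * b) * Real.exp ((lam + θ) * s + γ * (lam + θ) ^ 2 * R)

lemma q3_le_one {lam θ a b α β γ R s : ℝ} (hlam : 0 < lam) (hθ : 0 < θ)
    (hαγ : α * lam * (lam + θ) ≤ γ * (lam + θ) ^ 2) (hR : 0 ≤ R) :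
    q3 lam θ a b α β γ R s ≤ 1 := by
  unfold q3
  rw [← Real.exp_add, ← Real.exp_add, ← Real.exp_add]
  have p2 := Real.exp_pos (θ * a - lam * b + ((lam - θ) * s + β * (lam - θ) ^ 2 * R))
  have p3 := Real.exp_pos (-(θ * b) - lam * b + ((lam + θ) * s + γ * (lam + θ) ^ 2 * R))
  by_cases h : lam * (s - b + α * lam * R) ≤ 0
  · have h1 : Real.exp (-(lam * b) + (lam * s + α * lam ^ 2 * R)) ≤ 1 := by
      rw [Real.exp_le_one_iff]
      nlinarith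
    linarith
  · push Not at h
    have h2 : 0 < s - b + α * lam * R := by
      by_contra h3
      push Not at h3
      nlinarith
    have h4 : Real.exp (-(lam * b) + (lam * s + α * lam ^ 2 * R)) ≤
        Real.exp (-(θ * b) - lam * b + ((lam + θ) * s + γ * (lam + θ) ^ 2 * R)) := by
      apply Real.exp_le_exp.2
      have h5 : α * lam * (lam + θ) * R ≤ γ * (lam + θ) ^ 2 * R :=
        mul_le_mul_of_nonneg_right hαγ hR
      have h6 : 0 ≤ θ * (s - b + α * lam * R) := mul_nonneg hθ.le h2.le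
      nlinarith
    linarith

lemma q3_end {lam θ a b α β γ s : ℝ} (hθ : 0 < θ) (h : s < a ∨ b < s) : q3 lam θ a b α β γ 0 s ≤ 0 := by
  unfold q3
  rw [← Real.exp_add, ← Real.exp_add, ← Real.exp_add]
  have p2 := Real.exp_pos (θ * a - lam * b + ((lam - θ) * s + β * (lam - θ) ^ 2 * 0))
  have p3 := Real.exp_pos (-(θ * b) - lam * b + ((lam + θ) * s + γ * (lam + θ) ^ 2 * 0))
  rcases h with h | h
  · have h1 : Real.exp (-(lam * b) + (lam * s + α * lam ^ 2 * 0)) ≤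
        Real.exp (θ * a - lam * b + ((lam - θ) * s + β * (lam - θ) ^ 2 * 0)) := by
      apply Real.exp_le_exp.2
      nlinarith
    linarith
  · have h1 : Real.exp (-(lam * b) + (lam * s + α * lam ^ 2 * 0)) ≤
        Real.exp (-(θ * b) - lam * b + ((lam + θ) * s + γ * (lam + θ) ^ 2 * 0)) := by
      apply Real.exp_le_exp.2
      nlinarith
    linarith

/-- the test process -/
noncomputable def Q3 (μ : Measure Ω) (ℱ : Filtration ℕ m0) (A : ℕ → Set Ω) (σ : ℕ → ℝ) (T H : ℕ) (lam θ a b α β γ : ℝ) (j : ℕ)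
    (ω : Ω) : ℝ := q3 lam θ a b α β γ (RW σ H j) (SW μ ℱ A σ T j ω)

lemma Q3_eq (σ : ℕ → ℝ) (T H : ℕ) (lam θ a b α β γ : ℝ) (j : ℕ) : Q3 μ ℱ A σ T H lam θ a b α β γ j = fun ω =>
    Real.exp (-(lam * b)) * EW μ ℱ A σ T H lam α j ω - Real.exp (θ * a - lam * b) * EW μ ℱ A σ T H (lam - θ) β j ω
    - Real.exp (-(θ * b) - lam * b) * EW μ ℱ A σ T H (lam + θ) γ j ω := rfl

lemma Q3_int (hA : ∀ n, MeasurableSet[ℱ n] (A n)) {σ : ℕ → ℝ} (hσ : ∀ i, |σ i| ≤ 1) (T H : ℕ) (lam θ a b α β γ : ℝ) (j : ℕ) :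
    Integrable (Q3 μ ℱ A σ T H lam θ a b α β γ j) μ := by
  rw [Q3_eq]
  exact (((EW_int hA hσ T H lam α j).const_mul _).sub ((EW_int hA hσ T H (lam - θ) β j).const_mul _)).sub
    ((EW_int hA hσ T H (lam + θ) γ j).const_mul _)

lemma Q3_set (hA : ∀ n, MeasurableSet[ℱ n] (A n)) {σ : ℕ → ℝ} (hσ : ∀ i, |σ i| ≤ 1) (T H : ℕ) (lam θ a b α β γ : ℝ) (j : ℕ)
    (C : Set Ω) : ∫ ω in C, Q3 μ ℱ A σ T H lam θ a b α β γ j ω ∂μ =
    Real.exp (-(lam * b)) * ∫ ω in C, EW μ ℱ A σ T H lam α j ω ∂μ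
    - Real.exp (θ * a - lam * b) * ∫ ω in C, EW μ ℱ A σ T H (lam - θ) β j ω ∂μ
    - Real.exp (-(θ * b) - lam * b) * ∫ ω in C, EW μ ℱ A σ T H (lam + θ) γ j ω ∂μ := by
  have i1 := (((EW_int (μ := μ) hA hσ T H lam α j).const_mul (Real.exp (-(lam * b)))).integrableOn (s := C))
  have i2 := (((EW_int (μ := μ) hA hσ T H (lam - θ) β j).const_mul (Real.exp (θ * a - lam * b))).integrableOn (s := C))
  have i3 := (((EW_int (μ := μ) hA hσ T H (lam + θ) γ j).const_mul (Real.exp (-(θ * b) - lam * b))).integrableOn (s := C))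
  rw [Q3_eq]
  have h1 := integral_sub (i1.sub i2) i3
  have h2 := integral_sub i1 i2
  simp only [Pi.sub_apply] at h1 h2
  rw [h1, h2, integral_const_mul, integral_const_mul, integral_const_mul]

lemma Q3_step (hA : ∀ n, MeasurableSet[ℱ n] (A n)) {σ : ℕ → ℝ} (hσ : ∀ i, |σ i| ≤ 1) {T H : ℕ} {lam θ a b α β γ l u : ℝ} {j : ℕ}
    (hj : j < H) (h1 : ∀ D, l ≤ D → D ≤ u → Real.exp (α * (lam * σ j) ^ 2) ≤ KK (lam * σ j) D)
    (h2 : ∀ D, l ≤ D → D ≤ u → KK ((lam - θ) * σ j) D ≤ Real.exp (β * ((lam - θ) * σ j) ^ 2))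
    (h3 : ∀ D, l ≤ D → D ≤ u → KK ((lam + θ) * σ j) D ≤ Real.exp (γ * ((lam + θ) * σ j) ^ 2))
    {C : Set Ω} (hC : MeasurableSet[ℱ (T + j)] C) (hCG : C ⊆ GW μ ℱ A l u T (j + 1)) :
    ∫ ω in C, Q3 μ ℱ A σ T H lam θ a b α β γ j ω ∂μ ≤ ∫ ω in C, Q3 μ ℱ A σ T H lam θ a b α β γ (j + 1) ω ∂μ := by
  rw [Q3_set hA hσ, Q3_set hA hσ]
  have k1 := mul_le_mul_of_nonneg_left (EW_lo (μ := μ) (H := H) hA hσ hj h1 hC hCG) (Real.exp_pos (-(lam * b))).le
  have k2 := mul_le_mul_of_nonneg_left (EW_up (μ := μ) (H := H) hA hσ hj h2 hC hCG) (Real.exp_pos (θ * a - lam * b)).le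
  have k3 := mul_le_mul_of_nonneg_left (EW_up (μ := μ) (H := H) hA hσ hj h3 hC hCG) (Real.exp_pos (-(θ * b) - lam * b)).le
  linarith

/-- **large deviations, lower bound, localised** -/
theorem ld_lower (hA : ∀ n, MeasurableSet[ℱ n] (A n)) {σ : ℕ → ℝ} (hσ : ∀ i, |σ i| ≤ 1) {T H : ℕ} {lam θ a b α β γ l u : ℝ}
    (hlam : 0 < lam) (hθ : 0 < θ) (hαγ : α * lam * (lam + θ) ≤ γ * (lam + θ) ^ 2)
    (h1 : ∀ j D, l ≤ D → D ≤ u → Real.exp (α * (lam * σ j) ^ 2) ≤ KK (lam * σ j) D)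
    (h2 : ∀ j D, l ≤ D → D ≤ u → KK ((lam - θ) * σ j) D ≤ Real.exp (β * ((lam - θ) * σ j) ^ 2))
    (h3 : ∀ j D, l ≤ D → D ≤ u → KK ((lam + θ) * σ j) D ≤ Real.exp (γ * ((lam + θ) * σ j) ^ 2))
    {C : Set Ω} (hC : MeasurableSet[ℱ T] C) :
    q3 lam θ a b α β γ (RW σ H 0) 0 * μ.real C ≤
      μ.real (C ∩ ({ω | a ≤ SW μ ℱ A σ T H ω ∧ SW μ ℱ A σ T H ω ≤ b} ∪ (GW μ ℱ A l u T H)ᶜ)) := by
  set Q : ℕ → Ω → ℝ := Q3 μ ℱ A σ T H lam θ a b α β γ with hQ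
  set G : ℕ → Set Ω := GW μ ℱ A l u T with hG
  have hC0 : MeasurableSet C := ℱ.le _ _ hC
  have hG0 : ∀ j, MeasurableSet (G j) := fun j => ℱ.le _ _ (GW_meas' l u T j)
  have hQ1 : ∀ j ω, Q j ω ≤ 1 := fun j ω => q3_le_one hlam hθ hαγ (RW_nonneg _ _ _)
  have hQi : ∀ j, Integrable (Q j) μ := fun j => Q3_int hA hσ T H lam θ a b α β γ j
  set Φ : ℕ → ℝ := fun j => ∫ ω in C ∩ G j, Q j ω ∂μ + μ.real (C \ G j) with hΦ
  have step : ∀ j, j < H → Φ j ≤ Φ (j + 1) := by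
    intro j hj
    have hsub : G (j + 1) ⊆ G j := GW_anti l u T j
    have e1 : C ∩ G j ∩ G (j + 1) = C ∩ G (j + 1) := by
      rw [inter_assoc, inter_eq_right.2 hsub]
    have e2 := integral_inter_add_sdiff (μ := μ) (s := C ∩ G j) (hG0 (j + 1)) (hQi j).integrableOn
    rw [e1] at e2
    have e3 : ∫ ω in (C ∩ G j) \ G (j + 1), Q j ω ∂μ ≤ μ.real ((C ∩ G j) \ G (j + 1)) :=
      setInt_le_real (hQi j) (hQ1 j) ((hC0.inter (hG0 j)).diff (hG0 (j + 1)))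
    have e4 : ∫ ω in C ∩ G (j + 1), Q j ω ∂μ ≤ ∫ ω in C ∩ G (j + 1), Q (j + 1) ω ∂μ :=
      Q3_step hA hσ hj (h1 j) (h2 j) (h3 j) ((ℱ.mono (by omega) _ hC).inter (GW_meas l u T j)) inter_subset_right
    have e5 : μ.real (C \ G (j + 1)) = μ.real ((C ∩ G j) \ G (j + 1)) + μ.real (C \ G j) := by
      have e6 : C \ G (j + 1) = (C ∩ G j) \ G (j + 1) ∪ C \ G j := by
        ext ω
        simp only [Set.mem_sdiff, mem_union, mem_inter_iff]
        constructor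
        · rintro ⟨a1, a2⟩
          by_cases a3 : ω ∈ G j
          · exact Or.inl ⟨⟨a1, a3⟩, a2⟩
          · exact Or.inr ⟨a1, a3⟩
        · rintro (⟨⟨a1, _⟩, a2⟩ | ⟨a1, a2⟩)
          · exact ⟨a1, a2⟩
          · exact ⟨a1, fun a3 => a2 (hsub a3)⟩
      rw [e6]
      refine measureReal_union ?_ (hC0.diff (hG0 j))
      rw [Set.disjoint_left]
      rintro ω ⟨⟨_, a1⟩, _⟩ ⟨_, a2⟩
      exact a2 a1
    simp only [hΦ]
    rw [e5, ← e2]
    linarith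
  have hmon : ∀ j, j ≤ H → Φ 0 ≤ Φ j := by
    intro j
    induction j with
    | zero => exact fun _ => le_rfl
    | succ j ih => exact fun hj => (ih (by omega)).trans (step j (by omega))
  have hfin := hmon H le_rfl
  have hG00 : G 0 = univ := by ext ω; simp [hG, GW]
  have e0 : Φ 0 = q3 lam θ a b α β γ (RW σ H 0) 0 * μ.real C := by
    simp only [hΦ, hG00, inter_univ, sdiff_univ, measureReal_empty, add_zero]
    have : ∀ ω, Q 0 ω = q3 lam θ a b α β γ (RW σ H 0) 0 := by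
      intro ω
      simp [hQ, Q3, SW]
    simp only [this]
    rw [setIntegral_const, smul_eq_mul, mul_comm]
  have hSm : MeasurableSet {ω | a ≤ SW μ ℱ A σ T H ω ∧ SW μ ℱ A σ T H ω ≤ b} :=
    (measurableSet_le measurable_const ((SW_meas hA σ T H).mono (ℱ.le _)).measurable).inter
      (measurableSet_le ((SW_meas hA σ T H).mono (ℱ.le _)).measurable measurable_const)
  have e7 : ∫ ω in C ∩ G H, Q H ω ∂μ ≤ μ.real ((C ∩ G H) ∩ {ω | a ≤ SW μ ℱ A σ T H ω ∧ SW μ ℱ A σ T H ω ≤ b}) := by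
    have e8 := integral_inter_add_sdiff (μ := μ) (s := C ∩ G H) hSm (hQi H).integrableOn
    have e9 : ∫ ω in (C ∩ G H) \ {ω | a ≤ SW μ ℱ A σ T H ω ∧ SW μ ℱ A σ T H ω ≤ b}, Q H ω ∂μ ≤ 0 := by
      apply setIntegral_nonpos (((hC0.inter (hG0 H))).diff hSm)
      rintro ω ⟨_, hω⟩
      simp only [mem_ofPred_eq, not_and_or, not_le] at hω
      simp only [hQ, Q3, RW_self]
      exact q3_end hθ hω
    have e10 := setInt_le_real (hQi H) (hQ1 H) ((hC0.inter (hG0 H)).inter hSm)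
    linarith
  have e11 : μ.real (C ∩ ({ω | a ≤ SW μ ℱ A σ T H ω ∧ SW μ ℱ A σ T H ω ≤ b} ∪ (G H)ᶜ)) =
      μ.real ((C ∩ G H) ∩ {ω | a ≤ SW μ ℱ A σ T H ω ∧ SW μ ℱ A σ T H ω ≤ b}) + μ.real (C \ G H) := by
    have e12 : C ∩ ({ω | a ≤ SW μ ℱ A σ T H ω ∧ SW μ ℱ A σ T H ω ≤ b} ∪ (G H)ᶜ) =
        (C ∩ G H) ∩ {ω | a ≤ SW μ ℱ A σ T H ω ∧ SW μ ℱ A σ T H ω ≤ b} ∪ C \ G H := by
      ext ω
      simp only [Set.mem_sdiff, mem_union, mem_inter_iff, mem_compl_iff]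
      tauto
    rw [e12]
    refine measureReal_union ?_ (hC0.diff (hG0 H))
    rw [Set.disjoint_left]
    rintro ω ⟨⟨_, a1⟩, _⟩ ⟨_, a2⟩
    exact a2 a1
  rw [e11, ← e0]
  refine hfin.trans ?_
  simp only [hΦ]
  linarith

end Pool.Agent.N417.LD
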