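import Mathlib
import Pool.Agent.N417.LD.A

/-!
# Large deviations: one window
-/

set_option autoImplicit false
set_option linter.unusedSectionVars false

open MeasureTheory Filter Set
open scoped ENNReal Topology

namespace Pool.Agent.N417.LD

open Pool.Agent.R528.RM Pool.Agent.N740.HK

/-- `ρ_s (x) = e^(s x) - 1 - s x` -/
noncomputable def rho (s x : ℝ) : ℝ := Real.exp (s * x) - 1 - s * x

/-- its derivative -/
noncomputable def GG (s x : ℝ) : ℝ := s * (Real.exp (s * x) - 1)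

/-- the rate -/
noncomputable def II (s x : ℝ) : ℝ := x * GG s x - rho s x

lemma rho_nonneg (s x : ℝ) : 0 ≤ rho s x := by
  unfold rho
  have := Real.add_one_le_exp (s * x)
  linarith

/-- the tangent inequality -/
lemma rho_tangent (s x y : ℝ) : rho s x + (y - x) * GG s x ≤ rho s y := by
  unfold rho GG
  have h := Real.add_one_le_exp (s * (y - x))
  have e : Real.exp (s * y) = Real.exp (s * x) * Real.exp (s * (y - x)) := by
    rw [← Real.exp_add]; congr 1; ring
  have h2 := mul_le_mul_of_nonneg_left h (Real.exp_pos (s * x)).le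
  rw [← e] at h2
  nlinarith

lemma GG_mono {s : ℝ} (hs : s = 1 ∨ s = -1) {x y : ℝ} (h : x < y) : GG s x < GG s y := by
  unfold GG
  rcases hs with rfl | rfl
  · have := Real.exp_lt_exp.2 (show (1 : ℝ) * x < 1 * y by linarith)
    linarith
  · have := Real.exp_lt_exp.2 (show (-1 : ℝ) * y < -1 * x by linarith)
    linarith

lemma GG_zero (s : ℝ) : GG s 0 = 0 := by simp [GG]

lemma GG_pos {s : ℝ} (hs : s = 1 ∨ s = -1) {x : ℝ} (h : 0 < x) : 0 < GG s x := by
  have := GG_mono hs h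
  rwa [GG_zero] at this

lemma rho_zero (s : ℝ) : rho s 0 = 0 := by simp [rho]

lemma rho_le (s x : ℝ) : rho s x ≤ x * GG s x := by
  have := rho_tangent s x 0
  rw [rho_zero] at this
  linarith

lemma rho_pos {s : ℝ} (hs : s = 1 ∨ s = -1) {x : ℝ} (h : 0 < x) : 0 < rho s x := by
  unfold rho
  have hne : s * x ≠ 0 := by rcases hs with rfl | rfl <;> simp <;> linarith
  have := Real.add_one_lt_exp hne
  linarith

lemma rho_ratio {s : ℝ} {x t : ℝ} (hx : 0 < x) (ht : 0 < t) : rho s x * (x + t) ≤ x * rho s (x + t) := by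
  have h1 := rho_tangent s x (x + t)
  have h2 := rho_le s x
  have h3 : x + t - x = t := by ring
  rw [h3] at h1
  nlinarith

lemma KKup {y D u : ℝ} (h0 : 0 ≤ D) (hu : D ≤ u) : KK y D ≤ Real.exp (u * (Real.exp y - 1 - y)) := by
  unfold KK
  have h1 : 1 + D * (Real.exp y - 1) ≤ Real.exp (D * (Real.exp y - 1)) := by
    have := Real.add_one_le_exp (D * (Real.exp y - 1))
    linarith
  refine (mul_le_mul_of_nonneg_left h1 (Real.exp_pos _).le).trans ?_
  rw [← Real.exp_add]
  apply Real.exp_le_exp.2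
  have h2 := Real.add_one_le_exp y
  have h3 : 0 ≤ Real.exp y - 1 - y := by linarith
  calc -(y * D) + D * (Real.exp y - 1) = D * (Real.exp y - 1 - y) := by ring
    _ ≤ u * (Real.exp y - 1 - y) := mul_le_mul_of_nonneg_right hu h3

lemma exp_sub_sq {z : ℝ} (h : -(1 / 2) ≤ z) : Real.exp (z - 2 * z ^ 2) ≤ 1 + z := by
  have h0 : (0 : ℝ) < 1 + z := by linarith
  have h1 := Real.one_sub_inv_le_log_of_pos h0
  rw [← Real.le_log_iff_exp_le h0]
  refine le_trans ?_ h1
  have e : 1 - (1 + z)⁻¹ = z - z ^ 2 * (1 + z)⁻¹ := by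
    field_simp
    ring
  rw [e]
  have h2 : (1 + z)⁻¹ ≤ 2 := by
    rw [inv_le_comm₀ h0 (by norm_num)]
    linarith
  nlinarith [mul_le_mul_of_nonneg_left h2 (sq_nonneg z)]

lemma KKlo {y D l u η : ℝ} (hl : 0 ≤ l) (hlD : l ≤ D) (hu : D ≤ u) (hη1 : η ≤ 1)
    (h1 : u * |Real.exp y - 1| ≤ 1 / 2) (h2 : 2 * u * (Real.exp y - 1) ^ 2 ≤ η * (Real.exp y - 1 - y)) :
    Real.exp (l * ((1 - η) * (Real.exp y - 1 - y))) ≤ KK y D := by
  unfold KK
  have hD : 0 ≤ D := hl.trans hlD
  set z : ℝ := D * (Real.exp y - 1) with hz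
  have hza : |z| ≤ 1 / 2 := by
    rw [hz, abs_mul, abs_of_nonneg hD]
    exact (mul_le_mul_of_nonneg_right hu (abs_nonneg _)).trans h1
  have h3 := exp_sub_sq (abs_le.1 hza).1
  refine le_trans ?_ (mul_le_mul_of_nonneg_left h3 (Real.exp_pos _).le)
  rw [← Real.exp_add]
  apply Real.exp_le_exp.2
  have h4 := Real.add_one_le_exp y
  set r : ℝ := Real.exp y - 1 - y with hr
  have hr0 : 0 ≤ r := by linarith
  have h5 : 2 * z ^ 2 ≤ D * (η * r) := by
    have e : 2 * z ^ 2 = D * (2 * D * (Real.exp y - 1) ^ 2) := by rw [hz]; ring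
    rw [e]
    apply mul_le_mul_of_nonneg_left _ hD
    refine le_trans ?_ h2
    exact mul_le_mul_of_nonneg_right (by linarith) (sq_nonneg _)
  have h6 : l * ((1 - η) * r) ≤ D * ((1 - η) * r) :=
    mul_le_mul_of_nonneg_right hlD (mul_nonneg (by linarith) hr0)
  have h7 : -(y * D) + (z - 2 * z ^ 2) = D * r - 2 * z ^ 2 := by rw [hz, hr]; ring
  rw [h7]
  nlinarith

lemma RW_const {s : ℝ} (hs : s = 1 ∨ s = -1) (H : ℕ) : RW (fun _ => s) H 0 = H := by
  have : s ^ 2 = 1 := by rcases hs with rfl | rfl <;> norm_num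
  simp [RW, this]

variable {Ω : Type} {m0 : MeasurableSpace Ω} {μ : Measure Ω} [IsProbabilityMeasure μ]
  {ℱ : Filtration ℕ m0} {A : ℕ → Set Ω}

lemma abs_const {s : ℝ} (hs : s = 1 ∨ s = -1) : |s| ≤ 1 := by
  rcases hs with rfl | rfl <;> simp

/-- one window, lower bound -/
theorem win_lower (hA : ∀ n, MeasurableSet[ℱ n] (A n)) {s : ℝ} (hs : s = 1 ∨ s = -1) {T H : ℕ} {p η lam θ δ : ℝ}
    (hp : 0 < p) (hη : 0 < η) (hη1 : η ≤ 1) (hθ : 0 < θ) (hθ2 : 2 * θ < lam)
    (h1 : (1 + η) * p * |Real.exp (s * lam) - 1| ≤ 1 / 2)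
    (h2 : 2 * ((1 + η) * p) * (Real.exp (s * lam) - 1) ^ 2 ≤ η * rho s lam)
    (c1 : θ * GG s (lam - 2 * θ) + (1 + η) * rho s (lam - θ) - (1 - η) ^ 2 * rho s lam ≤ -δ)
    (c2 : -(θ * GG s (lam + 2 * θ)) + (1 + η) * rho s (lam + θ) - (1 - η) ^ 2 * rho s lam ≤ -δ)
    (hm : 2 ≤ H * p * δ) {C : Set Ω} (hC : MeasurableSet[ℱ T] C) :
    1 / 2 * Real.exp (-(H * p * (lam * GG s (lam + 2 * θ) - (1 - η) ^ 2 * rho s lam))) * μ.real C ≤
      μ.real (C ∩ ({ω | H * p * GG s (lam - 2 * θ) ≤ SW μ ℱ A (fun _ => s) T H ω ∧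
        SW μ ℱ A (fun _ => s) T H ω ≤ H * p * GG s (lam + 2 * θ)} ∪ (GW μ ℱ A ((1 - η) * p) ((1 + η) * p) T H)ᶜ)) := by
  have hlam : 0 < lam := by linarith
  have ss : s ^ 2 = 1 := by rcases hs with rfl | rfl <;> norm_num
  have x1 : 0 < lam - θ := by linarith
  have x2 : 0 < lam + θ := by linarith
  have hm0 : (0 : ℝ) ≤ H * p := by positivity
  have key := ld_lower (μ := μ) (T := T) (H := H) (σ := fun _ => s) (lam := lam) (θ := θ)
    (a := H * p * GG s (lam - 2 * θ)) (b := H * p * GG s (lam + 2 * θ))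
    (α := (1 - η) ^ 2 * p * rho s lam / lam ^ 2) (β := (1 + η) * p * rho s (lam - θ) / (lam - θ) ^ 2)
    (γ := (1 + η) * p * rho s (lam + θ) / (lam + θ) ^ 2) (l := (1 - η) * p) (u := (1 + η) * p)
    hA (fun _ => abs_const hs) hlam hθ
    (by
      rw [div_mul_cancel₀ _ (by positivity)]
      have e : (1 - η) ^ 2 * p * rho s lam / lam ^ 2 * lam * (lam + θ) =
          (1 - η) ^ 2 * p * (rho s lam * (lam + θ) / lam) := by field_simp
      rw [e]
      have h3 : rho s lam * (lam + θ) / lam ≤ rho s (lam + θ) := by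
        rw [div_le_iff₀ hlam]
        have := rho_ratio (s := s) hlam hθ
        linarith
      have h4 := rho_nonneg s (lam + θ)
      have h5 : (1 - η) ^ 2 ≤ 1 + η := by nlinarith
      calc (1 - η) ^ 2 * p * (rho s lam * (lam + θ) / lam) ≤ (1 - η) ^ 2 * p * rho s (lam + θ) :=
            mul_le_mul_of_nonneg_left h3 (by positivity)
        _ ≤ (1 + η) * p * rho s (lam + θ) :=
            mul_le_mul_of_nonneg_right (mul_le_mul_of_nonneg_right h5 hp.le) h4)
    (fun j D hD1 hD2 => by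
      have e : (1 - η) ^ 2 * p * rho s lam / lam ^ 2 * (lam * s) ^ 2 =
          (1 - η) * p * ((1 - η) * (Real.exp (lam * s) - 1 - lam * s)) := by
        rw [mul_pow, ss]
        unfold rho
        rw [mul_comm lam s]
        field_simp
      rw [e]
      have h1' : (1 + η) * p * |Real.exp (lam * s) - 1| ≤ 1 / 2 := by rw [mul_comm lam s]; exact h1
      have h2' : 2 * ((1 + η) * p) * (Real.exp (lam * s) - 1) ^ 2 ≤ η * (Real.exp (lam * s) - 1 - lam * s) := by
        rw [mul_comm lam s]; exact h2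
      exact KKlo (mul_nonneg (by linarith) hp.le) hD1 hD2 hη1 h1' h2')
    (fun j D hD1 hD2 => by
      have hD0 : 0 ≤ D := le_trans (mul_nonneg (by linarith) hp.le) hD1
      refine (KKup hD0 hD2).trans (le_of_eq ?_)
      congr 1
      rw [mul_pow, ss]
      unfold rho
      rw [mul_comm (lam - θ) s]
      field_simp)
    (fun j D hD1 hD2 => by
      have hD0 : 0 ≤ D := le_trans (mul_nonneg (by linarith) hp.le) hD1
      refine (KKup hD0 hD2).trans (le_of_eq ?_)
      congr 1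
      rw [mul_pow, ss]
      unfold rho
      rw [mul_comm (lam + θ) s]
      field_simp)
    hC
  rw [RW_const hs] at key
  refine le_trans (mul_le_mul_of_nonneg_right ?_ measureReal_nonneg) key
  unfold q3
  have ea : (1 - η) ^ 2 * p * rho s lam / lam ^ 2 * lam ^ 2 * H = H * p * ((1 - η) ^ 2 * rho s lam) := by
    field_simp
  have eb : (1 + η) * p * rho s (lam - θ) / (lam - θ) ^ 2 * (lam - θ) ^ 2 * H = H * p * ((1 + η) * rho s (lam - θ)) := by
    field_simp
  have ec : (1 + η) * p * rho s (lam + θ) / (lam + θ) ^ 2 * (lam + θ) ^ 2 * H = H * p * ((1 + η) * rho s (lam + θ)) := by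
    field_simp
  rw [ea, eb, ec, mul_zero, mul_zero, mul_zero, zero_add, zero_add, zero_add, ← Real.exp_add, ← Real.exp_add, ← Real.exp_add]
  set m : ℝ := H * p with hmdef
  set E : ℝ := Real.exp (-(lam * (m * GG s (lam + 2 * θ))) + m * ((1 - η) ^ 2 * rho s lam)) with hE
  have hE0 : 0 < E := Real.exp_pos _
  have hsm : Real.exp (-2 : ℝ) ≤ 1 / 4 := by
    rw [Real.exp_neg, inv_eq_one_div]
    apply one_div_le_one_div_of_le (by norm_num)
    have h3 := Real.quadratic_le_exp_of_nonneg (show (0 : ℝ) ≤ 2 by norm_num)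
    linarith
  have t2 : Real.exp (θ * (m * GG s (lam - 2 * θ)) - lam * (m * GG s (lam + 2 * θ)) + m * ((1 + η) * rho s (lam - θ))) ≤ E * (1 / 4) := by
    refine le_trans (le_of_eq ?_) (mul_le_mul_of_nonneg_left (le_trans (Real.exp_le_exp.2 (?_ :
      m * (θ * GG s (lam - 2 * θ) + (1 + η) * rho s (lam - θ) - (1 - η) ^ 2 * rho s lam) ≤ -2)) hsm) hE0.le)
    · rw [hE, ← Real.exp_add]
      congr 1
      ring
    · have := mul_le_mul_of_nonneg_left c1 hm0
      linarith
  have t3 : Real.exp (-(θ * (m * GG s (lam + 2 * θ))) - lam * (m * GG s (lam + 2 * θ)) + m * ((1 + η) * rho s (lam + θ))) ≤ E * (1 / 4) := by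
    refine le_trans (le_of_eq ?_) (mul_le_mul_of_nonneg_left (le_trans (Real.exp_le_exp.2 (?_ :
      m * (-(θ * GG s (lam + 2 * θ)) + (1 + η) * rho s (lam + θ) - (1 - η) ^ 2 * rho s lam) ≤ -2)) hsm) hE0.le)
    · rw [hE, ← Real.exp_add]
      congr 1
      ring
    · have := mul_le_mul_of_nonneg_left c2 hm0
      linarith
  have e4 : Real.exp (-(m * (lam * GG s (lam + 2 * θ) - (1 - η) ^ 2 * rho s lam))) = E := by
    rw [hE]
    congr 1
    ring
  rw [e4]
  linarith

/-- one window, upper bound -/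
theorem win_upper (hA : ∀ n, MeasurableSet[ℱ n] (A n)) {s : ℝ} (hs : s = 1 ∨ s = -1) {T H : ℕ} {p η lam : ℝ}
    (hp : 0 < p) (hη : 0 < η) (hη1 : η ≤ 1) (hlam : 0 < lam) (hH : 0 < H) :
    μ.real {ω | ω ∈ GW μ ℱ A ((1 - η) * p) ((1 + η) * p) T H ∧ H * p * GG s lam ≤ SW μ ℱ A (fun _ => s) T H ω} ≤
      Real.exp (-(H * p * (II s lam - η * rho s lam))) := by
  have ss : s ^ 2 = 1 := by rcases hs with rfl | rfl <;> norm_num
  have hH0 : (0 : ℝ) < H := by exact_mod_cast hH
  have hG := GG_pos hs hlam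
  have key := fl_upper (μ := μ) (T := T) (H := H) (σ := fun _ => s) (lam := lam) (b := H * p * GG s lam)
    (β := (1 + η) * p * rho s lam / lam ^ 2) (l := (1 - η) * p) (u := (1 + η) * p) hA (fun _ => abs_const hs) hlam
    (by positivity) (by have := rho_nonneg s lam; positivity)
    (fun j D hD1 hD2 => by
      have hD0 : 0 ≤ D := le_trans (mul_nonneg (by linarith) hp.le) hD1
      refine (KKup hD0 hD2).trans (le_of_eq ?_)
      congr 1
      rw [mul_pow, ss]
      unfold rho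
      rw [mul_comm lam s]
      field_simp)
  rw [RW_const hs] at key
  have e : -(lam * (H * p * GG s lam)) + (1 + η) * p * rho s lam / lam ^ 2 * lam ^ 2 * H =
      -(H * p * (II s lam - η * rho s lam)) := by
    rw [div_mul_cancel₀ _ (by positivity)]
    unfold II
    ring
  rw [e] at key
  refine le_trans (measureReal_mono ?_ (measure_ne_top _ _)) key
  rintro ω ⟨h1, h2⟩
  exact ⟨H, le_rfl, h1, h2⟩

end Pool.Agent.N417.LD
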