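import Mathlib
import Pool.Agent.N417.LD.B

/-!
# Large deviations: sequences of windows
-/

set_option autoImplicit false
set_option linter.unusedSectionVars false

open MeasureTheory Filter Set
open scoped ENNReal Topology

namespace Pool.Agent.N417.LD

open Pool.Agent.R528.RM Pool.Agent.N740.HK

lemma rho_cont (s : ℝ) : Continuous (rho s) := by
  unfold rho
  fun_prop

lemma GG_cont (s : ℝ) : Continuous (GG s) := by
  unfold GG
  fun_prop

lemma params {s : ℝ} (hs : s = 1 ∨ s = -1) {lam c : ℝ} (hlam : 0 < lam) (hI : c * II s lam < 1)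
    {ε : ℝ} (hε : 0 < ε) :
    ∃ θ η δ : ℝ, 0 < θ ∧ 2 * θ < lam ∧ 0 < η ∧ η < 1 ∧ 0 < δ ∧
      θ * GG s (lam - 2 * θ) + (1 + η) * rho s (lam - θ) - (1 - η) ^ 2 * rho s lam ≤ -δ ∧
      -(θ * GG s (lam + 2 * θ)) + (1 + η) * rho s (lam + θ) - (1 - η) ^ 2 * rho s lam ≤ -δ ∧
      c * (lam * GG s (lam + 2 * θ) - (1 - η) ^ 2 * rho s lam) < 1 ∧
      c * GG s (lam + 2 * θ) < c * GG s lam + ε ∧ c * GG s lam - ε < c * GG s (lam - 2 * θ) := by
  have hG := GG_cont s
  have hR := rho_cont s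
  have k1 : Tendsto (fun θ : ℝ => c * (lam * GG s (lam + 2 * θ) - rho s lam)) (𝓝 0) (𝓝 (c * II s lam)) := by
    have : Continuous (fun θ : ℝ => c * (lam * GG s (lam + 2 * θ) - rho s lam)) := by fun_prop
    have h := this.tendsto 0
    simp only [mul_zero, add_zero] at h
    exact h
  have k2 : Tendsto (fun θ : ℝ => c * GG s (lam + 2 * θ)) (𝓝 0) (𝓝 (c * GG s lam)) := by
    have : Continuous (fun θ : ℝ => c * GG s (lam + 2 * θ)) := by fun_prop
    have h := this.tendsto 0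
    simpa only [mul_zero, add_zero] using h
  have k3 : Tendsto (fun θ : ℝ => c * GG s (lam - 2 * θ)) (𝓝 0) (𝓝 (c * GG s lam)) := by
    have : Continuous (fun θ : ℝ => c * GG s (lam - 2 * θ)) := by fun_prop
    have h := this.tendsto 0
    simpa only [mul_zero, sub_zero] using h
  have ev : ∀ᶠ θ : ℝ in 𝓝[>] 0, 0 < θ ∧ θ < lam / 2 ∧ c * (lam * GG s (lam + 2 * θ) - rho s lam) < 1 ∧
      c * GG s (lam + 2 * θ) < c * GG s lam + ε ∧ c * GG s lam - ε < c * GG s (lam - 2 * θ) := by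
    have j1 : ∀ᶠ θ : ℝ in 𝓝[>] 0, 0 < θ := eventually_mem_nhdsWithin
    have j2 : ∀ᶠ θ : ℝ in 𝓝[>] 0, θ < lam / 2 := (eventually_lt_nhds (by linarith)).filter_mono nhdsWithin_le_nhds
    have j3 := (k1.eventually_lt_const hI).filter_mono (nhdsWithin_le_nhds (s := Ioi (0 : ℝ)))
    have j4 := (k2.eventually_lt_const (show c * GG s lam < c * GG s lam + ε by linarith)).filter_mono
      (nhdsWithin_le_nhds (s := Ioi (0 : ℝ)))
    have j5 := (k3.eventually_const_lt (show c * GG s lam - ε < c * GG s lam by linarith)).filter_mono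
      (nhdsWithin_le_nhds (s := Ioi (0 : ℝ)))
    filter_upwards [j1, j2, j3, j4, j5] with θ a1 a2 a3 a4 a5
    exact ⟨a1, a2, a3, a4, a5⟩
  obtain ⟨θ, hθ, hθ2, t3, t4, t5⟩ := ev.exists
  have d1 : θ * GG s (lam - 2 * θ) + rho s (lam - θ) - rho s lam < 0 := by
    have h1 := rho_tangent s (lam - θ) lam
    have h2 := GG_mono hs (show lam - 2 * θ < lam - θ by linarith)
    have h3 : lam - (lam - θ) = θ := by ring
    rw [h3] at h1
    nlinarith
  have d2 : -(θ * GG s (lam + 2 * θ)) + rho s (lam + θ) - rho s lam < 0 := by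
    have h1 := rho_tangent s (lam + θ) lam
    have h2 := GG_mono hs (show lam + θ < lam + 2 * θ by linarith)
    have h3 : lam - (lam + θ) = -θ := by ring
    rw [h3] at h1
    nlinarith
  set e1 : ℝ := θ * GG s (lam - 2 * θ) + rho s (lam - θ) - rho s lam with he1
  set e2 : ℝ := -(θ * GG s (lam + 2 * θ)) + rho s (lam + θ) - rho s lam with he2
  set δ : ℝ := min (-e1) (-e2) / 2 with hδ
  have hδ0 : 0 < δ := by
    have : 0 < min (-e1) (-e2) := lt_min (by linarith) (by linarith)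
    positivity
  have hd1 : e1 < -δ := by
    have := min_le_left (-e1) (-e2)
    have h0 : min (-e1) (-e2) = 2 * δ := by rw [hδ]; ring
    linarith
  have hd2 : e2 < -δ := by
    have := min_le_right (-e1) (-e2)
    have h0 : min (-e1) (-e2) = 2 * δ := by rw [hδ]; ring
    linarith
  have m1 : Tendsto (fun η : ℝ => θ * GG s (lam - 2 * θ) + (1 + η) * rho s (lam - θ) - (1 - η) ^ 2 * rho s lam) (𝓝 0) (𝓝 e1) := by
    have : Continuous (fun η : ℝ => θ * GG s (lam - 2 * θ) + (1 + η) * rho s (lam - θ) - (1 - η) ^ 2 * rho s lam) := by fun_prop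
    have h := this.tendsto 0
    simp only [add_zero, sub_zero, one_pow, one_mul] at h
    exact h
  have m2 : Tendsto (fun η : ℝ => -(θ * GG s (lam + 2 * θ)) + (1 + η) * rho s (lam + θ) - (1 - η) ^ 2 * rho s lam) (𝓝 0) (𝓝 e2) := by
    have : Continuous (fun η : ℝ => -(θ * GG s (lam + 2 * θ)) + (1 + η) * rho s (lam + θ) - (1 - η) ^ 2 * rho s lam) := by fun_prop
    have h := this.tendsto 0
    simp only [add_zero, sub_zero, one_pow, one_mul] at h
    exact h
  have m3 : Tendsto (fun η : ℝ => c * (lam * GG s (lam + 2 * θ) - (1 - η) ^ 2 * rho s lam)) (𝓝 0)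
      (𝓝 (c * (lam * GG s (lam + 2 * θ) - rho s lam))) := by
    have : Continuous (fun η : ℝ => c * (lam * GG s (lam + 2 * θ) - (1 - η) ^ 2 * rho s lam)) := by fun_prop
    have h := this.tendsto 0
    simp only [sub_zero, one_pow, one_mul] at h
    exact h
  have ev2 : ∀ᶠ η : ℝ in 𝓝[>] 0, 0 < η ∧ η < 1 ∧
      θ * GG s (lam - 2 * θ) + (1 + η) * rho s (lam - θ) - (1 - η) ^ 2 * rho s lam < -δ ∧
      -(θ * GG s (lam + 2 * θ)) + (1 + η) * rho s (lam + θ) - (1 - η) ^ 2 * rho s lam < -δ ∧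
      c * (lam * GG s (lam + 2 * θ) - (1 - η) ^ 2 * rho s lam) < 1 := by
    have j1 : ∀ᶠ η : ℝ in 𝓝[>] 0, 0 < η := eventually_mem_nhdsWithin
    have j2 : ∀ᶠ η : ℝ in 𝓝[>] 0, η < 1 := (eventually_lt_nhds (by linarith)).filter_mono nhdsWithin_le_nhds
    have j3 := (m1.eventually_lt_const hd1).filter_mono (nhdsWithin_le_nhds (s := Ioi (0 : ℝ)))
    have j4 := (m2.eventually_lt_const hd2).filter_mono (nhdsWithin_le_nhds (s := Ioi (0 : ℝ)))
    have j5 := (m3.eventually_lt_const t3).filter_mono (nhdsWithin_le_nhds (s := Ioi (0 : ℝ)))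
    filter_upwards [j1, j2, j3, j4, j5] with η a1 a2 a3 a4 a5
    exact ⟨a1, a2, a3, a4, a5⟩
  obtain ⟨η, a1, a2, a3, a4, a5⟩ := ev2.exists
  exact ⟨θ, η, δ, hθ, by linarith, a1, a2, hδ0, a3.le, a4.le, a5, t4, t5⟩

variable {Ω : Type} {m0 : MeasurableSpace Ω} {μ : Measure Ω} [IsProbabilityMeasure μ]
  {ℱ : Filtration ℕ m0} {A : ℕ → Set Ω}

/-- the densities in the windows are asymptotic to `p k` -/
def GoodWin (μ : Measure Ω) (ℱ : Filtration ℕ m0) (A : ℕ → Set Ω) (T H : ℕ → ℕ) (p : ℕ → ℝ) (ω : Ω) : Prop :=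
  ∀ η : ℝ, 0 < η → η ≤ 1 → ∀ᶠ k : ℕ in atTop, ω ∈ GW μ ℱ A ((1 - η) * p k) ((1 + η) * p k) (T k) (H k)

/-- **lower bound** -/
theorem seq_ld_lower (hA : ∀ n, MeasurableSet[ℱ n] (A n)) {s : ℝ} (hs : s = 1 ∨ s = -1) {T H : ℕ → ℕ} {p : ℕ → ℝ} {c : ℝ}
    (hc : 0 < c) (hp : ∀ᶠ k in atTop, 0 < p k) (hp0 : Tendsto p atTop (𝓝 0))
    (hHp : Tendsto (fun k : ℕ => H k * p k / Real.log k) atTop (𝓝 c)) (hTH : ∀ k, T k + H k ≤ T (k + 1))
    (hg : ∀ᵐ ω ∂μ, GoodWin μ ℱ A T H p ω) {lam : ℝ} (hlam : 0 < lam) (hI : c * II s lam < 1) :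
    ∀ᵐ ω ∂μ, ∀ ε : ℝ, 0 < ε → ∀ K : ℕ, ∃ k, K ≤ k ∧
      |SW μ ℱ A (fun _ => s) (T k) (H k) ω / Real.log k - c * GG s lam| < ε := by
  have hmono : Monotone T := monotone_nat_of_le_succ fun k => by have := hTH k; omega
  have hΛl : Tendsto (fun k : ℕ => Real.log (k : ℝ)) atTop atTop := Real.tendsto_log_atTop.comp tendsto_natCast_atTop_atTop
  have main : ∀ ε : ℝ, 0 < ε → ∀ᵐ ω ∂μ, ∀ K : ℕ, ∃ k, K ≤ k ∧
      |SW μ ℱ A (fun _ => s) (T k) (H k) ω / Real.log k - c * GG s lam| < ε := by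
    intro ε hε
    obtain ⟨θ, η, δ, hθ, hθ2, hη, hη1, hδ, c1, c2, c3, c4, c5⟩ := params hs hlam hI hε
    set X : ℝ := lam * GG s (lam + 2 * θ) - (1 - η) ^ 2 * rho s lam with hX
    set D : ℕ → Set Ω := fun k => {ω | H k * p k * GG s (lam - 2 * θ) ≤ SW μ ℱ A (fun _ => s) (T k) (H k) ω ∧
        SW μ ℱ A (fun _ => s) (T k) (H k) ω ≤ H k * p k * GG s (lam + 2 * θ)} ∪
        (GW μ ℱ A ((1 - η) * p k) ((1 + η) * p k) (T k) (H k))ᶜ with hD
    have hDm : ∀ k, MeasurableSet[ℱ (T (k + 1))] (D k) := by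
      intro k
      refine ℱ.mono (hTH k) _ ?_
      have hS := (SW_meas (μ := μ) hA (fun _ => s) (T k) (H k)).measurable
      exact ((measurableSet_le (@measurable_const _ _ _ (ℱ (T k + H k)) _) hS).inter
        (measurableSet_le hS (@measurable_const _ _ _ (ℱ (T k + H k)) _))).union (GW_meas' _ _ _ _).compl
    have hpk : ∃ k₀, ∀ k, k₀ ≤ k → ∀ C, MeasurableSet[ℱ (T k)] C → (1 / 2 * (1 / ((k : ℝ) + 1))) * μ.real C ≤ μ.real (C ∩ D k) := by
      apply eventually_atTop.1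
      have s1 : Tendsto (fun k : ℕ => (1 + η) * p k * |Real.exp (s * lam) - 1|) atTop (𝓝 0) := by
        have := (hp0.const_mul (1 + η)).mul_const |Real.exp (s * lam) - 1|
        simpa using this
      have s2 : Tendsto (fun k : ℕ => 2 * ((1 + η) * p k) * (Real.exp (s * lam) - 1) ^ 2) atTop (𝓝 0) := by
        have := ((hp0.const_mul (1 + η)).const_mul 2).mul_const ((Real.exp (s * lam) - 1) ^ 2)
        simpa using this
      have s3 : Tendsto (fun k : ℕ => H k * p k / Real.log k * X) atTop (𝓝 (c * X)) := hHp.mul_const X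
      have s4 : Tendsto (fun k : ℕ => (H k * p k / Real.log k) * (Real.log k)) atTop atTop := hHp.pos_mul_atTop hc hΛl
      have hρ := rho_pos hs hlam
      filter_upwards [hp, s1.eventually_le_const (show (0 : ℝ) < 1 / 2 by norm_num),
        s2.eventually_le_const (show 0 < η * rho s lam by positivity), s3.eventually_lt_const c3,
        s4.eventually_ge_atTop (2 / δ), hΛl.eventually_gt_atTop 0, eventually_ge_atTop 2] with k q1 q2 q3 q4 q5 q6 q7 C hC
      have hk0 : (0 : ℝ) < k := by exact_mod_cast (by omega : 0 < k)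
      rw [div_mul_cancel₀ _ q6.ne'] at q5
      have hm : 2 ≤ H k * p k * δ := by
        rw [div_le_iff₀ hδ] at q5
        exact q5
      have hw := win_lower (μ := μ) (T := T k) (H := H k) hA hs q1 hη hη1.le hθ hθ2 q2 q3 c1 c2 hm hC
      refine le_trans (mul_le_mul_of_nonneg_right ?_ measureReal_nonneg) hw
      apply mul_le_mul_of_nonneg_left _ (by norm_num)
      have e1 : H k * p k * X < Real.log k := by
        have : H k * p k / Real.log k * X = H k * p k * X / Real.log k := by ring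
        rw [this, div_lt_one q6] at q4
        exact q4
      have e2 : Real.exp (-Real.log k) ≤ Real.exp (-(H k * p k * X)) := Real.exp_le_exp.2 (by linarith)
      rw [Real.exp_neg, Real.exp_log hk0] at e2
      refine le_trans ?_ e2
      rw [← one_div]
      exact one_div_le_one_div_of_le hk0 (by linarith)
    obtain ⟨k₀, hk₀⟩ := hpk
    have hsum : Tendsto (fun n => ∑ k ∈ Finset.range n, (1 / 2 * (1 / ((k : ℝ) + 1)))) atTop atTop := by
      have h1 := Real.tendsto_sum_range_one_div_nat_succ_atTop.const_mul_atTop (show (0 : ℝ) < 1 / 2 by norm_num)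
      refine h1.congr fun n => ?_
      rw [Finset.mul_sum]
    have h1 := trials_io (μ := μ) (ℱ := ℱ) hmono hDm hk₀ hsum
    have s5 : Tendsto (fun k : ℕ => H k * p k / Real.log k * GG s (lam + 2 * θ)) atTop (𝓝 (c * GG s (lam + 2 * θ))) :=
      hHp.mul_const _
    have s6 : Tendsto (fun k : ℕ => H k * p k / Real.log k * GG s (lam - 2 * θ)) atTop (𝓝 (c * GG s (lam - 2 * θ))) :=
      hHp.mul_const _
    filter_upwards [h1, hg] with ω h2 h3 K
    obtain ⟨K', hK'⟩ := eventually_atTop.1 ((h3 η hη hη1.le).and ((s5.eventually_lt_const c4).and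
      ((s6.eventually_const_lt c5).and (hΛl.eventually_gt_atTop 0))))
    obtain ⟨k, hk, hk2⟩ := h2 (max K K')
    obtain ⟨g1, g2, g3, g4⟩ := hK' k ((le_max_right _ _).trans hk)
    refine ⟨k, (le_max_left _ _).trans hk, ?_⟩
    rcases hk2 with h5 | h5
    · have f1 : H k * p k / Real.log k * GG s (lam - 2 * θ) ≤ SW μ ℱ A (fun _ => s) (T k) (H k) ω / Real.log k := by
        rw [le_div_iff₀ g4]
        have : H k * p k / Real.log k * GG s (lam - 2 * θ) * Real.log k = H k * p k * GG s (lam - 2 * θ) := by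
          field_simp
        rw [this]
        exact h5.1
      have f2 : SW μ ℱ A (fun _ => s) (T k) (H k) ω / Real.log k ≤ H k * p k / Real.log k * GG s (lam + 2 * θ) := by
        rw [div_le_iff₀ g4]
        have : H k * p k / Real.log k * GG s (lam + 2 * θ) * Real.log k = H k * p k * GG s (lam + 2 * θ) := by
          field_simp
        rw [this]
        exact h5.2
      rw [abs_lt]
      constructor <;> linarith
    · exact absurd g1 h5
  have hall : ∀ᵐ ω ∂μ, ∀ m : ℕ, ∀ K : ℕ, ∃ k, K ≤ k ∧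
      |SW μ ℱ A (fun _ => s) (T k) (H k) ω / Real.log k - c * GG s lam| < 1 / ((m : ℝ) + 1) := by
    rw [ae_all_iff]
    intro m
    exact main _ (by positivity)
  filter_upwards [hall] with ω hω ε hε K
  obtain ⟨m, hm⟩ := exists_nat_one_div_lt hε
  obtain ⟨k, hk, hk2⟩ := hω m K
  exact ⟨k, hk, hk2.trans hm⟩

/-- **upper bound** -/
theorem seq_ld_upper (hA : ∀ n, MeasurableSet[ℱ n] (A n)) {s : ℝ} (hs : s = 1 ∨ s = -1) {T H : ℕ → ℕ} {p : ℕ → ℝ} {c : ℝ}
    (hp : ∀ᶠ k in atTop, 0 < p k)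
    (hHp : Tendsto (fun k : ℕ => H k * p k / Real.log k) atTop (𝓝 c)) (hH : ∀ᶠ k in atTop, 0 < H k)
    (hg : ∀ᵐ ω ∂μ, GoodWin μ ℱ A T H p ω) {lam : ℝ} (hlam : 0 < lam) (hI : 1 < c * II s lam) :
    ∀ᵐ ω ∂μ, ∀ᶠ k : ℕ in atTop, SW μ ℱ A (fun _ => s) (T k) (H k) ω < H k * p k * GG s lam := by
  have hΛl : Tendsto (fun k : ℕ => Real.log (k : ℝ)) atTop atTop := Real.tendsto_log_atTop.comp tendsto_natCast_atTop_atTop
  obtain ⟨η, hη, hη1, hηI⟩ : ∃ η : ℝ, 0 < η ∧ η < 1 ∧ 1 < c * (II s lam - η * rho s lam) := by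
    have m1 : Tendsto (fun η : ℝ => c * (II s lam - η * rho s lam)) (𝓝 0) (𝓝 (c * II s lam)) := by
      have : Continuous (fun η : ℝ => c * (II s lam - η * rho s lam)) := by fun_prop
      have h := this.tendsto 0
      simpa using h
    have j1 : ∀ᶠ η : ℝ in 𝓝[>] 0, 0 < η := eventually_mem_nhdsWithin
    have j2 : ∀ᶠ η : ℝ in 𝓝[>] 0, η < 1 := (eventually_lt_nhds (by linarith)).filter_mono nhdsWithin_le_nhds
    have j3 := (m1.eventually_const_lt hI).filter_mono (nhdsWithin_le_nhds (s := Ioi (0 : ℝ)))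
    obtain ⟨η, a1, a2, a3⟩ := (j1.and (j2.and j3)).exists
    exact ⟨η, a1, a2, a3⟩
  obtain ⟨δ, hδ, hδ2⟩ : ∃ δ : ℝ, 1 < δ ∧ δ < c * (II s lam - η * rho s lam) := exists_between hηI
  set E : ℕ → Set Ω := fun k => {ω | ω ∈ GW μ ℱ A ((1 - η) * p k) ((1 + η) * p k) (T k) (H k) ∧
    H k * p k * GG s lam ≤ SW μ ℱ A (fun _ => s) (T k) (H k) ω} with hE
  have hbd : ∀ᶠ k : ℕ in atTop, μ.real (E k) ≤ (k : ℝ) ^ (-δ) := by
    have s3 : Tendsto (fun k : ℕ => H k * p k / Real.log k * (II s lam - η * rho s lam)) atTop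
      (𝓝 (c * (II s lam - η * rho s lam))) := hHp.mul_const _
    filter_upwards [hp, hH, s3.eventually_const_lt hδ2, hΛl.eventually_gt_atTop 0, eventually_ge_atTop 2] with k q1 q2 q3 q4 q5
    have hk0 : (0 : ℝ) < k := by exact_mod_cast (by omega : 0 < k)
    have h1 := win_upper (μ := μ) (ℱ := ℱ) (A := A) (T := T k) (H := H k) hA hs q1 hη hη1.le hlam q2
    refine h1.trans ?_
    rw [Real.rpow_def_of_pos hk0]
    apply Real.exp_le_exp.2
    have e1 : H k * p k / Real.log k * (II s lam - η * rho s lam) = H k * p k * (II s lam - η * rho s lam) / Real.log k := by ring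
    rw [e1, lt_div_iff₀ q4] at q3
    linarith
  have hsum : ∑' k : ℕ, μ (E k) ≠ ∞ := by
    have h1 : Summable (fun k : ℕ => (k : ℝ) ^ (-δ)) := Real.summable_nat_rpow.2 (by linarith)
    have h2 : Summable (fun k : ℕ => μ.real (E k)) := by
      refine Summable.of_norm_bounded_eventually_nat h1 ?_
      filter_upwards [hbd] with k hk
      rw [Real.norm_of_nonneg measureReal_nonneg]
      exact hk
    have h3 : ∑' n : ℕ, μ (E n) = ENNReal.ofReal (∑' n : ℕ, μ.real (E n)) := by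
      rw [ENNReal.ofReal_tsum_of_nonneg (fun _ => measureReal_nonneg) h2]
      congr 1
      funext i
      exact (ofReal_measureReal (measure_ne_top _ _)).symm
    rw [h3]
    exact ENNReal.ofReal_ne_top
  filter_upwards [ae_eventually_notMem hsum, hg] with ω h1 h2
  filter_upwards [h1, h2 η hη hη1.le] with k h3 h4
  by_contra hcon
  push Not at hcon
  exact h3 ⟨h4, hcon⟩

end Pool.Agent.N417.LD
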