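import Mathlib
import Pool.Agent.N417.LD.C

/-!
# Large deviations: the limit points
-/

set_option autoImplicit false
set_option linter.unusedSectionVars false

open MeasureTheory Filter Set
open scoped ENNReal Topology

namespace Pool.Agent.N417.LD

open Pool.Agent.R528.RM Pool.Agent.N740.HK

/-- `x log x - x + 1` -/
noncomputable def hh (x : ℝ) : ℝ := x * Real.log x - x + 1

lemma hh_cont : Continuous hh := by
  unfold hh
  exact (Real.continuous_mul_log.sub continuous_id).add_const 1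

lemma hh_one : hh 1 = 0 := by simp [hh]

lemma hh_zero : hh 0 = 1 := by simp [hh]

/-- the tangent inequality -/
lemma hh_tangent {x y : ℝ} (hx : 0 < x) (hy : 0 ≤ y) : hh x + (y - x) * Real.log x ≤ hh y := by
  unfold hh
  rcases hy.eq_or_lt with rfl | hy
  · simp
    nlinarith
  · have h1 := Real.one_sub_inv_le_log_of_pos (show 0 < y / x by positivity)
    rw [Real.log_div hy.ne' hx.ne', inv_div] at h1
    have h2 := mul_le_mul_of_nonneg_left h1 hy.le
    have e : y * (1 - x / y) = y - x := by field_simp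
    rw [e] at h2
    nlinarith

lemma hh_lt_of_gt {x y : ℝ} (hx : 1 < x) (hxy : x < y) : hh x < hh y := by
  have h1 := hh_tangent (x := x) (y := y) (by linarith) (by linarith)
  have h2 := Real.log_pos hx
  nlinarith [mul_pos (show 0 < y - x by linarith) h2]

lemma hh_lt_of_lt {x y : ℝ} (hy : 0 ≤ y) (hyx : y < x) (hx : x < 1) : hh x < hh y := by
  have h0 : 0 < x := by linarith
  have h1 := hh_tangent h0 hy
  have h2 := Real.log_neg h0 hx
  nlinarith [mul_pos_of_neg_of_neg (show y - x < 0 by linarith) h2]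

lemma hh_exp_one : hh (Real.exp 1) = 1 := by simp [hh]

/-- the set of the `x ≥ 0` with `c (x log x - x + 1) ≤ 1` is an interval -/
lemma interval {c : ℝ} (hc : 0 < c) : ∃ a b : ℝ, 0 ≤ a ∧ a < 1 ∧ 1 < b ∧ c * hh b = 1 ∧ (c ≤ 1 → a = 0) ∧
    (1 < c → 0 < a ∧ c * hh a = 1) ∧ ∀ x : ℝ, (0 ≤ x ∧ c * hh x ≤ 1) ↔ (a ≤ x ∧ x ≤ b) := by
  obtain ⟨b, hb1, hb2⟩ : ∃ b : ℝ, 1 < b ∧ c * hh b = 1 := by
    set Y : ℝ := Real.exp 1 + 1 / c with hY
    have he : (1 : ℝ) < Real.exp 1 := by
      have := Real.add_one_lt_exp (show (1 : ℝ) ≠ 0 by norm_num)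
      linarith
    have hc' : 0 < 1 / c := by positivity
    have hY1 : (1 : ℝ) ≤ Y := by linarith
    have hcont : ContinuousOn (fun x => c * hh x) (Icc 1 Y) := (hh_cont.const_mul c |>.continuousOn)
    have h1 := intermediate_value_Icc hY1 hcont
    have h2 : (1 : ℝ) ∈ Icc (c * hh 1) (c * hh Y) := by
      rw [hh_one, mul_zero]
      refine ⟨zero_le_one, ?_⟩
      have h3 := hh_tangent (x := Real.exp 1) (y := Y) (by linarith) (by linarith)
      rw [hh_exp_one, Real.log_exp] at h3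
      have h4 : 1 + 1 / c ≤ hh Y := by
        have : 1 + (Y - Real.exp 1) * 1 = 1 + 1 / c := by rw [hY]; ring
        linarith
      have h5 := mul_le_mul_of_nonneg_left h4 hc.le
      have h6 : c * (1 + 1 / c) = c + 1 := by field_simp
      linarith
    obtain ⟨b, hb, hb2⟩ := h1 h2
    refine ⟨b, lt_of_le_of_ne hb.1 ?_, hb2⟩
    rintro rfl
    simp [hh_one] at hb2
  obtain ⟨a, ha0, ha1, ha2, ha3, ha4⟩ : ∃ a : ℝ, 0 ≤ a ∧ a < 1 ∧ (c ≤ 1 → a = 0) ∧ (1 < c → 0 < a ∧ c * hh a = 1) ∧ c * hh a ≤ 1 := by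
    by_cases h : c ≤ 1
    · refine ⟨0, le_rfl, zero_lt_one, fun _ => rfl, fun h' => absurd h (not_le.2 h'), ?_⟩
      rw [hh_zero]
      linarith
    · push Not at h
      have hcont : ContinuousOn (fun x => c * hh x) (Icc 0 1) := (hh_cont.const_mul c |>.continuousOn)
      have h1 := intermediate_value_Icc' zero_le_one hcont
      have h2 : (1 : ℝ) ∈ Icc (c * hh 1) (c * hh 0) := by
        rw [hh_one, hh_zero]
        constructor <;> linarith
      obtain ⟨a, ha, ha2⟩ := h1 h2
      have ha2 : c * hh a = 1 := ha2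
      have hane : a ≠ 1 := by
        rintro rfl
        simp [hh_one] at ha2
      have hane0 : a ≠ 0 := by
        rintro rfl
        rw [hh_zero] at ha2
        linarith
      exact ⟨a, ha.1, lt_of_le_of_ne ha.2 hane, fun h' => absurd h' (not_le.2 h),
        fun _ => ⟨lt_of_le_of_ne ha.1 hane0.symm, ha2⟩, ha2.le⟩
  refine ⟨a, b, ha0, ha1, hb1, hb2, ha2, ha3, fun x => ⟨fun h => ⟨?_, ?_⟩, fun h => ⟨ha0.trans h.1, ?_⟩⟩⟩
  · by_contra hx
    push Not at hx
    have hc1 : 1 < c := by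
      by_contra hcc
      rw [ha2 (not_lt.1 hcc)] at hx
      linarith [h.1]
    have h1 := hh_lt_of_lt h.1 hx ha1
    have h2 := mul_lt_mul_of_pos_left h1 hc
    rw [(ha3 hc1).2] at h2
    linarith [h.2]
  · by_contra hx
    push Not at hx
    have h1 := hh_lt_of_gt hb1 hx
    have h2 := mul_lt_mul_of_pos_left h1 hc
    rw [hb2] at h2
    linarith [h.2]
  · rcases le_or_gt x 1 with hx | hx
    · rcases h.1.eq_or_lt with rfl | hax
      · exact ha4
      · rcases hx.eq_or_lt with rfl | hx1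
        · rw [hh_one]; linarith
        · have h1 := hh_lt_of_lt ha0 hax hx1
          have h2 := mul_lt_mul_of_pos_left h1 hc
          linarith
    · rcases h.2.eq_or_lt with rfl | hxb
      · exact hb2.le
      · have h1 := hh_lt_of_gt hx hxb
        have h2 := mul_lt_mul_of_pos_left h1 hc
        linarith

lemma II_one {x : ℝ} (hx : 0 < x) : II 1 (Real.log x) = hh x := by
  unfold II GG rho hh
  have e : (1 : ℝ) * Real.log x = Real.log x := one_mul _
  rw [e, Real.exp_log hx]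
  ring

lemma II_neg {x : ℝ} (hx : 0 < x) : II (-1) (-Real.log x) = hh x := by
  unfold II GG rho hh
  have e : (-1 : ℝ) * -Real.log x = Real.log x := by ring
  rw [e, Real.exp_log hx]
  ring

lemma GG_one {x : ℝ} (hx : 0 < x) : GG 1 (Real.log x) = x - 1 := by
  unfold GG
  rw [one_mul, one_mul, Real.exp_log hx]

lemma GG_neg {x : ℝ} (hx : 0 < x) : GG (-1) (-Real.log x) = 1 - x := by
  unfold GG
  rw [neg_one_mul (-Real.log x), neg_neg, Real.exp_log hx]
  ring

variable {Ω : Type} {m0 : MeasurableSpace Ω} {μ : Measure Ω} [IsProbabilityMeasure μ]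
  {ℱ : Filtration ℕ m0} {A : ℕ → Set Ω}

/-- number of chosen integers in `(T, T + H]` -/
noncomputable def cnt (A : ℕ → Set Ω) (T H : ℕ) (ω : Ω) : ℝ := ∑ i ∈ Finset.range H, J1 A (T + i + 1) ω

/-- the compensator -/
noncomputable def cmp (μ : Measure Ω) (ℱ : Filtration ℕ m0) (A : ℕ → Set Ω) (T H : ℕ) (ω : Ω) : ℝ :=
  ∑ i ∈ Finset.range H, DD' μ ℱ A (T + i) ω

lemma SW_const (s : ℝ) (T H : ℕ) (ω : Ω) : SW μ ℱ A (fun _ => s) T H ω = s * (cnt A T H ω - cmp μ ℱ A T H ω) := by
  unfold SW cnt cmp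
  rw [← Finset.sum_sub_distrib, Finset.mul_sum]

lemma cmp_bd {l u : ℝ} {T H : ℕ} {ω : Ω} (h : ω ∈ GW μ ℱ A l u T H) : H * l ≤ cmp μ ℱ A T H ω ∧ cmp μ ℱ A T H ω ≤ H * u := by
  unfold cmp
  have e1 : ∑ i ∈ Finset.range H, l = H * l := by simp
  have e2 : ∑ i ∈ Finset.range H, u = H * u := by simp
  rw [← e1, ← e2]
  exact ⟨Finset.sum_le_sum fun i hi => (h i (Finset.mem_range.1 hi)).1, Finset.sum_le_sum fun i hi => (h i (Finset.mem_range.1 hi)).2⟩

lemma cmp_lim {T H : ℕ → ℕ} {p : ℕ → ℝ} {c : ℝ} (hHp : Tendsto (fun k : ℕ => H k * p k / Real.log k) atTop (𝓝 c)) {ω : Ω}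
    (hg : GoodWin μ ℱ A T H p ω) : Tendsto (fun k : ℕ => cmp μ ℱ A (T k) (H k) ω / Real.log k) atTop (𝓝 c) := by
  rw [Metric.tendsto_nhds]
  intro ε hε
  have hΛl : Tendsto (fun k : ℕ => Real.log (k : ℝ)) atTop atTop := Real.tendsto_log_atTop.comp tendsto_natCast_atTop_atTop
  obtain ⟨η, hη, hη1, h1, h2⟩ : ∃ η : ℝ, 0 < η ∧ η ≤ 1 ∧ c * (1 + η) < c + ε ∧ c - ε < c * (1 - η) := by
    have m1 : Tendsto (fun η : ℝ => c * (1 + η)) (𝓝 0) (𝓝 c) := by
      have : Continuous (fun η : ℝ => c * (1 + η)) := by fun_prop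
      have h := this.tendsto 0
      simpa using h
    have m2 : Tendsto (fun η : ℝ => c * (1 - η)) (𝓝 0) (𝓝 c) := by
      have : Continuous (fun η : ℝ => c * (1 - η)) := by fun_prop
      have h := this.tendsto 0
      simpa using h
    have j1 : ∀ᶠ η : ℝ in 𝓝[>] 0, 0 < η := eventually_mem_nhdsWithin
    have j2 : ∀ᶠ η : ℝ in 𝓝[>] 0, η < 1 := (eventually_lt_nhds (by linarith)).filter_mono nhdsWithin_le_nhds
    have j3 := (m1.eventually_lt_const (show c < c + ε by linarith)).filter_mono (nhdsWithin_le_nhds (s := Ioi (0 : ℝ)))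
    have j4 := (m2.eventually_const_lt (show c - ε < c by linarith)).filter_mono (nhdsWithin_le_nhds (s := Ioi (0 : ℝ)))
    obtain ⟨η, a1, a2, a3, a4⟩ := (j1.and (j2.and (j3.and j4))).exists
    exact ⟨η, a1, a2.le, a3, a4⟩
  have s1 : Tendsto (fun k : ℕ => H k * p k / Real.log k * (1 + η)) atTop (𝓝 (c * (1 + η))) := hHp.mul_const _
  have s2 : Tendsto (fun k : ℕ => H k * p k / Real.log k * (1 - η)) atTop (𝓝 (c * (1 - η))) := hHp.mul_const _
  filter_upwards [hg η hη hη1, s1.eventually_lt_const h1, s2.eventually_const_lt h2, hΛl.eventually_gt_atTop 0] with k g1 g2 g3 g4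
  obtain ⟨f1, f2⟩ := cmp_bd g1
  rw [Real.dist_eq, abs_lt]
  have e1 : H k * ((1 - η) * p k) / Real.log k = H k * p k / Real.log k * (1 - η) := by ring
  have e2 : H k * ((1 + η) * p k) / Real.log k = H k * p k / Real.log k * (1 + η) := by ring
  have f3 := div_le_div_of_nonneg_right f1 g4.le
  have f4 := div_le_div_of_nonneg_right f2 g4.le
  rw [e1] at f3
  rw [e2] at f4
  constructor <;> linarith

/-- **the limit points of the counts** -/
theorem win_law (hA : ∀ n, MeasurableSet[ℱ n] (A n)) {T H : ℕ → ℕ} {p : ℕ → ℝ} {c : ℝ}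
    (hc : 0 < c) (hp : ∀ᶠ k in atTop, 0 < p k) (hp0 : Tendsto p atTop (𝓝 0)) (hH : ∀ᶠ k in atTop, 0 < H k)
    (hHp : Tendsto (fun k : ℕ => H k * p k / Real.log k) atTop (𝓝 c)) (hTH : ∀ k, T k + H k ≤ T (k + 1))
    (hg : ∀ᵐ ω ∂μ, GoodWin μ ℱ A T H p ω) :
    ∀ᵐ ω ∂μ, (∀ x : ℝ, 0 ≤ x → c * hh x ≤ 1 → ∀ ε : ℝ, 0 < ε → ∀ K : ℕ, ∃ k, K ≤ k ∧
        |cnt A (T k) (H k) ω / Real.log k - c * x| < ε) ∧
      ∀ ε : ℝ, 0 < ε → ∀ᶠ k : ℕ in atTop, ∃ x : ℝ, 0 ≤ x ∧ c * hh x ≤ 1 ∧ |cnt A (T k) (H k) ω / Real.log k - c * x| < ε := by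
  obtain ⟨a, b, ha0, ha1, hb1, hb2, ha2, ha3, hab⟩ := interval hc
  have hΛl : Tendsto (fun k : ℕ => Real.log (k : ℝ)) atTop atTop := Real.tendsto_log_atTop.comp tendsto_natCast_atTop_atTop
  -- rational interior points
  have low : ∀ᵐ ω ∂μ, ∀ q : ℚ, (0 : ℝ) < q → (q : ℝ) ≠ 1 → c * hh q < 1 → ∀ ε : ℝ, 0 < ε → ∀ K : ℕ, ∃ k, K ≤ k ∧
      |cnt A (T k) (H k) ω / Real.log k - c * q| < ε := by
    rw [ae_all_iff]
    intro q
    by_cases hq : (0 : ℝ) < q ∧ (q : ℝ) ≠ 1 ∧ c * hh q < 1
    swap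
    · filter_upwards with ω h1 h2 h3
      exact absurd ⟨h1, h2, h3⟩ hq
    obtain ⟨q0, q1, q2⟩ := hq
    rcases lt_or_gt_of_ne q1 with hlt | hgt
    · have hl : 0 < -Real.log (q : ℝ) := by
        have := Real.log_neg q0 hlt
        linarith
      filter_upwards [hg, seq_ld_lower hA (Or.inr rfl) hc hp hp0 hHp hTH hg hl (by rw [II_neg q0]; exact q2)] with ω g1 g2 _ _ _ ε hε K
      have g3 := Metric.tendsto_nhds.1 (cmp_lim hHp g1) (ε / 2) (by positivity)
      obtain ⟨K', hK'⟩ := eventually_atTop.1 g3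
      obtain ⟨k, k1, k2⟩ := g2 (ε / 2) (by positivity) (max K K')
      refine ⟨k, (le_max_left _ _).trans k1, ?_⟩
      have k3 := hK' k ((le_max_right _ _).trans k1)
      rw [Real.dist_eq] at k3
      rw [GG_neg q0, SW_const] at k2
      have e : cnt A (T k) (H k) ω / Real.log k - c * q =
          -((-1) * (cnt A (T k) (H k) ω - cmp μ ℱ A (T k) (H k) ω) / Real.log k - c * (1 - q)) +
          (cmp μ ℱ A (T k) (H k) ω / Real.log k - c) := by ring
      rw [e]
      refine (abs_add_le _ _).trans_lt ?_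
      rw [abs_neg]
      linarith
    · have hl : 0 < Real.log (q : ℝ) := Real.log_pos hgt
      filter_upwards [hg, seq_ld_lower hA (Or.inl rfl) hc hp hp0 hHp hTH hg hl (by rw [II_one q0]; exact q2)] with ω g1 g2 _ _ _ ε hε K
      have g3 := Metric.tendsto_nhds.1 (cmp_lim hHp g1) (ε / 2) (by positivity)
      obtain ⟨K', hK'⟩ := eventually_atTop.1 g3
      obtain ⟨k, k1, k2⟩ := g2 (ε / 2) (by positivity) (max K K')
      refine ⟨k, (le_max_left _ _).trans k1, ?_⟩
      have k3 := hK' k ((le_max_right _ _).trans k1)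
      rw [Real.dist_eq] at k3
      rw [GG_one q0, SW_const] at k2
      have e : cnt A (T k) (H k) ω / Real.log k - c * q =
          (1 * (cnt A (T k) (H k) ω - cmp μ ℱ A (T k) (H k) ω) / Real.log k - c * (q - 1)) +
          (cmp μ ℱ A (T k) (H k) ω / Real.log k - c) := by ring
      rw [e]
      refine (abs_add_le _ _).trans_lt ?_
      linarith
  -- upper bounds at rational points outside
  have up : ∀ᵐ ω ∂μ, ∀ q : ℚ, (1 : ℝ) < q → 1 < c * hh q → ∀ ε : ℝ, 0 < ε → ∀ᶠ k : ℕ in atTop,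
      cnt A (T k) (H k) ω / Real.log k < c * q + ε := by
    rw [ae_all_iff]
    intro q
    by_cases hq : (1 : ℝ) < q ∧ 1 < c * hh q
    swap
    · filter_upwards with ω h1 h2
      exact absurd ⟨h1, h2⟩ hq
    obtain ⟨q1, q2⟩ := hq
    have q0 : (0 : ℝ) < q := by linarith
    have hl : 0 < Real.log (q : ℝ) := Real.log_pos q1
    filter_upwards [hg, seq_ld_upper hA (Or.inl rfl) hp hHp hH hg hl (by rw [II_one q0]; exact q2)] with ω g1 g2 _ _ ε hε
    have g3 := Metric.tendsto_nhds.1 (cmp_lim hHp g1) (ε / 2) (by positivity)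
    have g4 : Tendsto (fun k : ℕ => H k * p k / Real.log k * (q - 1)) atTop (𝓝 (c * (q - 1))) := hHp.mul_const _
    filter_upwards [g2, g3, g4.eventually_lt_const (show c * (q - 1) < c * (q - 1) + ε / 2 by linarith),
      hΛl.eventually_gt_atTop 0] with k k1 k2 k3 k4
    rw [Real.dist_eq, abs_lt] at k2
    rw [GG_one q0, SW_const, one_mul] at k1
    have e : cnt A (T k) (H k) ω / Real.log k = (cnt A (T k) (H k) ω - cmp μ ℱ A (T k) (H k) ω) / Real.log k +
        cmp μ ℱ A (T k) (H k) ω / Real.log k := by ring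
    have e2 : (cnt A (T k) (H k) ω - cmp μ ℱ A (T k) (H k) ω) / Real.log k < H k * p k / Real.log k * (q - 1) := by
      rw [div_lt_iff₀ k4]
      have : H k * p k / Real.log k * (q - 1) * Real.log k = H k * p k * (q - 1) := by field_simp
      rw [this]
      exact k1
    rw [e]
    linarith
  have dn : ∀ᵐ ω ∂μ, ∀ q : ℚ, (0 : ℝ) < q → (q : ℝ) < 1 → 1 < c * hh q → ∀ ε : ℝ, 0 < ε → ∀ᶠ k : ℕ in atTop,
      c * q - ε < cnt A (T k) (H k) ω / Real.log k := by
    rw [ae_all_iff]
    intro q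
    by_cases hq : (0 : ℝ) < q ∧ (q : ℝ) < 1 ∧ 1 < c * hh q
    swap
    · filter_upwards with ω h1 h2 h3
      exact absurd ⟨h1, h2, h3⟩ hq
    obtain ⟨q0, q1, q2⟩ := hq
    have hl : 0 < -Real.log (q : ℝ) := by
      have := Real.log_neg q0 q1
      linarith
    filter_upwards [hg, seq_ld_upper hA (Or.inr rfl) hp hHp hH hg hl (by rw [II_neg q0]; exact q2)] with ω g1 g2 _ _ _ ε hε
    have g3 := Metric.tendsto_nhds.1 (cmp_lim hHp g1) (ε / 2) (by positivity)
    have g4 : Tendsto (fun k : ℕ => H k * p k / Real.log k * (1 - q)) atTop (𝓝 (c * (1 - q))) := hHp.mul_const _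
    filter_upwards [g2, g3, g4.eventually_lt_const (show c * (1 - q) < c * (1 - q) + ε / 2 by linarith),
      hΛl.eventually_gt_atTop 0] with k k1 k2 k3 k4
    rw [Real.dist_eq, abs_lt] at k2
    rw [GG_neg q0, SW_const] at k1
    have e : cnt A (T k) (H k) ω / Real.log k = cmp μ ℱ A (T k) (H k) ω / Real.log k -
        (-1) * (cnt A (T k) (H k) ω - cmp μ ℱ A (T k) (H k) ω) / Real.log k := by ring
    have e2 : (-1) * (cnt A (T k) (H k) ω - cmp μ ℱ A (T k) (H k) ω) / Real.log k < H k * p k / Real.log k * (1 - q) := by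
      rw [div_lt_iff₀ k4]
      have : H k * p k / Real.log k * (1 - q) * Real.log k = H k * p k * (1 - q) := by field_simp
      rw [this]
      exact k1
    rw [e]
    linarith
  filter_upwards [low, up, dn] with ω h1 h2 h3
  have cnt0 : ∀ k : ℕ, 0 ≤ cnt A (T k) (H k) ω := by
    intro k
    unfold cnt
    refine Finset.sum_nonneg fun i _ => ?_
    unfold J1
    exact indicator_nonneg (fun _ _ => zero_le_one) _
  constructor
  · intro x hx0 hx1 ε hε K
    obtain ⟨hax, hxb⟩ := (hab x).1 ⟨hx0, hx1⟩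
    -- a rational point near x
    obtain ⟨q, hq0, hq1, hq2, hq3⟩ : ∃ q : ℚ, (0 : ℝ) < q ∧ (q : ℝ) ≠ 1 ∧ c * hh q < 1 ∧ c * |(q : ℝ) - x| < ε / 2 := by
      have hδ : 0 < ε / (2 * c) := by positivity
      rcases lt_or_ge x 1 with hlt | hge
      · obtain ⟨q, hq1, hq2⟩ := exists_rat_btwn (show x < min 1 (x + ε / (2 * c)) from lt_min hlt (by linarith))
        obtain ⟨hq3, hq4⟩ := lt_min_iff.1 hq2
        refine ⟨q, by linarith, hq3.ne, ?_, ?_⟩
        · have := mul_lt_mul_of_pos_left (hh_lt_of_lt hx0 hq1 hq3) hc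
          linarith
        · rw [abs_of_pos (by linarith)]
          have := mul_lt_mul_of_pos_left (show (q : ℝ) - x < ε / (2 * c) by linarith) hc
          have e : c * (ε / (2 * c)) = ε / 2 := by field_simp
          linarith
      · rcases hge.eq_or_lt with h | hgt
        · subst h
          obtain ⟨q, hq1, hq2⟩ := exists_rat_btwn (show (1 : ℝ) < min b (1 + ε / (2 * c)) from lt_min hb1 (by linarith))
          obtain ⟨hq3, hq4⟩ := lt_min_iff.1 hq2
          refine ⟨q, by linarith, hq1.ne', ?_, ?_⟩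
          · have := mul_lt_mul_of_pos_left (hh_lt_of_gt hq1 hq3) hc
            linarith
          · rw [abs_of_pos (by linarith)]
            have := mul_lt_mul_of_pos_left (show (q : ℝ) - 1 < ε / (2 * c) by linarith) hc
            have e : c * (ε / (2 * c)) = ε / 2 := by field_simp
            linarith
        · obtain ⟨q, hq1, hq2⟩ := exists_rat_btwn (show max 1 (x - ε / (2 * c)) < x from max_lt hgt (by linarith))
          obtain ⟨hq3, hq4⟩ := max_lt_iff.1 hq1
          refine ⟨q, by linarith, hq3.ne', ?_, ?_⟩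
          · have := mul_lt_mul_of_pos_left (hh_lt_of_gt hq3 hq2) hc
            linarith
          · rw [abs_of_neg (by linarith)]
            have := mul_lt_mul_of_pos_left (show -((q : ℝ) - x) < ε / (2 * c) by linarith) hc
            have e : c * (ε / (2 * c)) = ε / 2 := by field_simp
            linarith
    obtain ⟨k, k1, k2⟩ := h1 q hq0 hq1 hq2 (ε / 2) (by positivity) K
    refine ⟨k, k1, ?_⟩
    have e : cnt A (T k) (H k) ω / Real.log k - c * x = (cnt A (T k) (H k) ω / Real.log k - c * q) + c * (q - x) := by ring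
    rw [e]
    refine (abs_add_le _ _).trans_lt ?_
    rw [abs_mul, abs_of_pos hc]
    linarith
  · intro ε hε
    have hδ : 0 < ε / (2 * c) := by positivity
    have ece : c * (ε / (2 * c)) = ε / 2 := by field_simp
    have U : ∀ᶠ k : ℕ in atTop, cnt A (T k) (H k) ω / Real.log k < c * b + ε := by
      obtain ⟨q, hq1, hq2⟩ := exists_rat_btwn (show b < b + ε / (2 * c) by linarith)
      have hq3 : 1 < c * hh q := by
        have := mul_lt_mul_of_pos_left (hh_lt_of_gt hb1 hq1) hc
        linarith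
      filter_upwards [h2 q (by linarith) hq3 (ε / 2) (by positivity)] with k hk
      have := mul_lt_mul_of_pos_left hq2 hc
      rw [mul_add, ece] at this
      linarith
    have L : ∀ᶠ k : ℕ in atTop, c * a - ε < cnt A (T k) (H k) ω / Real.log k := by
      rcases ha0.eq_or_lt with h | h
      · rw [← h]
        filter_upwards [hΛl.eventually_gt_atTop 0] with k hk
        have := div_nonneg (cnt0 k) hk.le
        linarith
      · have hc1 : 1 < c := by
          by_contra hcc
          rw [ha2 (not_lt.1 hcc)] at h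
          exact lt_irrefl _ h
        obtain ⟨q, hq1, hq2⟩ := exists_rat_btwn (show max 0 (a - ε / (2 * c)) < a from max_lt h (by linarith))
        obtain ⟨hq4, hq5⟩ := max_lt_iff.1 hq1
        have hq3 : 1 < c * hh q := by
          have := mul_lt_mul_of_pos_left (hh_lt_of_lt hq4.le hq2 ha1) hc
          rw [(ha3 hc1).2] at this
          exact this
        filter_upwards [h3 q hq4 (by linarith) hq3 (ε / 2) (by positivity)] with k hk
        have := mul_lt_mul_of_pos_left hq5 hc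
        rw [mul_sub, ece] at this
        linarith
    filter_upwards [U, L] with k u1 l1
    set y : ℝ := cnt A (T k) (H k) ω / Real.log k / c with hy
    have ey : cnt A (T k) (H k) ω / Real.log k = c * y := by rw [hy]; field_simp
    rw [ey] at u1 l1 ⊢
    rcases le_or_gt y a with h | h
    · obtain ⟨i1, i2⟩ := (hab a).2 ⟨le_rfl, by linarith⟩
      refine ⟨a, i1, i2, ?_⟩
      have := mul_le_mul_of_nonneg_left h hc.le
      rw [abs_lt]
      constructor <;> linarith
    · rcases le_or_gt y b with h' | h'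
      · obtain ⟨i1, i2⟩ := (hab y).2 ⟨h.le, h'⟩
        exact ⟨y, i1, i2, by simpa using hε⟩
      · obtain ⟨i1, i2⟩ := (hab b).2 ⟨by linarith, le_rfl⟩
        refine ⟨b, i1, i2, ?_⟩
        have := mul_lt_mul_of_pos_left h' hc
        rw [abs_lt]
        constructor <;> linarith

end Pool.Agent.N417.LD
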