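import Mathlib
import Pool.Agent.N417.LD.D

/-!
# Large deviations: the joint law of two windows
-/

set_option autoImplicit false
set_option linter.unusedSectionVars false

open MeasureTheory Filter Set
open scoped ENNReal Topology

namespace Pool.Agent.N417.LD

open Pool.Agent.R528.RM Pool.Agent.N740.HK

lemma params' {s : ℝ} (hs : s = 1 ∨ s = -1) {lam c : ℝ} (hlam : 0 < lam) (hc : 0 < c) {ε : ℝ} (hε : 0 < ε) :
    ∃ θ η δ : ℝ, 0 < θ ∧ 2 * θ < lam ∧ 0 < η ∧ η < 1 ∧ 0 < δ ∧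
      θ * GG s (lam - 2 * θ) + (1 + η) * rho s (lam - θ) - (1 - η) ^ 2 * rho s lam ≤ -δ ∧
      -(θ * GG s (lam + 2 * θ)) + (1 + η) * rho s (lam + θ) - (1 - η) ^ 2 * rho s lam ≤ -δ ∧
      c * (lam * GG s (lam + 2 * θ) - (1 - η) ^ 2 * rho s lam) < c * II s lam + ε ∧
      c * GG s (lam + 2 * θ) < c * GG s lam + ε ∧ c * GG s lam - ε < c * GG s (lam - 2 * θ) := by
  -- use `params` with `c'` in place of `c`, `c' * (II + ε / c) < 1`
  have hI0 : 0 ≤ II s lam := by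
    unfold II
    have := rho_le s lam
    linarith
  set w : ℝ := c * II s lam + ε with hw
  have hw0 : 0 < w := by positivity
  have hI : c / w * II s lam < 1 := by
    rw [div_mul_eq_mul_div, div_lt_one hw0]
    linarith
  obtain ⟨θ, η, δ, h1, h2, h3, h4, h5, h6, h7, h8, h9, h10⟩ := params (c := c / w) hs hlam hI (ε := ε / w) (by positivity)
  refine ⟨θ, η, δ, h1, h2, h3, h4, h5, h6, h7, ?_, ?_, ?_⟩
  · rw [div_mul_eq_mul_div, div_lt_one hw0] at h8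
    exact h8
  · have := mul_lt_mul_of_pos_left h9 hw0
    have e1 : w * (c / w * GG s (lam + 2 * θ)) = c * GG s (lam + 2 * θ) := by field_simp
    have e2 : w * (c / w * GG s lam + ε / w) = c * GG s lam + ε := by field_simp
    rwa [e1, e2] at this
  · have := mul_lt_mul_of_pos_left h10 hw0
    have e1 : w * (c / w * GG s (lam - 2 * θ)) = c * GG s (lam - 2 * θ) := by field_simp
    have e2 : w * (c / w * GG s lam - ε / w) = c * GG s lam - ε := by field_simp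
    rwa [e1, e2] at this

lemma exists_s {x : ℝ} (hx : 0 < x) (hx1 : x ≠ 1) :
    ∃ s lam : ℝ, (s = 1 ∨ s = -1) ∧ 0 < lam ∧ II s lam = hh x ∧ GG s lam = s * (x - 1) ∧ 0 < s * (x - 1) := by
  rcases lt_or_gt_of_ne hx1 with h | h
  · refine ⟨-1, -Real.log x, Or.inr rfl, ?_, II_neg hx, ?_, ?_⟩
    · have := Real.log_neg hx h
      linarith
    · rw [GG_neg hx]; ring
    · linarith
  · refine ⟨1, Real.log x, Or.inl rfl, Real.log_pos h, II_one hx, ?_, ?_⟩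
    · rw [GG_one hx]; ring
    · linarith

lemma hh_nonneg {x : ℝ} (hx : 0 ≤ x) : 0 ≤ hh x := by
  have := hh_tangent (x := 1) (y := x) one_pos hx
  rw [hh_one, Real.log_one] at this
  linarith

variable {Ω : Type} {m0 : MeasurableSpace Ω} {μ : Measure Ω} [IsProbabilityMeasure μ]
  {ℱ : Filtration ℕ m0} {A : ℕ → Set Ω}

/-- one window, upper bound, conditional form -/
theorem win_upper_cond (hA : ∀ n, MeasurableSet[ℱ n] (A n)) {s : ℝ} (hs : s = 1 ∨ s = -1) {T H : ℕ} {p η lam : ℝ}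
    (hp : 0 < p) (hη : 0 < η) (hη1 : η ≤ 1) (hlam : 0 < lam) {C : Set Ω} (hC : MeasurableSet[ℱ T] C) :
    μ.real (C ∩ {ω | ω ∈ GW μ ℱ A ((1 - η) * p) ((1 + η) * p) T H ∧ H * p * GG s lam ≤ SW μ ℱ A (fun _ => s) T H ω}) ≤
      Real.exp (-(H * p * (II s lam - η * rho s lam))) * μ.real C := by
  have ss : s ^ 2 = 1 := by rcases hs with rfl | rfl <;> norm_num
  set l : ℝ := (1 - η) * p with hl
  set u : ℝ := (1 + η) * p with hu
  set β : ℝ := u * rho s lam / lam ^ 2 with hβ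
  have hσ : ∀ i : ℕ, |(fun _ : ℕ => s) i| ≤ 1 := fun _ => abs_const hs
  have hC0 : MeasurableSet C := ℱ.le _ _ hC
  set G : ℕ → Set Ω := GW μ ℱ A l u T with hG
  have hG0 : ∀ j, MeasurableSet (G j) := fun j => ℱ.le _ _ (GW_meas' l u T j)
  set E : ℕ → Ω → ℝ := EW μ ℱ A (fun _ => s) T H lam β with hE
  have hEi : ∀ j, Integrable (E j) μ := fun j => EW_int hA hσ T H lam β j
  have hE0 : ∀ j ω, 0 ≤ E j ω := fun j ω => (Real.exp_pos _).le
  have step : ∀ j, j < H → ∫ ω in C ∩ G (j + 1), E (j + 1) ω ∂μ ≤ ∫ ω in C ∩ G j, E j ω ∂μ := by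
    intro j hj
    have h1 : ∫ ω in C ∩ G (j + 1), E (j + 1) ω ∂μ ≤ ∫ ω in C ∩ G (j + 1), E j ω ∂μ := by
      refine EW_up (μ := μ) (H := H) hA hσ hj (l := l) (u := u) (fun D hD1 hD2 => ?_)
        ((ℱ.mono (by omega) _ hC).inter (GW_meas l u T j)) inter_subset_right
      have hD0 : 0 ≤ D := le_trans (mul_nonneg (by linarith) hp.le) hD1
      refine (KKup hD0 hD2).trans (le_of_eq ?_)
      congr 1
      rw [mul_pow, ss, hβ]
      unfold rho
      rw [mul_comm lam s]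
      field_simp
    refine h1.trans ?_
    exact setIntegral_mono_set (hEi j).integrableOn (Eventually.of_forall (hE0 j))
      (LE.le.eventuallyLE (inter_subset_inter_right _ (GW_anti l u T j)))
  have hmon : ∀ j, j ≤ H → ∫ ω in C ∩ G j, E j ω ∂μ ≤ ∫ ω in C ∩ G 0, E 0 ω ∂μ := by
    intro j
    induction j with
    | zero => exact fun _ => le_rfl
    | succ j ih => exact fun hj => (step j (by omega)).trans (ih (by omega))
  have hfin := hmon H le_rfl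
  have hG00 : G 0 = univ := by ext ω; simp [hG, GW]
  have hρ := rho_nonneg s lam
  have e0 : ∫ ω in C ∩ G 0, E 0 ω ∂μ = Real.exp (u * rho s lam * H) * μ.real C := by
    rw [hG00, inter_univ]
    have : ∀ ω, E 0 ω = Real.exp (u * rho s lam * H) := by
      intro ω
      simp only [hE, EW, SW, RW_const hs, Finset.range_zero, Finset.sum_empty, mul_zero, zero_add, hβ]
      congr 1
      field_simp
    simp only [this]
    rw [setIntegral_const, smul_eq_mul, mul_comm]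
  set B : Set Ω := {ω | ω ∈ G H ∧ H * p * GG s lam ≤ SW μ ℱ A (fun _ => s) T H ω} with hB
  have hBm : MeasurableSet B := (hG0 H).inter (measurableSet_le measurable_const ((SW_meas hA _ T H).mono (ℱ.le _)).measurable)
  have e1 : Real.exp (lam * (H * p * GG s lam)) * μ.real (C ∩ B) ≤ ∫ ω in C ∩ G H, E H ω ∂μ := by
    have h1 : ∫ ω in C ∩ B, Real.exp (lam * (H * p * GG s lam)) ∂μ ≤ ∫ ω in C ∩ B, E H ω ∂μ := by
      refine setIntegral_mono_on (integrable_const _).integrableOn (hEi H).integrableOn (hC0.inter hBm) ?_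
      rintro ω ⟨_, hω⟩
      simp only [hE, EW, RW_self, mul_zero, add_zero]
      exact Real.exp_le_exp.2 (mul_le_mul_of_nonneg_left hω.2 hlam.le)
    rw [setIntegral_const, smul_eq_mul, mul_comm] at h1
    refine h1.trans ?_
    refine setIntegral_mono_set (hEi H).integrableOn (Eventually.of_forall (hE0 H))
      (LE.le.eventuallyLE ?_)
    rintro ω ⟨h2, h3⟩
    exact ⟨h2, h3.1⟩
  have e2 : Real.exp (lam * (H * p * GG s lam)) * μ.real (C ∩ B) ≤ Real.exp (u * rho s lam * H) * μ.real C :=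
    e1.trans (hfin.trans e0.le)
  have e3 : Real.exp (-(H * p * (II s lam - η * rho s lam))) =
      Real.exp (-(lam * (H * p * GG s lam))) * Real.exp (u * rho s lam * H) := by
    rw [← Real.exp_add]
    congr 1
    unfold II
    rw [hu]
    ring
  have e4 := mul_le_mul_of_nonneg_left e2 (Real.exp_pos (-(lam * (H * p * GG s lam)))).le
  rw [← mul_assoc, ← Real.exp_add, neg_add_cancel, Real.exp_zero, one_mul, ← mul_assoc, ← e3] at e4
  exact e4

/-- **joint lower bound** -/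
theorem joint_lower (hA : ∀ n, MeasurableSet[ℱ n] (A n)) {T₁ H₁ T₂ H₂ : ℕ → ℕ} {p : ℕ → ℝ} {c : ℝ}
    (hc : 0 < c) (hp : ∀ᶠ k in atTop, 0 < p k) (hp0 : Tendsto p atTop (𝓝 0))
    (hHp₁ : Tendsto (fun k : ℕ => H₁ k * p k / Real.log k) atTop (𝓝 c))
    (hHp₂ : Tendsto (fun k : ℕ => H₂ k * p k / Real.log k) atTop (𝓝 c))
    (h12 : ∀ k, T₁ k + H₁ k ≤ T₂ k) (h21 : ∀ k, T₂ k + H₂ k ≤ T₁ (k + 1))
    (hg₁ : ∀ᵐ ω ∂μ, GoodWin μ ℱ A T₁ H₁ p ω) (hg₂ : ∀ᵐ ω ∂μ, GoodWin μ ℱ A T₂ H₂ p ω)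
    {x y : ℝ} (hx : 0 < x) (hx1 : x ≠ 1) (hy : 0 < y) (hy1 : y ≠ 1) (hI : c * (hh x + hh y) < 1) :
    ∀ᵐ ω ∂μ, ∀ ε : ℝ, 0 < ε → ∀ K : ℕ, ∃ k, K ≤ k ∧
      |cnt A (T₁ k) (H₁ k) ω / Real.log k - c * x| < ε ∧ |cnt A (T₂ k) (H₂ k) ω / Real.log k - c * y| < ε := by
  have hmono : Monotone T₁ := monotone_nat_of_le_succ fun k => by have := h12 k; have := h21 k; omega
  have hΛl : Tendsto (fun k : ℕ => Real.log (k : ℝ)) atTop atTop := Real.tendsto_log_atTop.comp tendsto_natCast_atTop_atTop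
  obtain ⟨s₁, lam₁, hs₁, hl₁, hI₁, hG₁, -⟩ := exists_s hx hx1
  obtain ⟨s₂, lam₂, hs₂, hl₂, hI₂, hG₂, -⟩ := exists_s hy hy1
  have main : ∀ ε : ℝ, 0 < ε → ∀ᵐ ω ∂μ, ∀ K : ℕ, ∃ k, K ≤ k ∧
      |SW μ ℱ A (fun _ => s₁) (T₁ k) (H₁ k) ω / Real.log k - c * GG s₁ lam₁| < ε ∧
      |SW μ ℱ A (fun _ => s₂) (T₂ k) (H₂ k) ω / Real.log k - c * GG s₂ lam₂| < ε := by
    intro ε hε
    set ε' : ℝ := min ε ((1 - c * (hh x + hh y)) / 4) with hε'
    have hε'0 : 0 < ε' := lt_min hε (by linarith)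
    have hε'1 : ε' ≤ ε := min_le_left _ _
    have hε'2 : ε' ≤ (1 - c * (hh x + hh y)) / 4 := min_le_right _ _
    obtain ⟨θ₁, η₁, δ₁, a1, a2, a3, a4, a5, a6, a7, a8, a9, a10⟩ := params' hs₁ hl₁ hc hε'0
    obtain ⟨θ₂, η₂, δ₂, b1, b2, b3, b4, b5, b6, b7, b8, b9, b10⟩ := params' hs₂ hl₂ hc hε'0
    rw [hI₁] at a8
    rw [hI₂] at b8
    set X₁ : ℝ := lam₁ * GG s₁ (lam₁ + 2 * θ₁) - (1 - η₁) ^ 2 * rho s₁ lam₁ with hX₁
    set X₂ : ℝ := lam₂ * GG s₂ (lam₂ + 2 * θ₂) - (1 - η₂) ^ 2 * rho s₂ lam₂ with hX₂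
    have hXX : c * X₁ + c * X₂ < 1 := by nlinarith
    set D₁ : ℕ → Set Ω := fun k => {ω | H₁ k * p k * GG s₁ (lam₁ - 2 * θ₁) ≤ SW μ ℱ A (fun _ => s₁) (T₁ k) (H₁ k) ω ∧
        SW μ ℱ A (fun _ => s₁) (T₁ k) (H₁ k) ω ≤ H₁ k * p k * GG s₁ (lam₁ + 2 * θ₁)} ∪
        (GW μ ℱ A ((1 - η₁) * p k) ((1 + η₁) * p k) (T₁ k) (H₁ k))ᶜ with hD₁
    set D₂ : ℕ → Set Ω := fun k => {ω | H₂ k * p k * GG s₂ (lam₂ - 2 * θ₂) ≤ SW μ ℱ A (fun _ => s₂) (T₂ k) (H₂ k) ω ∧
        SW μ ℱ A (fun _ => s₂) (T₂ k) (H₂ k) ω ≤ H₂ k * p k * GG s₂ (lam₂ + 2 * θ₂)} ∪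
        (GW μ ℱ A ((1 - η₂) * p k) ((1 + η₂) * p k) (T₂ k) (H₂ k))ᶜ with hD₂
    have hDm₁ : ∀ k, MeasurableSet[ℱ (T₁ k + H₁ k)] (D₁ k) := by
      intro k
      have hS := (SW_meas (μ := μ) hA (fun _ => s₁) (T₁ k) (H₁ k)).measurable
      exact ((measurableSet_le (@measurable_const _ _ _ (ℱ (T₁ k + H₁ k)) _) hS).inter
        (measurableSet_le hS (@measurable_const _ _ _ (ℱ (T₁ k + H₁ k)) _))).union (GW_meas' _ _ _ _).compl
    have hDm₂ : ∀ k, MeasurableSet[ℱ (T₂ k + H₂ k)] (D₂ k) := by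
      intro k
      have hS := (SW_meas (μ := μ) hA (fun _ => s₂) (T₂ k) (H₂ k)).measurable
      exact ((measurableSet_le (@measurable_const _ _ _ (ℱ (T₂ k + H₂ k)) _) hS).inter
        (measurableSet_le hS (@measurable_const _ _ _ (ℱ (T₂ k + H₂ k)) _))).union (GW_meas' _ _ _ _).compl
    have hDm : ∀ k, MeasurableSet[ℱ (T₁ (k + 1))] (D₁ k ∩ D₂ k) := fun k =>
      (ℱ.mono ((h12 k).trans ((Nat.le_add_right _ _).trans (h21 k))) _ (hDm₁ k)).inter (ℱ.mono (h21 k) _ (hDm₂ k))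
    have hpk : ∃ k₀, ∀ k, k₀ ≤ k → ∀ C, MeasurableSet[ℱ (T₁ k)] C →
        (1 / 4 * (1 / ((k : ℝ) + 1))) * μ.real C ≤ μ.real (C ∩ (D₁ k ∩ D₂ k)) := by
      apply eventually_atTop.1
      have s1 : ∀ z w : ℝ, Tendsto (fun k : ℕ => (1 + z) * p k * w) atTop (𝓝 0) := by
        intro z w
        have := (hp0.const_mul (1 + z)).mul_const w
        simpa using this
      have s2 : ∀ z w : ℝ, Tendsto (fun k : ℕ => 2 * ((1 + z) * p k) * w) atTop (𝓝 0) := by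
        intro z w
        have := ((hp0.const_mul (1 + z)).const_mul 2).mul_const w
        simpa using this
      have s3 : Tendsto (fun k : ℕ => H₁ k * p k / Real.log k * X₁ + H₂ k * p k / Real.log k * X₂) atTop (𝓝 (c * X₁ + c * X₂)) :=
        (hHp₁.mul_const X₁).add (hHp₂.mul_const X₂)
      have s4 : Tendsto (fun k : ℕ => (H₁ k * p k / Real.log k) * (Real.log k)) atTop atTop := hHp₁.pos_mul_atTop hc hΛl
      have s5 : Tendsto (fun k : ℕ => (H₂ k * p k / Real.log k) * (Real.log k)) atTop atTop := hHp₂.pos_mul_atTop hc hΛl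
      have hρ₁ := rho_pos hs₁ hl₁
      have hρ₂ := rho_pos hs₂ hl₂
      filter_upwards [hp, (s1 η₁ |Real.exp (s₁ * lam₁) - 1|).eventually_le_const (show (0 : ℝ) < 1 / 2 by norm_num),
        (s2 η₁ ((Real.exp (s₁ * lam₁) - 1) ^ 2)).eventually_le_const (show 0 < η₁ * rho s₁ lam₁ by positivity),
        (s1 η₂ |Real.exp (s₂ * lam₂) - 1|).eventually_le_const (show (0 : ℝ) < 1 / 2 by norm_num),
        (s2 η₂ ((Real.exp (s₂ * lam₂) - 1) ^ 2)).eventually_le_const (show 0 < η₂ * rho s₂ lam₂ by positivity),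
        s3.eventually_lt_const hXX, s4.eventually_ge_atTop (2 / δ₁), s5.eventually_ge_atTop (2 / δ₂),
        hΛl.eventually_gt_atTop 0, eventually_ge_atTop 2] with k q1 q2 q3 q2' q3' q4 q5 q5' q6 q7 C hC
      have hk0 : (0 : ℝ) < k := by exact_mod_cast (by omega : 0 < k)
      rw [div_mul_cancel₀ _ q6.ne', div_le_iff₀ a5] at q5
      rw [div_mul_cancel₀ _ q6.ne', div_le_iff₀ b5] at q5'
      have hw₁ := win_lower (μ := μ) (T := T₁ k) (H := H₁ k) hA hs₁ q1 a3 a4.le a1 a2 q2 q3 a6 a7 q5 hC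
      have hC1 : MeasurableSet[ℱ (T₂ k)] (C ∩ D₁ k) :=
        (ℱ.mono ((Nat.le_add_right _ _).trans (h12 k)) _ hC).inter (ℱ.mono (h12 k) _ (hDm₁ k))
      have hw₂ := win_lower (μ := μ) (T := T₂ k) (H := H₂ k) hA hs₂ q1 b3 b4.le b1 b2 q2' q3' b6 b7 q5' hC1
      have e0 : C ∩ (D₁ k ∩ D₂ k) = C ∩ D₁ k ∩ D₂ k := (inter_assoc _ _ _).symm
      rw [e0]
      refine le_trans ?_ hw₂
      have hpos : (0 : ℝ) ≤ 1 / 2 * Real.exp (-(H₂ k * p k * (lam₂ * GG s₂ (lam₂ + 2 * θ₂) - (1 - η₂) ^ 2 * rho s₂ lam₂))) := by positivity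
      refine le_trans ?_ (mul_le_mul_of_nonneg_left hw₁ hpos)
      rw [← mul_assoc]
      refine mul_le_mul_of_nonneg_right ?_ measureReal_nonneg
      have e1 : H₁ k * p k * X₁ + H₂ k * p k * X₂ < Real.log k := by
        have : H₁ k * p k / Real.log k * X₁ + H₂ k * p k / Real.log k * X₂ =
          (H₁ k * p k * X₁ + H₂ k * p k * X₂) / Real.log k := by ring
        rw [this, div_lt_one q6] at q4
        exact q4
      have e2 : Real.exp (-Real.log k) ≤ Real.exp (-(H₁ k * p k * X₁ + H₂ k * p k * X₂)) := Real.exp_le_exp.2 (by linarith)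
      rw [Real.exp_neg, Real.exp_log hk0] at e2
      have e3 : 1 / 2 * Real.exp (-(H₂ k * p k * X₂)) * (1 / 2 * Real.exp (-(H₁ k * p k * X₁))) =
          1 / 4 * Real.exp (-(H₁ k * p k * X₁ + H₂ k * p k * X₂)) := by
        have : Real.exp (-(H₁ k * p k * X₁ + H₂ k * p k * X₂)) = Real.exp (-(H₂ k * p k * X₂)) * Real.exp (-(H₁ k * p k * X₁)) := by
          rw [← Real.exp_add]; congr 1; ring
        rw [this]; ring
      rw [e3]
      apply mul_le_mul_of_nonneg_left _ (by norm_num)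
      refine le_trans ?_ e2
      rw [← one_div]
      exact one_div_le_one_div_of_le hk0 (by linarith)
    obtain ⟨k₀, hk₀⟩ := hpk
    have hsum : Tendsto (fun n => ∑ k ∈ Finset.range n, (1 / 4 * (1 / ((k : ℝ) + 1)))) atTop atTop := by
      have h1 := Real.tendsto_sum_range_one_div_nat_succ_atTop.const_mul_atTop (show (0 : ℝ) < 1 / 4 by norm_num)
      refine h1.congr fun n => ?_
      rw [Finset.mul_sum]
    have h1 := trials_io (μ := μ) (ℱ := ℱ) hmono hDm hk₀ hsum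
    have t1 : Tendsto (fun k : ℕ => H₁ k * p k / Real.log k * GG s₁ (lam₁ + 2 * θ₁)) atTop (𝓝 (c * GG s₁ (lam₁ + 2 * θ₁))) :=
      hHp₁.mul_const _
    have t2 : Tendsto (fun k : ℕ => H₁ k * p k / Real.log k * GG s₁ (lam₁ - 2 * θ₁)) atTop (𝓝 (c * GG s₁ (lam₁ - 2 * θ₁))) :=
      hHp₁.mul_const _
    have t3 : Tendsto (fun k : ℕ => H₂ k * p k / Real.log k * GG s₂ (lam₂ + 2 * θ₂)) atTop (𝓝 (c * GG s₂ (lam₂ + 2 * θ₂))) :=
      hHp₂.mul_const _
    have t4 : Tendsto (fun k : ℕ => H₂ k * p k / Real.log k * GG s₂ (lam₂ - 2 * θ₂)) atTop (𝓝 (c * GG s₂ (lam₂ - 2 * θ₂))) :=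
      hHp₂.mul_const _
    filter_upwards [h1, hg₁, hg₂] with ω h2 h3 h3' K
    obtain ⟨K', hK'⟩ := eventually_atTop.1 ((h3 η₁ a3 a4.le).and ((h3' η₂ b3 b4.le).and
      ((t1.eventually_lt_const a9).and ((t2.eventually_const_lt a10).and ((t3.eventually_lt_const b9).and
      ((t4.eventually_const_lt b10).and (hΛl.eventually_gt_atTop 0)))))))
    obtain ⟨k, hk, hk2⟩ := h2 (max K K')
    obtain ⟨g1, g2, g3, g4, g5, g6, g7⟩ := hK' k ((le_max_right _ _).trans hk)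
    refine ⟨k, (le_max_left _ _).trans hk, ?_, ?_⟩
    · rcases hk2.1 with h5 | h5
      · have f1 : H₁ k * p k / Real.log k * GG s₁ (lam₁ - 2 * θ₁) ≤ SW μ ℱ A (fun _ => s₁) (T₁ k) (H₁ k) ω / Real.log k := by
          rw [le_div_iff₀ g7]
          have : H₁ k * p k / Real.log k * GG s₁ (lam₁ - 2 * θ₁) * Real.log k = H₁ k * p k * GG s₁ (lam₁ - 2 * θ₁) := by
            field_simp
          rw [this]
          exact h5.1
        have f2 : SW μ ℱ A (fun _ => s₁) (T₁ k) (H₁ k) ω / Real.log k ≤ H₁ k * p k / Real.log k * GG s₁ (lam₁ + 2 * θ₁) := by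
          rw [div_le_iff₀ g7]
          have : H₁ k * p k / Real.log k * GG s₁ (lam₁ + 2 * θ₁) * Real.log k = H₁ k * p k * GG s₁ (lam₁ + 2 * θ₁) := by
            field_simp
          rw [this]
          exact h5.2
        rw [abs_lt]
        constructor <;> linarith
      · exact absurd g1 h5
    · rcases hk2.2 with h5 | h5
      · have f1 : H₂ k * p k / Real.log k * GG s₂ (lam₂ - 2 * θ₂) ≤ SW μ ℱ A (fun _ => s₂) (T₂ k) (H₂ k) ω / Real.log k := by
          rw [le_div_iff₀ g7]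
          have : H₂ k * p k / Real.log k * GG s₂ (lam₂ - 2 * θ₂) * Real.log k = H₂ k * p k * GG s₂ (lam₂ - 2 * θ₂) := by
            field_simp
          rw [this]
          exact h5.1
        have f2 : SW μ ℱ A (fun _ => s₂) (T₂ k) (H₂ k) ω / Real.log k ≤ H₂ k * p k / Real.log k * GG s₂ (lam₂ + 2 * θ₂) := by
          rw [div_le_iff₀ g7]
          have : H₂ k * p k / Real.log k * GG s₂ (lam₂ + 2 * θ₂) * Real.log k = H₂ k * p k * GG s₂ (lam₂ + 2 * θ₂) := by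
            field_simp
          rw [this]
          exact h5.2
        rw [abs_lt]
        constructor <;> linarith
      · exact absurd g2 h5
  have hall : ∀ᵐ ω ∂μ, ∀ m : ℕ, ∀ K : ℕ, ∃ k, K ≤ k ∧
      |SW μ ℱ A (fun _ => s₁) (T₁ k) (H₁ k) ω / Real.log k - c * GG s₁ lam₁| < 1 / ((m : ℝ) + 1) ∧
      |SW μ ℱ A (fun _ => s₂) (T₂ k) (H₂ k) ω / Real.log k - c * GG s₂ lam₂| < 1 / ((m : ℝ) + 1) := by
    rw [ae_all_iff]
    intro m
    exact main _ (by positivity)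
  have abs_s : ∀ {s z : ℝ}, (s = 1 ∨ s = -1) → |s * z| = |z| := by
    intro s z hs
    rw [abs_mul]
    rcases hs with rfl | rfl <;> simp
  filter_upwards [hall, hg₁, hg₂] with ω hω w1 w2 ε hε K
  obtain ⟨m, hm⟩ := exists_nat_one_div_lt (show 0 < ε / 2 by positivity)
  have v1 := Metric.tendsto_nhds.1 (cmp_lim hHp₁ w1) (ε / 2) (by positivity)
  have v2 := Metric.tendsto_nhds.1 (cmp_lim hHp₂ w2) (ε / 2) (by positivity)
  obtain ⟨K', hK'⟩ := eventually_atTop.1 (v1.and v2)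
  obtain ⟨k, hk, hk2, hk3⟩ := hω m (max K K')
  obtain ⟨k4, k5⟩ := hK' k ((le_max_right _ _).trans hk)
  rw [Real.dist_eq] at k4 k5
  refine ⟨k, (le_max_left _ _).trans hk, ?_, ?_⟩
  · rw [hG₁, SW_const] at hk2
    have e : s₁ * (cnt A (T₁ k) (H₁ k) ω - cmp μ ℱ A (T₁ k) (H₁ k) ω) / Real.log k - c * (s₁ * (x - 1)) =
        s₁ * ((cnt A (T₁ k) (H₁ k) ω - cmp μ ℱ A (T₁ k) (H₁ k) ω) / Real.log k - c * (x - 1)) := by ring
    rw [e, abs_s hs₁] at hk2
    have e2 : cnt A (T₁ k) (H₁ k) ω / Real.log k - c * x =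
        ((cnt A (T₁ k) (H₁ k) ω - cmp μ ℱ A (T₁ k) (H₁ k) ω) / Real.log k - c * (x - 1)) +
        (cmp μ ℱ A (T₁ k) (H₁ k) ω / Real.log k - c) := by ring
    rw [e2]
    refine (abs_add_le _ _).trans_lt ?_
    linarith
  · rw [hG₂, SW_const] at hk3
    have e : s₂ * (cnt A (T₂ k) (H₂ k) ω - cmp μ ℱ A (T₂ k) (H₂ k) ω) / Real.log k - c * (s₂ * (y - 1)) =
        s₂ * ((cnt A (T₂ k) (H₂ k) ω - cmp μ ℱ A (T₂ k) (H₂ k) ω) / Real.log k - c * (y - 1)) := by ring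
    rw [e, abs_s hs₂] at hk3
    have e2 : cnt A (T₂ k) (H₂ k) ω / Real.log k - c * y =
        ((cnt A (T₂ k) (H₂ k) ω - cmp μ ℱ A (T₂ k) (H₂ k) ω) / Real.log k - c * (y - 1)) +
        (cmp μ ℱ A (T₂ k) (H₂ k) ω / Real.log k - c) := by ring
    rw [e2]
    refine (abs_add_le _ _).trans_lt ?_
    linarith

end Pool.Agent.N417.LD
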