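import Mathlib
import Pool.Agent.N417.LD.E

/-!
# Large deviations: the joint law of two windows
-/

set_option autoImplicit false
set_option linter.unusedSectionVars false

open MeasureTheory Filter Set
open scoped ENNReal Topology

namespace Pool.Agent.N417.LD

open Pool.Agent.R528.RM Pool.Agent.N740.HK

open Classical in
/-- the side of `1` on which `x` lies -/
noncomputable def sg (x : ℝ) : ℝ := if x < 1 then -1 else 1

lemma sg_or (x : ℝ) : sg x = 1 ∨ sg x = -1 := by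
  unfold sg
  split_ifs
  · exact Or.inr rfl
  · exact Or.inl rfl

lemma sg_sq (x : ℝ) : sg x * sg x = 1 := by
  rcases sg_or x with h | h <;> rw [h] <;> norm_num

lemma exists_lam {x : ℝ} (hx : 0 < x) (hx1 : x ≠ 1) :
    ∃ lam : ℝ, 0 < lam ∧ II (sg x) lam = hh x ∧ GG (sg x) lam = sg x * (x - 1) := by
  unfold sg
  rcases lt_or_gt_of_ne hx1 with h | h
  · refine ⟨-Real.log x, ?_, ?_, ?_⟩
    · have := Real.log_neg hx h
      linarith
    · rw [if_pos h]; exact II_neg hx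
    · rw [if_pos h, GG_neg hx]; ring
  · refine ⟨Real.log x, Real.log_pos h, ?_, ?_⟩
    · rw [if_neg (not_lt.2 h.le)]; exact II_one hx
    · rw [if_neg (not_lt.2 h.le), GG_one hx]; ring

/-- convexity of `hh` towards `1` -/
lemma hh_toward {x t : ℝ} (hx : 0 ≤ x) (ht : 0 < t) (ht1 : t ≤ 1) : hh (x + t * (1 - x)) ≤ (1 - t) * hh x := by
  have h0 : 0 < x + t * (1 - x) := by nlinarith
  have h1 := hh_tangent h0 hx
  have h2 := hh_tangent h0 (zero_le_one)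
  rw [hh_one] at h2
  set z : ℝ := x + t * (1 - x) with hz
  have e1 : x - z = -(t * (1 - x)) := by rw [hz]; ring
  have e2 : 1 - z = (1 - t) * (1 - x) := by rw [hz]; ring
  rw [e1] at h1
  rw [e2] at h2
  have h3 := mul_le_mul_of_nonneg_left h1 (show 0 ≤ 1 - t by linarith)
  have h4 := mul_le_mul_of_nonneg_left h2 ht.le
  nlinarith

lemma rat_near {x δ : ℝ} (hx : 0 < x) (hδ : 0 < δ) : ∃ q : ℚ, (0 : ℝ) < q ∧ (q : ℝ) ≠ 1 ∧ |(q : ℝ) - x| < δ := by
  rcases lt_or_ge x 1 with h | h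
  · obtain ⟨q, h1, h2⟩ := exists_rat_btwn (show x < min 1 (x + δ) from lt_min h (by linarith))
    obtain ⟨h3, h4⟩ := lt_min_iff.1 h2
    exact ⟨q, by linarith, h3.ne, by rw [abs_of_pos (by linarith)]; linarith⟩
  · obtain ⟨q, h1, h2⟩ := exists_rat_btwn (show x < x + δ by linarith)
    exact ⟨q, by linarith, by linarith [h1] |> ne_of_gt, by rw [abs_of_pos (by linarith)]; linarith⟩

/-- a rational point on the inner side of `u` -/
lemma rat_inner {u δ : ℝ} (hu : 0 ≤ u) (hu1 : u ≠ 1) (hδ : 0 < δ) : ∃ q : ℚ, (0 : ℝ) < q ∧ (q : ℝ) ≠ 1 ∧ |(q : ℝ) - u| < δ ∧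
    0 < sg q * (u - q) := by
  rcases lt_or_gt_of_ne hu1 with h | h
  · obtain ⟨q, h1, h2⟩ := exists_rat_btwn (show u < min 1 (u + δ) from lt_min h (by linarith))
    obtain ⟨h3, h4⟩ := lt_min_iff.1 h2
    refine ⟨q, by linarith, h3.ne, by rw [abs_of_pos (by linarith)]; linarith, ?_⟩
    unfold sg
    rw [if_pos h3]
    linarith
  · obtain ⟨q, h1, h2⟩ := exists_rat_btwn (show max 1 (u - δ) < u from max_lt h (by linarith))
    obtain ⟨h3, h4⟩ := max_lt_iff.1 h1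
    refine ⟨q, by linarith, h3.ne', by rw [abs_of_neg (by linarith)]; linarith, ?_⟩
    unfold sg
    rw [if_neg (not_lt.2 h3.le)]
    linarith

variable {Ω : Type} {m0 : MeasurableSpace Ω} {μ : Measure Ω} [IsProbabilityMeasure μ]
  {ℱ : Filtration ℕ m0} {A : ℕ → Set Ω}

lemma conv_up {T H : ℕ → ℕ} {p : ℕ → ℝ} {c x lam s : ℝ} (hs : s = 1 ∨ s = -1) (hG : GG s lam = s * (x - 1))
    (hHp : Tendsto (fun k : ℕ => H k * p k / Real.log k) atTop (𝓝 c)) {ω : Ω} (hg : GoodWin μ ℱ A T H p ω) {ε : ℝ} (hε : 0 < ε) :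
    ∀ᶠ k : ℕ in atTop, ε ≤ s * (cnt A (T k) (H k) ω / Real.log k - c * x) →
      H k * p k * GG s lam ≤ SW μ ℱ A (fun _ => s) (T k) (H k) ω := by
  have hΛl : Tendsto (fun k : ℕ => Real.log (k : ℝ)) atTop atTop := Real.tendsto_log_atTop.comp tendsto_natCast_atTop_atTop
  have g3 := Metric.tendsto_nhds.1 (cmp_lim hHp hg) (ε / 2) (by positivity)
  have g4 : Tendsto (fun k : ℕ => H k * p k / Real.log k * GG s lam) atTop (𝓝 (c * GG s lam)) := hHp.mul_const _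
  filter_upwards [g3, g4.eventually_lt_const (show c * GG s lam < c * GG s lam + ε / 2 by linarith),
    hΛl.eventually_gt_atTop 0] with k k1 k2 k3 k4
  rw [Real.dist_eq, abs_lt] at k1
  rw [SW_const]
  have e : H k * p k / Real.log k * GG s lam * Real.log k = H k * p k * GG s lam := by field_simp
  rw [← e, ← le_div_iff₀ k3]
  have e2 : s * (cnt A (T k) (H k) ω - cmp μ ℱ A (T k) (H k) ω) / Real.log k =
      s * (cnt A (T k) (H k) ω / Real.log k - c * x) + s * (c * (x - 1)) + s * (c - cmp μ ℱ A (T k) (H k) ω / Real.log k) := by ring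
  rw [e2]
  have e3 : c * GG s lam = s * (c * (x - 1)) := by rw [hG]; ring
  have e4 : -(ε / 2) ≤ s * (c - cmp μ ℱ A (T k) (H k) ω / Real.log k) := by
    rcases hs with h | h <;> rw [h] <;> linarith
  linarith

/-- single window -/
theorem single_upper (hA : ∀ n, MeasurableSet[ℱ n] (A n)) {T H : ℕ → ℕ} {p : ℕ → ℝ} {c : ℝ}
    (hp : ∀ᶠ k in atTop, 0 < p k)
    (hHp : Tendsto (fun k : ℕ => H k * p k / Real.log k) atTop (𝓝 c)) (hH : ∀ᶠ k in atTop, 0 < H k)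
    (hg : ∀ᵐ ω ∂μ, GoodWin μ ℱ A T H p ω) {x : ℝ} (hx : 0 < x) (hx1 : x ≠ 1) (hI : 1 < c * hh x) :
    ∀ᵐ ω ∂μ, ∀ ε : ℝ, 0 < ε → ∀ᶠ k : ℕ in atTop, ¬ (ε ≤ sg x * (cnt A (T k) (H k) ω / Real.log k - c * x)) := by
  obtain ⟨lam, h1, h2, h3⟩ := exists_lam hx hx1
  filter_upwards [hg, seq_ld_upper hA (sg_or x) hp hHp hH hg h1 (by rw [h2]; exact hI)] with ω g1 g2 ε hε
  filter_upwards [g2, conv_up (sg_or x) h3 hHp g1 hε] with k k1 k2 k3
  exact absurd (k2 k3) (not_le.2 k1)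

/-- two windows -/
theorem joint_upper (hA : ∀ n, MeasurableSet[ℱ n] (A n)) {T₁ H₁ T₂ H₂ : ℕ → ℕ} {p : ℕ → ℝ} {c : ℝ}
    (hp : ∀ᶠ k in atTop, 0 < p k)
    (hHp₁ : Tendsto (fun k : ℕ => H₁ k * p k / Real.log k) atTop (𝓝 c))
    (hHp₂ : Tendsto (fun k : ℕ => H₂ k * p k / Real.log k) atTop (𝓝 c))
    (h12 : ∀ k, T₁ k + H₁ k ≤ T₂ k)
    (hg₁ : ∀ᵐ ω ∂μ, GoodWin μ ℱ A T₁ H₁ p ω) (hg₂ : ∀ᵐ ω ∂μ, GoodWin μ ℱ A T₂ H₂ p ω)
    {x y : ℝ} (hx : 0 < x) (hx1 : x ≠ 1) (hy : 0 < y) (hy1 : y ≠ 1) (hI : 1 < c * (hh x + hh y)) :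
    ∀ᵐ ω ∂μ, ∀ ε : ℝ, 0 < ε → ∀ᶠ k : ℕ in atTop,
      ¬ (ε ≤ sg x * (cnt A (T₁ k) (H₁ k) ω / Real.log k - c * x) ∧ ε ≤ sg y * (cnt A (T₂ k) (H₂ k) ω / Real.log k - c * y)) := by
  have hΛl : Tendsto (fun k : ℕ => Real.log (k : ℝ)) atTop atTop := Real.tendsto_log_atTop.comp tendsto_natCast_atTop_atTop
  obtain ⟨lam₁, h1, h2, h3⟩ := exists_lam hx hx1
  obtain ⟨lam₂, h1', h2', h3'⟩ := exists_lam hy hy1
  obtain ⟨η, hη, hη1, hηI⟩ : ∃ η : ℝ, 0 < η ∧ η < 1 ∧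
      1 < c * (II (sg x) lam₁ - η * rho (sg x) lam₁) + c * (II (sg y) lam₂ - η * rho (sg y) lam₂) := by
    have m1 : Tendsto (fun η : ℝ => c * (II (sg x) lam₁ - η * rho (sg x) lam₁) + c * (II (sg y) lam₂ - η * rho (sg y) lam₂)) (𝓝 0)
        (𝓝 (c * II (sg x) lam₁ + c * II (sg y) lam₂)) := by
      have : Continuous (fun η : ℝ => c * (II (sg x) lam₁ - η * rho (sg x) lam₁) + c * (II (sg y) lam₂ - η * rho (sg y) lam₂)) := by fun_prop
      have h := this.tendsto 0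
      simpa using h
    have j1 : ∀ᶠ η : ℝ in 𝓝[>] 0, 0 < η := eventually_mem_nhdsWithin
    have j2 : ∀ᶠ η : ℝ in 𝓝[>] 0, η < 1 := (eventually_lt_nhds (by linarith)).filter_mono nhdsWithin_le_nhds
    have j3 := (m1.eventually_const_lt (show 1 < c * II (sg x) lam₁ + c * II (sg y) lam₂ by rw [h2, h2']; linarith)).filter_mono
      (nhdsWithin_le_nhds (s := Ioi (0 : ℝ)))
    obtain ⟨η, a1, a2, a3⟩ := (j1.and (j2.and j3)).exists
    exact ⟨η, a1, a2, a3⟩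
  obtain ⟨δ, hδ, hδ2⟩ := exists_between hηI
  set E₁ : ℕ → Set Ω := fun k => {ω | ω ∈ GW μ ℱ A ((1 - η) * p k) ((1 + η) * p k) (T₁ k) (H₁ k) ∧
    H₁ k * p k * GG (sg x) lam₁ ≤ SW μ ℱ A (fun _ => sg x) (T₁ k) (H₁ k) ω} with hE₁
  set E₂ : ℕ → Set Ω := fun k => {ω | ω ∈ GW μ ℱ A ((1 - η) * p k) ((1 + η) * p k) (T₂ k) (H₂ k) ∧
    H₂ k * p k * GG (sg y) lam₂ ≤ SW μ ℱ A (fun _ => sg y) (T₂ k) (H₂ k) ω} with hE₂
  have hE₁m : ∀ k, MeasurableSet[ℱ (T₁ k + H₁ k)] (E₁ k) := by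
    intro k
    have hS := (SW_meas (μ := μ) hA (fun _ => sg x) (T₁ k) (H₁ k)).measurable
    exact (GW_meas' (μ := μ) _ _ _ _).inter (measurableSet_le (@measurable_const _ _ _ (ℱ (T₁ k + H₁ k)) _) hS)
  have hbd : ∀ᶠ k : ℕ in atTop, μ.real (E₁ k ∩ E₂ k) ≤ (k : ℝ) ^ (-δ) := by
    have s3 : Tendsto (fun k : ℕ => H₁ k * p k / Real.log k * (II (sg x) lam₁ - η * rho (sg x) lam₁) +
        H₂ k * p k / Real.log k * (II (sg y) lam₂ - η * rho (sg y) lam₂)) atTop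
      (𝓝 (c * (II (sg x) lam₁ - η * rho (sg x) lam₁) + c * (II (sg y) lam₂ - η * rho (sg y) lam₂))) :=
      (hHp₁.mul_const _).add (hHp₂.mul_const _)
    filter_upwards [hp, s3.eventually_const_lt hδ2, hΛl.eventually_gt_atTop 0, eventually_ge_atTop 2] with k q1 q3 q4 q5
    have hk0 : (0 : ℝ) < k := by exact_mod_cast (by omega : 0 < k)
    have w1 := win_upper_cond (μ := μ) (ℱ := ℱ) (A := A) (T := T₁ k) (H := H₁ k) hA (sg_or x) q1 hη hη1.le h1
      (MeasurableSet.univ (α := Ω) (m := ℱ (T₁ k)))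
    have w2 := win_upper_cond (μ := μ) (ℱ := ℱ) (A := A) (T := T₂ k) (H := H₂ k) hA (sg_or y) q1 hη hη1.le h1'
      (ℱ.mono (h12 k) _ (hE₁m k))
    rw [univ_inter, probReal_univ, mul_one] at w1
    refine w2.trans ((mul_le_mul_of_nonneg_left w1 (Real.exp_pos _).le).trans ?_)
    rw [← Real.exp_add, Real.rpow_def_of_pos hk0]
    apply Real.exp_le_exp.2
    have e1 : H₁ k * p k / Real.log k * (II (sg x) lam₁ - η * rho (sg x) lam₁) +
        H₂ k * p k / Real.log k * (II (sg y) lam₂ - η * rho (sg y) lam₂) =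
        (H₁ k * p k * (II (sg x) lam₁ - η * rho (sg x) lam₁) + H₂ k * p k * (II (sg y) lam₂ - η * rho (sg y) lam₂)) / Real.log k := by ring
    rw [e1, lt_div_iff₀ q4] at q3
    linarith
  have hsum : ∑' k : ℕ, μ (E₁ k ∩ E₂ k) ≠ ∞ := by
    have h1 : Summable (fun k : ℕ => (k : ℝ) ^ (-δ)) := Real.summable_nat_rpow.2 (by linarith)
    have h2 : Summable (fun k : ℕ => μ.real (E₁ k ∩ E₂ k)) := by
      refine Summable.of_norm_bounded_eventually_nat h1 ?_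
      filter_upwards [hbd] with k hk
      rw [Real.norm_of_nonneg measureReal_nonneg]
      exact hk
    have h3 : ∑' n : ℕ, μ (E₁ n ∩ E₂ n) = ENNReal.ofReal (∑' n : ℕ, μ.real (E₁ n ∩ E₂ n)) := by
      rw [ENNReal.ofReal_tsum_of_nonneg (fun _ => measureReal_nonneg) h2]
      congr 1
      funext i
      exact (ofReal_measureReal (measure_ne_top _ _)).symm
    rw [h3]
    exact ENNReal.ofReal_ne_top
  filter_upwards [ae_eventually_notMem hsum, hg₁, hg₂] with ω h4 h5 h6 ε hε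
  filter_upwards [h4, h5 η hη hη1.le, h6 η hη hη1.le, conv_up (sg_or x) h3 hHp₁ h5 hε, conv_up (sg_or y) h3' hHp₂ h6 hε] with
    k k1 k2 k3 k4 k5 k6
  exact k1 ⟨⟨k2, k4 k6.1⟩, ⟨k3, k5 k6.2⟩⟩

/-- **the joint law** -/
theorem joint_law (hA : ∀ n, MeasurableSet[ℱ n] (A n)) {T₁ H₁ T₂ H₂ : ℕ → ℕ} {p : ℕ → ℝ} {c : ℝ}
    (hc : 0 < c) (hp : ∀ᶠ k in atTop, 0 < p k) (hp0 : Tendsto p atTop (𝓝 0))
    (hHp₁ : Tendsto (fun k : ℕ => H₁ k * p k / Real.log k) atTop (𝓝 c)) (hH₁ : ∀ᶠ k in atTop, 0 < H₁ k)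
    (hHp₂ : Tendsto (fun k : ℕ => H₂ k * p k / Real.log k) atTop (𝓝 c)) (hH₂ : ∀ᶠ k in atTop, 0 < H₂ k)
    (h12 : ∀ k, T₁ k + H₁ k ≤ T₂ k) (h21 : ∀ k, T₂ k + H₂ k ≤ T₁ (k + 1))
    (hg₁ : ∀ᵐ ω ∂μ, GoodWin μ ℱ A T₁ H₁ p ω) (hg₂ : ∀ᵐ ω ∂μ, GoodWin μ ℱ A T₂ H₂ p ω) :
    ∀ᵐ ω ∂μ, (∀ x y : ℝ, 0 ≤ x → 0 ≤ y → c * (hh x + hh y) ≤ 1 → ∀ ε : ℝ, 0 < ε → ∀ K : ℕ, ∃ k, K ≤ k ∧
        |cnt A (T₁ k) (H₁ k) ω / Real.log k - c * x| < ε ∧ |cnt A (T₂ k) (H₂ k) ω / Real.log k - c * y| < ε) ∧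
      ∀ ε : ℝ, 0 < ε → ∀ᶠ k : ℕ in atTop, ∃ x y : ℝ, 0 ≤ x ∧ 0 ≤ y ∧ c * (hh x + hh y) ≤ 1 ∧
        |cnt A (T₁ k) (H₁ k) ω / Real.log k - c * x| < ε ∧ |cnt A (T₂ k) (H₂ k) ω / Real.log k - c * y| < ε := by
  have h11 : ∀ k, T₁ k + H₁ k ≤ T₁ (k + 1) := fun k => by have := h12 k; have := h21 k; omega
  have h22 : ∀ k, T₂ k + H₂ k ≤ T₂ (k + 1) := fun k => by have := h12 (k + 1); have := h21 k; omega
  have low : ∀ᵐ ω ∂μ, ∀ q r : ℚ, (0 : ℝ) < q → (q : ℝ) ≠ 1 → (0 : ℝ) < r → (r : ℝ) ≠ 1 → c * (hh q + hh r) < 1 →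
      ∀ ε : ℝ, 0 < ε → ∀ K : ℕ, ∃ k, K ≤ k ∧
      |cnt A (T₁ k) (H₁ k) ω / Real.log k - c * q| < ε ∧ |cnt A (T₂ k) (H₂ k) ω / Real.log k - c * r| < ε := by
    rw [ae_all_iff]
    intro q
    rw [ae_all_iff]
    intro r
    by_cases h : (0 : ℝ) < q ∧ (q : ℝ) ≠ 1 ∧ (0 : ℝ) < r ∧ (r : ℝ) ≠ 1 ∧ c * (hh q + hh r) < 1
    · filter_upwards [joint_lower hA hc hp hp0 hHp₁ hHp₂ h12 h21 hg₁ hg₂ h.1 h.2.1 h.2.2.1 h.2.2.2.1 h.2.2.2.2] with ω hω _ _ _ _ _
      exact hω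
    · filter_upwards with ω a1 a2 a3 a4 a5
      exact absurd ⟨a1, a2, a3, a4, a5⟩ h
  have up2 : ∀ᵐ ω ∂μ, ∀ q r : ℚ, (0 : ℝ) < q → (q : ℝ) ≠ 1 → (0 : ℝ) < r → (r : ℝ) ≠ 1 → 1 < c * (hh q + hh r) →
      ∀ ε : ℝ, 0 < ε → ∀ᶠ k : ℕ in atTop, ¬ (ε ≤ sg q * (cnt A (T₁ k) (H₁ k) ω / Real.log k - c * q) ∧
        ε ≤ sg r * (cnt A (T₂ k) (H₂ k) ω / Real.log k - c * r)) := by
    rw [ae_all_iff]
    intro q
    rw [ae_all_iff]
    intro r
    by_cases h : (0 : ℝ) < q ∧ (q : ℝ) ≠ 1 ∧ (0 : ℝ) < r ∧ (r : ℝ) ≠ 1 ∧ 1 < c * (hh q + hh r)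
    · filter_upwards [joint_upper hA hp hHp₁ hHp₂ h12 hg₁ hg₂ h.1 h.2.1 h.2.2.1 h.2.2.2.1 h.2.2.2.2] with ω hω _ _ _ _ _
      exact hω
    · filter_upwards with ω a1 a2 a3 a4 a5
      exact absurd ⟨a1, a2, a3, a4, a5⟩ h
  have up1 : ∀ᵐ ω ∂μ, ∀ q : ℚ, (0 : ℝ) < q → (q : ℝ) ≠ 1 → 1 < c * hh q → ∀ ε : ℝ, 0 < ε →
      (∀ᶠ k : ℕ in atTop, ¬ (ε ≤ sg q * (cnt A (T₁ k) (H₁ k) ω / Real.log k - c * q))) ∧
      ∀ᶠ k : ℕ in atTop, ¬ (ε ≤ sg q * (cnt A (T₂ k) (H₂ k) ω / Real.log k - c * q)) := by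
    rw [ae_all_iff]
    intro q
    by_cases h : (0 : ℝ) < q ∧ (q : ℝ) ≠ 1 ∧ 1 < c * hh q
    · filter_upwards [single_upper hA hp hHp₁ hH₁ hg₁ h.1 h.2.1 h.2.2, single_upper hA hp hHp₂ hH₂ hg₂ h.1 h.2.1 h.2.2] with
        ω k1 k2 _ _ _ ε hε
      exact ⟨k1 ε hε, k2 ε hε⟩
    · filter_upwards with ω a1 a2 a3
      exact absurd ⟨a1, a2, a3⟩ h
  filter_upwards [low, up2, up1, win_law hA hc hp hp0 hH₁ hHp₁ h11 hg₁, win_law hA hc hp hp0 hH₂ hHp₂ h22 hg₂] with ω l1 u2 u1 w1 w2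
  constructor
  · intro x y hx hy hxy ε hε K
    -- move towards (1, 1)
    obtain ⟨t, ht, ht1, htx, hty⟩ : ∃ t : ℝ, 0 < t ∧ t ≤ 1 ∧ c * (t * |1 - x|) < ε / 4 ∧ c * (t * |1 - y|) < ε / 4 := by
      have m1 : Tendsto (fun t : ℝ => c * (t * |1 - x|)) (𝓝 0) (𝓝 0) := by
        have : Continuous (fun t : ℝ => c * (t * |1 - x|)) := by fun_prop
        have h := this.tendsto 0
        simpa using h
      have m2 : Tendsto (fun t : ℝ => c * (t * |1 - y|)) (𝓝 0) (𝓝 0) := by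
        have : Continuous (fun t : ℝ => c * (t * |1 - y|)) := by fun_prop
        have h := this.tendsto 0
        simpa using h
      have j1 : ∀ᶠ t : ℝ in 𝓝[>] 0, 0 < t := eventually_mem_nhdsWithin
      have j2 : ∀ᶠ t : ℝ in 𝓝[>] 0, t < 1 := (eventually_lt_nhds (by linarith)).filter_mono nhdsWithin_le_nhds
      have j3 := (m1.eventually_lt_const (show (0 : ℝ) < ε / 4 by positivity)).filter_mono (nhdsWithin_le_nhds (s := Ioi (0 : ℝ)))
      have j4 := (m2.eventually_lt_const (show (0 : ℝ) < ε / 4 by positivity)).filter_mono (nhdsWithin_le_nhds (s := Ioi (0 : ℝ)))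
      obtain ⟨t, a1, a2, a3, a4⟩ := (j1.and (j2.and (j3.and j4))).exists
      exact ⟨t, a1, a2.le, a3, a4⟩
    set x₁ : ℝ := x + t * (1 - x) with hx₁
    set y₁ : ℝ := y + t * (1 - y) with hy₁
    have hx₁0 : 0 < x₁ := by rw [hx₁]; nlinarith
    have hy₁0 : 0 < y₁ := by rw [hy₁]; nlinarith
    have hstr : c * (hh x₁ + hh y₁) < 1 := by
      have e1 := hh_toward hx ht ht1
      have e2 := hh_toward hy ht ht1
      have e3 : c * (hh x₁ + hh y₁) ≤ (1 - t) * (c * (hh x + hh y)) := by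
        have := mul_le_mul_of_nonneg_left (add_le_add e1 e2) hc.le
        linarith
      have e4 : (1 - t) * (c * (hh x + hh y)) ≤ 1 - t := by
        have := mul_le_mul_of_nonneg_left hxy (show 0 ≤ 1 - t by linarith)
        linarith
      linarith
    set κ : ℝ := (1 - c * (hh x₁ + hh y₁)) / (2 * c) with hκ
    have hκ0 : 0 < κ := div_pos (by linarith) (by positivity)
    obtain ⟨δ₁, hδ₁, hd1⟩ := Metric.continuousAt_iff.1 (hh_cont.continuousAt (x := x₁)) κ hκ0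
    obtain ⟨δ₂, hδ₂, hd2⟩ := Metric.continuousAt_iff.1 (hh_cont.continuousAt (x := y₁)) κ hκ0
    obtain ⟨q, q0, q1, q2⟩ := rat_near hx₁0 (lt_min hδ₁ (show 0 < ε / (4 * c) by positivity))
    obtain ⟨r, r0, r1, r2⟩ := rat_near hy₁0 (lt_min hδ₂ (show 0 < ε / (4 * c) by positivity))
    obtain ⟨q3, q4⟩ := lt_min_iff.1 q2
    obtain ⟨r3, r4⟩ := lt_min_iff.1 r2
    have hq := hd1 (show dist (q : ℝ) x₁ < δ₁ by rw [Real.dist_eq]; exact q3)
    have hr := hd2 (show dist (r : ℝ) y₁ < δ₂ by rw [Real.dist_eq]; exact r3)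
    rw [Real.dist_eq, abs_lt] at hq hr
    have hin : c * (hh q + hh r) < 1 := by
      have e1 : c * (hh q + hh r) < c * (hh x₁ + hh y₁ + 2 * κ) := mul_lt_mul_of_pos_left (by linarith) hc
      have e2 : c * (hh x₁ + hh y₁ + 2 * κ) = 1 := by rw [hκ]; field_simp; ring
      linarith
    obtain ⟨k, k1, k2, k3⟩ := l1 q r q0 q1 r0 r1 hin (ε / 2) (by positivity) K
    have ec : c * (ε / (4 * c)) = ε / 4 := by field_simp
    refine ⟨k, k1, ?_, ?_⟩
    · have e : cnt A (T₁ k) (H₁ k) ω / Real.log k - c * x = (cnt A (T₁ k) (H₁ k) ω / Real.log k - c * q) +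
          (c * (q - x₁) + c * (t * (1 - x))) := by rw [hx₁]; ring
      rw [e]
      refine (abs_add_le _ _).trans_lt ?_
      have f1 := abs_add_le (c * (q - x₁)) (c * (t * (1 - x)))
      rw [abs_mul, abs_mul c, abs_mul t, abs_of_pos hc, abs_of_pos ht] at f1
      have f2 := mul_lt_mul_of_pos_left q4 hc
      linarith
    · have e : cnt A (T₂ k) (H₂ k) ω / Real.log k - c * y = (cnt A (T₂ k) (H₂ k) ω / Real.log k - c * r) +
          (c * (r - y₁) + c * (t * (1 - y))) := by rw [hy₁]; ring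
      rw [e]
      refine (abs_add_le _ _).trans_lt ?_
      have f1 := abs_add_le (c * (r - y₁)) (c * (t * (1 - y)))
      rw [abs_mul, abs_mul c, abs_mul t, abs_of_pos hc, abs_of_pos ht] at f1
      have f2 := mul_lt_mul_of_pos_left r4 hc
      linarith
  · intro ε hε
    by_contra hcon
    rw [not_eventually] at hcon
    set P : Set ℕ := {k | ¬ ∃ x y : ℝ, 0 ≤ x ∧ 0 ≤ y ∧ c * (hh x + hh y) ≤ 1 ∧
        |cnt A (T₁ k) (H₁ k) ω / Real.log k - c * x| < ε ∧ |cnt A (T₂ k) (H₂ k) ω / Real.log k - c * y| < ε} with hP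
    obtain ⟨a, b, ha0, ha1, hb1, -, -, -, hab⟩ := interval hc
    set f : ℕ → ℝ × ℝ := fun k => (cnt A (T₁ k) (H₁ k) ω / Real.log k / c, cnt A (T₂ k) (H₂ k) ω / Real.log k / c) with hf
    have hK : IsCompact (Icc (0 : ℝ) (b + 1) ×ˢ Icc (0 : ℝ) (b + 1)) := isCompact_Icc.prod isCompact_Icc
    have hΛl : Tendsto (fun k : ℕ => Real.log (k : ℝ)) atTop atTop := Real.tendsto_log_atTop.comp tendsto_natCast_atTop_atTop
    have cnt0 : ∀ T H : ℕ, 0 ≤ cnt A T H ω := by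
      intro T H
      unfold cnt
      refine Finset.sum_nonneg fun i _ => ?_
      unfold J1
      exact indicator_nonneg (fun _ _ => zero_le_one) _
    have bd : ∀ᶠ k : ℕ in atTop, f k ∈ Icc (0 : ℝ) (b + 1) ×ˢ Icc (0 : ℝ) (b + 1) := by
      filter_upwards [w1.2 c hc, w2.2 c hc, hΛl.eventually_gt_atTop 0] with k k1 k2 k3
      obtain ⟨x, x1, x2, x3⟩ := k1
      obtain ⟨y, y1, y2, y3⟩ := k2
      have x4 := ((hab x).1 ⟨x1, x2⟩).2
      have y4 := ((hab y).1 ⟨y1, y2⟩).2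
      have g1 := mul_le_mul_of_nonneg_left x4 hc.le
      have g2 := mul_le_mul_of_nonneg_left y4 hc.le
      rw [abs_lt] at x3 y3
      refine ⟨⟨?_, ?_⟩, ⟨?_, ?_⟩⟩
      · exact div_nonneg (div_nonneg (cnt0 _ _) k3.le) hc.le
      · simp only [hf]
        rw [div_le_iff₀ hc]
        linarith
      · exact div_nonneg (div_nonneg (cnt0 _ _) k3.le) hc.le
      · simp only [hf]
        rw [div_le_iff₀ hc]
        linarith
    haveI hne : (atTop ⊓ 𝓟 P).NeBot := frequently_mem_iff_neBot.1 hcon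
    have hle : Filter.map f (atTop ⊓ 𝓟 P) ≤ 𝓟 (Icc (0 : ℝ) (b + 1) ×ˢ Icc (0 : ℝ) (b + 1)) := by
      rw [le_principal_iff, mem_map]
      exact Filter.mem_inf_of_left bd
    obtain ⟨z, hz, hcl⟩ := hK hle
    have hfr : ∀ δ : ℝ, 0 < δ → ∃ᶠ k : ℕ in atTop, k ∈ P ∧ |(f k).1 - z.1| < δ ∧ |(f k).2 - z.2| < δ := by
      intro δ hδ
      have h1 := (mapClusterPt_iff_frequently.1 hcl) (Metric.ball z δ) (Metric.ball_mem_nhds z hδ)
      rw [frequently_inf_principal] at h1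
      refine h1.mono fun k hk => ?_
      obtain ⟨hk1, hk2⟩ := hk
      rw [Metric.mem_ball, Prod.dist_eq, max_lt_iff, Real.dist_eq, Real.dist_eq] at hk2
      exact ⟨hk1, hk2.1, hk2.2⟩
    obtain ⟨⟨hu0, -⟩, ⟨hv0, -⟩⟩ := hz
    have hfc1 : ∀ k, cnt A (T₁ k) (H₁ k) ω / Real.log k = c * (f k).1 := by
      intro k
      simp only [hf]
      field_simp
    have hfc2 : ∀ k, cnt A (T₂ k) (H₂ k) ω / Real.log k = c * (f k).2 := by
      intro k
      simp only [hf]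
      field_simp
    have hnot : 1 < c * (hh z.1 + hh z.2) := by
      by_contra hle1
      push Not at hle1
      obtain ⟨k, k1, k2, k3⟩ := (hfr (ε / (2 * c)) (by positivity)).exists
      apply k1
      have ec : c * (ε / (2 * c)) = ε / 2 := by field_simp
      refine ⟨z.1, z.2, hu0, hv0, hle1, ?_, ?_⟩
      · rw [hfc1, ← mul_sub, abs_mul, abs_of_pos hc]
        have := mul_lt_mul_of_pos_left k2 hc
        linarith
      · rw [hfc2, ← mul_sub, abs_mul, abs_of_pos hc]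
        have := mul_lt_mul_of_pos_left k3 hc
        linarith
    set κ : ℝ := (c * (hh z.1 + hh z.2) - 1) / (2 * c) with hκ
    have hκ0 : 0 < κ := div_pos (by linarith) (by positivity)
    have hκe : c * (hh z.1 + hh z.2 - 2 * κ) = 1 := by rw [hκ]; field_simp; ring
    obtain ⟨δ₁, hδ₁, hd1⟩ := Metric.continuousAt_iff.1 (hh_cont.continuousAt (x := z.1)) κ hκ0
    obtain ⟨δ₂, hδ₂, hd2⟩ := Metric.continuousAt_iff.1 (hh_cont.continuousAt (x := z.2)) κ hκ0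
    by_cases hu1 : z.1 = 1
    · have hv1 : z.2 ≠ 1 := by
        intro h
        rw [hu1, h, hh_one] at hnot
        simp at hnot
        linarith
      obtain ⟨r, r0, r1, r2, r3⟩ := rat_inner hv0 hv1 hδ₂
      have hr := hd2 (show dist (r : ℝ) z.2 < δ₂ by rw [Real.dist_eq]; exact r2)
      rw [Real.dist_eq, abs_lt] at hr
      rw [hu1, hh_one] at hκe
      have h1 : 1 < c * hh r := by
        have := mul_lt_mul_of_pos_left (show 0 + hh z.2 - 2 * κ < hh r by linarith) hc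
        linarith
      set g : ℝ := sg r * (z.2 - r) with hg
      obtain ⟨k, ⟨-, -, k2⟩, k3⟩ := ((hfr (g / 2) (by positivity)).and_eventually ((u1 r r0 r1 h1 (c * (g / 2)) (by positivity)).2)).exists
      apply k3
      rw [hfc2]
      have e : sg r * (c * (f k).2 - c * r) = c * (g + sg r * ((f k).2 - z.2)) := by rw [hg]; ring
      rw [e]
      apply mul_le_mul_of_nonneg_left _ hc.le
      rw [abs_lt] at k2
      have : -(g / 2) ≤ sg r * ((f k).2 - z.2) := by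
        rcases sg_or (r : ℝ) with h | h <;> rw [h] <;> linarith
      linarith
    · by_cases hv1 : z.2 = 1
      · obtain ⟨q, q0, q1, q2, q3⟩ := rat_inner hu0 hu1 hδ₁
        have hq := hd1 (show dist (q : ℝ) z.1 < δ₁ by rw [Real.dist_eq]; exact q2)
        rw [Real.dist_eq, abs_lt] at hq
        rw [hv1, hh_one] at hκe
        have h1 : 1 < c * hh q := by
          have := mul_lt_mul_of_pos_left (show hh z.1 + 0 - 2 * κ < hh q by linarith) hc
          linarith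
        set g : ℝ := sg q * (z.1 - q) with hg
        obtain ⟨k, ⟨-, k2, -⟩, k3⟩ := ((hfr (g / 2) (by positivity)).and_eventually ((u1 q q0 q1 h1 (c * (g / 2)) (by positivity)).1)).exists
        apply k3
        rw [hfc1]
        have e : sg q * (c * (f k).1 - c * q) = c * (g + sg q * ((f k).1 - z.1)) := by rw [hg]; ring
        rw [e]
        apply mul_le_mul_of_nonneg_left _ hc.le
        rw [abs_lt] at k2
        have : -(g / 2) ≤ sg q * ((f k).1 - z.1) := by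
          rcases sg_or (q : ℝ) with h | h <;> rw [h] <;> linarith
        linarith
      · obtain ⟨q, q0, q1, q2, q3⟩ := rat_inner hu0 hu1 hδ₁
        obtain ⟨r, r0, r1, r2, r3⟩ := rat_inner hv0 hv1 hδ₂
        have hq := hd1 (show dist (q : ℝ) z.1 < δ₁ by rw [Real.dist_eq]; exact q2)
        have hr := hd2 (show dist (r : ℝ) z.2 < δ₂ by rw [Real.dist_eq]; exact r2)
        rw [Real.dist_eq, abs_lt] at hq hr
        have h1 : 1 < c * (hh q + hh r) := by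
          have := mul_lt_mul_of_pos_left (show hh z.1 + hh z.2 - 2 * κ < hh q + hh r by linarith) hc
          linarith
        set g : ℝ := sg q * (z.1 - q) with hg
        set g' : ℝ := sg r * (z.2 - r) with hg'
        have hm : 0 < min g g' := lt_min q3 r3
        obtain ⟨k, ⟨-, k2, k2'⟩, k3⟩ := ((hfr (min g g' / 2) (by positivity)).and_eventually
          (u2 q r q0 q1 r0 r1 h1 (c * (min g g' / 2)) (by positivity))).exists
        apply k3
        rw [hfc1, hfc2]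
        have e : sg q * (c * (f k).1 - c * q) = c * (g + sg q * ((f k).1 - z.1)) := by rw [hg]; ring
        have e' : sg r * (c * (f k).2 - c * r) = c * (g' + sg r * ((f k).2 - z.2)) := by rw [hg']; ring
        rw [e, e']
        rw [abs_lt] at k2 k2'
        have m1 := min_le_left g g'
        have m2 := min_le_right g g'
        constructor
        · apply mul_le_mul_of_nonneg_left _ hc.le
          have : -(min g g' / 2) ≤ sg q * ((f k).1 - z.1) := by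
            rcases sg_or (q : ℝ) with h | h <;> rw [h] <;> linarith
          linarith
        · apply mul_le_mul_of_nonneg_left _ hc.le
          have : -(min g g' / 2) ≤ sg r * ((f k).2 - z.2) := by
            rcases sg_or (r : ℝ) with h | h <;> rw [h] <;> linarith
          linarith

end Pool.Agent.N417.LD
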