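import Mathlib
import Pool.Agent.N417.LD.F

/-!
# The windows of Oppermann
-/

set_option autoImplicit false
set_option linter.unusedSectionVars false

open MeasureTheory Filter Set
open scoped ENNReal Topology

namespace Pool.Agent.N417.LD

open Pool.Agent.R528.RM Pool.Agent.N740.HK

/-- `log r` and `√r` for `r` near `k ^ 2` -/
lemma near_sq {k r : ℕ} (hk : 2 ≤ k) (h1 : k ^ 2 - k ≤ r) (h2 : r ≤ k ^ 2 + k) :
    (k : ℝ) - 1 ≤ √(r : ℝ) ∧ √(r : ℝ) ≤ k + 1 ∧ 2 * Real.log k - 1 ≤ Real.log r ∧ Real.log r ≤ 2 * Real.log k + 1 := by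
  have hk' : (2 : ℝ) ≤ k := by exact_mod_cast hk
  have h1' : (k : ℝ) ^ 2 - k ≤ r := by
    have : k ^ 2 ≤ r + k := by omega
    have h : (k : ℝ) ^ 2 ≤ r + k := by exact_mod_cast this
    linarith
  have h2' : (r : ℝ) ≤ (k : ℝ) ^ 2 + k := by exact_mod_cast h2
  have hl2 := Real.log_two_lt_d9
  have hr0 : (0 : ℝ) < r := by nlinarith
  refine ⟨?_, ?_, ?_, ?_⟩
  · apply Real.le_sqrt_of_sq_le
    nlinarith
  · rw [Real.sqrt_le_left (by linarith)]
    nlinarith
  · have h3 : (k : ℝ) ^ 2 / 2 ≤ r := by nlinarith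
    have h4 : Real.log ((k : ℝ) ^ 2 / 2) ≤ Real.log r := Real.log_le_log (by positivity) h3
    rw [Real.log_div (by positivity) (by norm_num), Real.log_pow] at h4
    push_cast at h4
    linarith
  · have h3 : (r : ℝ) ≤ (k : ℝ) ^ 2 * 2 := by nlinarith
    have h4 : Real.log r ≤ Real.log ((k : ℝ) ^ 2 * 2) := Real.log_le_log hr0 h3
    rw [Real.log_mul (by positivity) (by norm_num), Real.log_pow] at h4
    push_cast at h4
    linarith

lemma log_lim (a : ℝ) : Tendsto (fun k : ℕ => (2 * Real.log k + a) / (2 * Real.log k)) atTop (𝓝 1) := by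
  have h1 : Tendsto (fun k : ℕ => 1 + a / (2 * Real.log k)) atTop (𝓝 (1 + 0)) := by
    refine tendsto_const_nhds.add (Tendsto.const_div_atTop ?_ a)
    exact tendsto_logN.const_mul_atTop two_pos
  rw [add_zero] at h1
  refine h1.congr' ?_
  filter_upwards [tendsto_logN.eventually_gt_atTop 0] with k hk
  field_simp

lemma k_lim (a : ℝ) : Tendsto (fun k : ℕ => (k : ℝ) / (k + a)) atTop (𝓝 1) := by
  have h1 : Tendsto (fun k : ℕ => 1 - a / ((k : ℝ) + a)) atTop (𝓝 (1 - 0)) := by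
    refine tendsto_const_nhds.sub (Tendsto.const_div_atTop ?_ a)
    exact tendsto_atTop_add_const_right _ _ tendsto_natCast_atTop_atTop
  rw [sub_zero] at h1
  refine h1.congr' ?_
  have h2 : Tendsto (fun k : ℕ => (k : ℝ) + a) atTop atTop :=
    tendsto_atTop_add_const_right _ _ tendsto_natCast_atTop_atTop
  filter_upwards [h2.eventually_gt_atTop 0] with k hk
  field_simp
  ring

variable {Ω : Type} {m0 : MeasurableSpace Ω} {μ : Measure Ω} [IsProbabilityMeasure μ]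
  {ℱ : Filtration ℕ m0} {A : ℕ → Set Ω}

/-- the densities in the windows of Oppermann -/
lemma good_opp (hA : ∀ n, MeasurableSet[ℱ n] (A n)) {κ : ℝ} (hκ : 0 < κ)
    (hd : ∀ᵐ ω ∂μ, Tendsto (fun n : ℕ => dens μ ℱ A n ω * √(n : ℝ) / Real.log n) atTop (𝓝 κ)) {T H : ℕ → ℕ}
    (hT : ∀ k, k ^ 2 - k ≤ T k) (hTH : ∀ k, T k + H k ≤ k ^ 2 + k) :
    ∀ᵐ ω ∂μ, GoodWin μ ℱ A T H (fun k => 2 * κ * Real.log k / k) ω := by
  filter_upwards [hd, DD'_ae (μ := μ) hA] with ω h1 h2 η hη hη1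
  have h3 : ∀ᶠ n : ℕ in atTop, |dens μ ℱ A n ω * √(n : ℝ) / Real.log n - κ| < κ * (η / 4) :=
    Metric.tendsto_nhds.1 h1 _ (by positivity)
  obtain ⟨n0, hn0⟩ := eventually_atTop.1 h3
  have lo : Tendsto (fun k : ℕ => (2 * Real.log k + -1) / (2 * Real.log k) * ((k : ℝ) / (k + 1))) atTop (𝓝 1) := by
    have := (log_lim (-1)).mul (k_lim 1)
    rwa [one_mul] at this
  have up : Tendsto (fun k : ℕ => (2 * Real.log k + 1) / (2 * Real.log k) * ((k : ℝ) / (k + -1))) atTop (𝓝 1) := by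
    have := (log_lim 1).mul (k_lim (-1))
    rwa [one_mul] at this
  filter_upwards [eventually_ge_atTop (n0 + 3), tendsto_logN.eventually_ge_atTop 1,
    lo.eventually_const_le (show 1 - η / 4 < 1 by linarith), up.eventually_le_const (show 1 < 1 + η / 4 by linarith)]
    with k hk hL hlo hup i hi
  rw [h2 (T k + i)]
  set r : ℕ := T k + i with hr
  have hr1 : k ^ 2 - k ≤ r := (hT k).trans (by omega)
  have hr2 : r ≤ k ^ 2 + k := by have := hTH k; omega
  have hrn : n0 ≤ r := by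
    have : k ≤ k ^ 2 - k := by
      have : k * 2 ≤ k * k := Nat.mul_le_mul_left k (by omega)
      rw [sq]; omega
    omega
  have k1 := abs_lt.1 (hn0 r hrn)
  obtain ⟨a1, a2, a3, a4⟩ := near_sq (by omega : 2 ≤ k) hr1 hr2
  have hk' : (3 : ℝ) ≤ k := by exact_mod_cast (by omega : 3 ≤ k)
  set L : ℝ := Real.log k with hLdef
  have hs0 : 0 < √(r : ℝ) := by linarith
  have hl0 : 0 < Real.log r := by linarith
  set F : ℝ := dens μ ℱ A r ω * √(r : ℝ) / Real.log r with hF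
  have hD : dens μ ℱ A r ω = F * (Real.log r / √(r : ℝ)) := by rw [hF]; field_simp
  rw [hD]
  have w1 : (2 * L + -1) / (k + 1) ≤ Real.log r / √(r : ℝ) := by
    apply div_le_div₀ hl0.le (by linarith) hs0 a2
  have w2 : Real.log r / √(r : ℝ) ≤ (2 * L + 1) / (k + -1) := by
    apply div_le_div₀ (by linarith) a4 (by linarith) (by linarith)
  have w3 : (1 - η / 4) * (2 * L / k) ≤ Real.log r / √(r : ℝ) := by
    refine le_trans ?_ w1
    have e : (2 * L + -1) / (k + 1) = ((2 * L + -1) / (2 * L) * ((k : ℝ) / (k + 1))) * (2 * L / k) := by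
      field_simp
    rw [e]
    exact mul_le_mul_of_nonneg_right hlo (by positivity)
  have w4 : Real.log r / √(r : ℝ) ≤ (1 + η / 4) * (2 * L / k) := by
    refine le_trans w2 ?_
    have hk1 : (k : ℝ) + -1 ≠ 0 := by linarith
    have e : (2 * L + 1) / (k + -1) = ((2 * L + 1) / (2 * L) * ((k : ℝ) / (k + -1))) * (2 * L / k) := by
      field_simp
    rw [e]
    exact mul_le_mul_of_nonneg_right hup (by positivity)
  have hW : 0 < Real.log r / √(r : ℝ) := by positivity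
  have hq : (0 : ℝ) < 2 * L / k := by positivity
  have F1 : κ * (1 - η / 4) ≤ F := by linarith [k1.1]
  have F2 : F ≤ κ * (1 + η / 4) := by linarith [k1.2]
  have F0 : 0 < F := lt_of_lt_of_le (by nlinarith) F1
  have e : 2 * κ * L / k = κ * (2 * L / k) := by ring
  simp only [e]
  constructor
  · have s1 : κ * (1 - η / 4) * ((1 - η / 4) * (2 * L / k)) ≤ F * (Real.log r / √(r : ℝ)) :=
      mul_le_mul F1 w3 (mul_nonneg (by linarith) hq.le) F0.le
    refine le_trans ?_ s1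
    have : (1 - η) ≤ (1 - η / 4) * (1 - η / 4) := by nlinarith
    calc (1 - η) * (κ * (2 * L / k)) ≤ ((1 - η / 4) * (1 - η / 4)) * (κ * (2 * L / k)) :=
          mul_le_mul_of_nonneg_right this (by positivity)
      _ = _ := by ring
  · have s1 : F * (Real.log r / √(r : ℝ)) ≤ κ * (1 + η / 4) * ((1 + η / 4) * (2 * L / k)) :=
      mul_le_mul F2 w4 hW.le (by positivity)
    refine le_trans s1 ?_
    have : (1 + η / 4) * (1 + η / 4) ≤ (1 + η) := by nlinarith
    calc κ * (1 + η / 4) * ((1 + η / 4) * (2 * L / k)) = ((1 + η / 4) * (1 + η / 4)) * (κ * (2 * L / k)) := by ring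
      _ ≤ _ := mul_le_mul_of_nonneg_right this (by positivity)

/-- the number of chosen integers in the closed interval from `a` to `b` -/
noncomputable def ccnt (A : ℕ → Set Ω) (a b : ℕ) (ω : Ω) : ℝ := ∑ r ∈ Finset.Icc a b, J1 A r ω

lemma ccnt_cnt (T H : ℕ) (ω : Ω) : ccnt A T (T + H + 1) ω = J1 A T ω + cnt A T H ω + J1 A (T + H + 1) ω := by
  unfold ccnt cnt
  rw [show Finset.Icc T (T + H + 1) = Finset.Ico T (T + H + 1 + 1) from by ext; simp]
  rw [Finset.sum_Ico_succ_top (by omega), Finset.sum_eq_sum_Ico_succ_bot (by omega)]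
  congr 2
  rw [Finset.sum_Ico_eq_sum_range]
  have : T + H + 1 - (T + 1) = H := by omega
  rw [this]
  exact Finset.sum_congr rfl fun i _ => by rw [show T + 1 + i = T + i + 1 by omega]

lemma ccnt_near (T H : ℕ) (ω : Ω) : |ccnt A T (T + H + 1) ω - cnt A T H ω| ≤ 2 := by
  rw [ccnt_cnt]
  have h1 := J1_01 (A := A) T ω
  have h2 := J1_01 (A := A) (T + H + 1) ω
  rw [abs_le]
  constructor <;> linarith

/-- **the joint law of the two counts of Oppermann at the critical density** -/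
theorem opp_law (hA : ∀ n, MeasurableSet[ℱ n] (A n)) {κ : ℝ} (hκ : 0 < κ)
    (hd : ∀ᵐ ω ∂μ, Tendsto (fun n : ℕ => dens μ ℱ A n ω * √(n : ℝ) / Real.log n) atTop (𝓝 κ)) :
    ∀ᵐ ω ∂μ, (∀ x y : ℝ, 0 ≤ x → 0 ≤ y → 2 * κ * (hh x + hh y) ≤ 1 → ∀ ε : ℝ, 0 < ε → ∀ K : ℕ, ∃ k, K ≤ k ∧
        |ccnt A (k ^ 2 - k) (k ^ 2) ω / (2 * κ * Real.log k) - x| < ε ∧
        |ccnt A (k ^ 2) (k ^ 2 + k) ω / (2 * κ * Real.log k) - y| < ε) ∧
      ∀ ε : ℝ, 0 < ε → ∀ᶠ k : ℕ in atTop, ∃ x y : ℝ, 0 ≤ x ∧ 0 ≤ y ∧ 2 * κ * (hh x + hh y) ≤ 1 ∧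
        |ccnt A (k ^ 2 - k) (k ^ 2) ω / (2 * κ * Real.log k) - x| < ε ∧
        |ccnt A (k ^ 2) (k ^ 2 + k) ω / (2 * κ * Real.log k) - y| < ε := by
  have hc : 0 < 2 * κ := by positivity
  have hp : ∀ᶠ k : ℕ in atTop, 0 < 2 * κ * Real.log k / k := by
    filter_upwards [tendsto_logN.eventually_gt_atTop 0, eventually_gt_atTop 0] with k h1 h2
    have : (0 : ℝ) < k := by exact_mod_cast h2
    positivity
  have hlk : Tendsto (fun k : ℕ => Real.log k / k) atTop (𝓝 0) := by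
    have h : Tendsto (fun x : ℝ => Real.log x / x) atTop (𝓝 0) := Real.isLittleO_log_id_atTop.tendsto_div_nhds_zero
    exact h.comp tendsto_natCast_atTop_atTop
  have hp0 : Tendsto (fun k : ℕ => 2 * κ * Real.log k / k) atTop (𝓝 0) := by
    have := hlk.const_mul (2 * κ)
    rw [mul_zero] at this
    exact this.congr fun k => by ring
  have hH : Tendsto (fun k : ℕ => ((k - 1 : ℕ) : ℝ) * (2 * κ * Real.log k / k) / Real.log k) atTop (𝓝 (2 * κ)) := by
    have h1 : Tendsto (fun k : ℕ => 2 * κ * (1 - 1 / (k : ℝ))) atTop (𝓝 (2 * κ * (1 - 0))) :=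
      (tendsto_const_nhds.sub tendsto_one_div_atTop_nhds_zero_nat).const_mul _
    rw [sub_zero, mul_one] at h1
    refine h1.congr' ?_
    filter_upwards [tendsto_logN.eventually_gt_atTop 0, eventually_gt_atTop 0] with k h1 h2
    have : (0 : ℝ) < k := by exact_mod_cast h2
    rw [Nat.cast_sub (by omega)]
    push_cast
    field_simp
  have hHp : ∀ᶠ k : ℕ in atTop, 0 < k - 1 := by
    filter_upwards [eventually_gt_atTop 1] with k hk
    omega
  have hsq : ∀ k : ℕ, k ≤ k ^ 2 := fun k => by rw [sq]; exact Nat.le_mul_self k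
  have key := joint_law (μ := μ) (T₁ := fun k => k ^ 2 - k) (H₁ := fun k => k - 1) (T₂ := fun k => k ^ 2)
    (H₂ := fun k => k - 1) (p := fun k => 2 * κ * Real.log k / k) hA hc hp hp0 hH hHp hH hHp
    (fun k => by have := hsq k; show k ^ 2 - k + (k - 1) ≤ k ^ 2; omega)
    (fun k => by
      show k ^ 2 + (k - 1) ≤ (k + 1) ^ 2 - (k + 1)
      have : (k + 1) ^ 2 = k ^ 2 + 2 * k + 1 := by ring
      omega)
    (good_opp hA hκ hd (fun k => le_rfl) (fun k => by show k ^ 2 - k + (k - 1) ≤ k ^ 2 + k; omega))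
    (good_opp hA hκ hd (fun k => Nat.sub_le _ _) (fun k => by show k ^ 2 + (k - 1) ≤ k ^ 2 + k; omega))
  -- the endpoints do not matter
  have e1 : ∀ ω, ∀ k : ℕ, 1 ≤ k → |ccnt A (k ^ 2 - k) (k ^ 2) ω - cnt A (k ^ 2 - k) (k - 1) ω| ≤ 2 := fun ω k hk => by
    have h := ccnt_near (A := A) (k ^ 2 - k) (k - 1) ω
    have h2 : k ^ 2 - k + (k - 1) + 1 = k ^ 2 := by have := hsq k; omega
    rwa [h2] at h
  have e2 : ∀ ω, ∀ k : ℕ, 1 ≤ k → |ccnt A (k ^ 2) (k ^ 2 + k) ω - cnt A (k ^ 2) (k - 1) ω| ≤ 2 := fun ω k hk => by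
    have h := ccnt_near (A := A) (k ^ 2) (k - 1) ω
    have h2 : k ^ 2 + (k - 1) + 1 = k ^ 2 + k := by omega
    rwa [h2] at h
  have close : ∀ {k : ℕ} {C D z ε : ℝ}, |C - D| ≤ 2 → 0 < ε → 2 / (κ * ε) ≤ Real.log k →
      |D / Real.log k - 2 * κ * z| < κ * ε → |C / (2 * κ * Real.log k) - z| < ε := by
    intro k C D z ε h1 hε hL h2
    have hL0 : 0 < Real.log k := lt_of_lt_of_le (by positivity) hL
    have h3 : C / (2 * κ * Real.log k) - z = ((C - D) / Real.log k + (D / Real.log k - 2 * κ * z)) / (2 * κ) := by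
      field_simp
      ring
    rw [h3, abs_div, abs_of_pos hc, div_lt_iff₀ hc]
    have h4 : |(C - D) / Real.log k| ≤ κ * ε := by
      rw [abs_div, abs_of_pos hL0, div_le_iff₀ hL0]
      rw [div_le_iff₀ (by positivity)] at hL
      linarith
    have h5 := abs_add_le ((C - D) / Real.log k) (D / Real.log k - 2 * κ * z)
    linarith
  filter_upwards [key] with ω hω
  constructor
  · intro x y hx hy hxy ε hε K
    obtain ⟨k1, hk1⟩ := eventually_atTop.1 (tendsto_logN.eventually_ge_atTop (2 / (κ * ε)))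
    obtain ⟨k, hk, b1, b2⟩ := hω.1 x y hx hy hxy (κ * ε) (by positivity) (max K (max k1 1))
    have hkK : K ≤ k := (le_max_left _ _).trans hk
    have hkk : k1 ≤ k := ((le_max_left _ _).trans (le_max_right _ _)).trans hk
    have hk1' : 1 ≤ k := ((le_max_right _ _).trans (le_max_right _ _)).trans hk
    exact ⟨k, hkK, close (e1 ω k hk1') hε (hk1 k hkk) b1, close (e2 ω k hk1') hε (hk1 k hkk) b2⟩
  · intro ε hε
    filter_upwards [hω.2 (κ * ε) (by positivity), tendsto_logN.eventually_ge_atTop (2 / (κ * ε)), eventually_ge_atTop 1]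
      with k hk hL hk1
    obtain ⟨x, y, hx, hy, hxy, b1, b2⟩ := hk
    exact ⟨x, y, hx, hy, hxy, close (e1 ω k hk1) hε hL b1, close (e2 ω k hk1) hε hL b2⟩

end Pool.Agent.N417.LD
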