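import Mathlib
import Pool.Agent.N417.LD.G

/-!
# The windows of Oppermann above the critical density
-/

set_option autoImplicit false
set_option linter.unusedSectionVars false

open MeasureTheory Filter Set
open scoped ENNReal Topology

namespace Pool.Agent.N417.LD

open Pool.Agent.R528.RM Pool.Agent.N740.HK

variable {Ω : Type} {m0 : MeasurableSpace Ω} {μ : Measure Ω} [IsProbabilityMeasure μ]
  {ℱ : Filtration ℕ m0} {A : ℕ → Set Ω}

/-- the conditional expectation of the count, added up -/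
noncomputable def ccmp (μ : Measure Ω) (ℱ : Filtration ℕ m0) (A : ℕ → Set Ω) (a b : ℕ) (ω : Ω) : ℝ :=
  ∑ r ∈ Finset.Icc a b, dens μ ℱ A (r - 1) ω

open Classical in
lemma sum_win {a b : ℕ} (ha : 1 ≤ a) (f : ℕ → ℝ) :
    ∑ t ∈ Finset.range b, (if a ≤ t + 1 then (1 : ℝ) else 0) * f t = ∑ r ∈ Finset.Icc a b, f (r - 1) := by
  simp_rw [ite_mul, one_mul, zero_mul]
  rw [← Finset.sum_filter]
  refine Finset.sum_nbij' (fun t => t + 1) (fun r => r - 1) ?_ ?_ ?_ ?_ ?_
  · intro t ht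
    simp only [Finset.mem_filter, Finset.mem_range] at ht
    simp only [Finset.mem_Icc]
    omega
  · intro r hr
    simp only [Finset.mem_Icc] at hr
    simp only [Finset.mem_filter, Finset.mem_range]
    omega
  · intro t _
    simp
  · intro r hr
    simp only [Finset.mem_Icc] at hr
    omega
  · intro t _
    simp

/-- the law of large numbers for windows in which the expected counts are much greater than `log k` -/
theorem ratio_lim (hA : ∀ n, MeasurableSet[ℱ n] (A n)) {T S : ℕ → ℕ} (hT : ∀ᶠ k in atTop, 1 ≤ T k)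
    (hV : ∀ᵐ ω ∂μ, Tendsto (fun k : ℕ => ccmp μ ℱ A (T k) (S k) ω / Real.log k) atTop atTop) :
    ∀ᵐ ω ∂μ, Tendsto (fun k : ℕ => ccnt A (T k) (S k) ω / ccmp μ ℱ A (T k) (S k) ω) atTop (𝓝 1) := by
  classical
  have h1 : ∀ᵐ ω ∂μ, ∀ m : ℕ, ∀ᶠ n : ℕ in atTop,
      |∑ t ∈ Finset.range (S n), (if T n ≤ t + 1 then (1 : ℝ) else 0) * J1 A (t + 1) ω -
        ∑ t ∈ Finset.range (S n), (if T n ≤ t + 1 then (1 : ℝ) else 0) * dens μ ℱ A t ω| ≤
        (1 / ((m : ℝ) + 1)) * (∑ t ∈ Finset.range (S n), (if T n ≤ t + 1 then (1 : ℝ) else 0) * dens μ ℱ A t ω) +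
          (2 / min 1 (1 / ((m : ℝ) + 1))) * Real.log n := by
    rw [ae_all_iff]
    intro m
    exact conc hA (by positivity) (fun n t _ => if T n ≤ t + 1 then (1 : ℝ) else 0) S
      (fun n t => stronglyMeasurable_const) (fun n t ω => by split_ifs <;> norm_num)
  filter_upwards [h1, hV] with ω h1 h2
  rw [Metric.tendsto_nhds]
  intro ε hε
  obtain ⟨m, hm⟩ := exists_nat_one_div_lt (show 0 < ε / 2 by positivity)
  set C : ℝ := 2 / min 1 (1 / ((m : ℝ) + 1)) with hC
  have hC0 : 0 < C := by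
    have : 0 < min (1 : ℝ) (1 / ((m : ℝ) + 1)) := lt_min one_pos (by positivity)
    positivity
  filter_upwards [h1 m, hT, h2.eventually_ge_atTop (4 * C / ε), tendsto_logN.eventually_gt_atTop 0] with k h3 h4 h5 h6
  have e1 : ∑ t ∈ Finset.range (S k), (if T k ≤ t + 1 then (1 : ℝ) else 0) * J1 A (t + 1) ω = ccnt A (T k) (S k) ω := by
    have h := sum_win (b := S k) h4 (fun t => J1 A (t + 1) ω)
    rw [h]
    unfold ccnt
    refine Finset.sum_congr rfl fun r hr => ?_
    have := (Finset.mem_Icc.1 hr).1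
    rw [show r - 1 + 1 = r by omega]
  have e2 : ∑ t ∈ Finset.range (S k), (if T k ≤ t + 1 then (1 : ℝ) else 0) * dens μ ℱ A t ω = ccmp μ ℱ A (T k) (S k) ω :=
    sum_win (b := S k) h4 (fun t => dens μ ℱ A t ω)
  rw [e1, e2] at h3
  set M := ccnt A (T k) (S k) ω
  set V := ccmp μ ℱ A (T k) (S k) ω
  rw [le_div_iff₀ h6] at h5
  have hV0 : 0 < V := lt_of_lt_of_le (by positivity) h5
  rw [Real.dist_eq]
  have e3 : M / V - 1 = (M - V) / V := by field_simp
  rw [e3, abs_div, abs_of_pos hV0, div_lt_iff₀ hV0]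
  have h7 : C * Real.log k ≤ ε / 4 * V := by
    have h8 : ε / 4 * (4 * C / ε * Real.log k) ≤ ε / 4 * V := mul_le_mul_of_nonneg_left h5 (by positivity)
    have h9 : ε / 4 * (4 * C / ε * Real.log k) = C * Real.log k := by field_simp
    linarith
  have h10 : 1 / ((m : ℝ) + 1) * V ≤ ε / 2 * V := mul_le_mul_of_nonneg_right hm.le hV0.le
  have h11 : 0 < ε / 4 * V := by positivity
  linarith

lemma ccmp_ge {T S k : ℕ} {ω : Ω} {q : ℝ} (h0 : ∀ r, 0 ≤ dens μ ℱ A r ω) (hST : T + k ≤ S)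
    (hq : ∀ r, T ≤ r → r ≤ S → q ≤ dens μ ℱ A r ω) : k * q ≤ ccmp μ ℱ A T S ω := by
  unfold ccmp
  have h1 : ∑ r ∈ Finset.Ioc T (T + k), q ≤ ∑ r ∈ Finset.Ioc T (T + k), dens μ ℱ A (r - 1) ω :=
    Finset.sum_le_sum fun r hr => by
      have := Finset.mem_Ioc.1 hr
      exact hq _ (by omega) (by omega)
  have h2 : ∑ r ∈ Finset.Ioc T (T + k), dens μ ℱ A (r - 1) ω ≤ ∑ r ∈ Finset.Icc T S, dens μ ℱ A (r - 1) ω := by
    refine Finset.sum_le_sum_of_subset_of_nonneg (fun r hr => ?_) fun r _ _ => h0 _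
    have := Finset.mem_Ioc.1 hr
    exact Finset.mem_Icc.2 (by omega)
  rw [Finset.sum_const, Nat.card_Ioc, nsmul_eq_mul, show T + k - T = k by omega] at h1
  exact h1.trans h2

lemma ccmp_le {T S k : ℕ} {ω : Ω} {q : ℝ} (h1 : ∀ r, dens μ ℱ A r ω ≤ 1) (hST : S = T + k)
    (hq : ∀ r, T ≤ r → r ≤ S → dens μ ℱ A r ω ≤ q) : ccmp μ ℱ A T S ω ≤ 1 + k * q := by
  unfold ccmp
  rw [hST, show Finset.Icc T (T + k) = Finset.Ico T (T + k + 1) from by ext; simp,
    Finset.sum_eq_sum_Ico_succ_bot (by omega)]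
  refine add_le_add (h1 _) ?_
  have h3 : ∑ r ∈ Finset.Ico (T + 1) (T + k + 1), dens μ ℱ A (r - 1) ω ≤ ∑ r ∈ Finset.Ico (T + 1) (T + k + 1), q :=
    Finset.sum_le_sum fun r hr => by
      have := Finset.mem_Ico.1 hr
      exact hq _ (by omega) (by omega)
  rw [Finset.sum_const, Nat.card_Ico, nsmul_eq_mul, show T + k + 1 - (T + 1) = k by omega] at h3
  exact h3

/-- **above the critical density** -/
theorem opp_dense (hA : ∀ n, MeasurableSet[ℱ n] (A n))
    (hd : ∀ᵐ ω ∂μ, Tendsto (fun n : ℕ => dens μ ℱ A n ω * √(n : ℝ) / Real.log n) atTop atTop) {T S : ℕ → ℕ}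
    (hT : ∀ k, k ^ 2 - k ≤ T k) (hS : ∀ k, S k ≤ k ^ 2 + k) (hTS : ∀ k, T k + k ≤ S k) :
    ∀ᵐ ω ∂μ, Tendsto (fun k : ℕ => ccnt A (T k) (S k) ω / ccmp μ ℱ A (T k) (S k) ω) atTop (𝓝 1) := by
  refine ratio_lim hA ?_ ?_
  · filter_upwards [eventually_ge_atTop 2] with k hk
    have h1 := hT k
    have : k * 2 ≤ k * k := Nat.mul_le_mul_left k hk
    have h2 : k ^ 2 = k * k := sq k
    omega
  · filter_upwards [hd, DD'_ae (μ := μ) hA] with ω h1 h2
    have hD0 : ∀ r, 0 ≤ dens μ ℱ A r ω := fun r => by rw [← h2]; exact (DD'_bd _ _).1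
    rw [tendsto_atTop]
    intro b
    set b' : ℝ := max b 1 with hb'
    have hb0 : 0 < b' := lt_of_lt_of_le one_pos (le_max_right _ _)
    obtain ⟨n0, hn0⟩ := eventually_atTop.1 (h1.eventually_ge_atTop (2 * b'))
    filter_upwards [eventually_ge_atTop (n0 + 3), tendsto_logN.eventually_ge_atTop 1] with k hk hL
    have hk' : (3 : ℝ) ≤ k := by exact_mod_cast (by omega : 3 ≤ k)
    have hL0 : 0 < Real.log k := by linarith
    refine (le_max_left b 1).trans ?_
    rw [le_div_iff₀ hL0]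
    have hkk : k ≤ k ^ 2 - k := by
      have : k * 2 ≤ k * k := Nat.mul_le_mul_left k (by omega)
      rw [sq]; omega
    have key := ccmp_ge (μ := μ) (ℱ := ℱ) (A := A) (T := T k) (S := S k) (k := k) (ω := ω) (q := 2 * b' * Real.log k / (k + 1)) hD0 (hTS k)
      (fun r hr1 hr2 => by
        have hr3 := (hT k).trans hr1
        have hr4 := hr2.trans (hS k)
        obtain ⟨a1, a2, a3, a4⟩ := near_sq (by omega : 2 ≤ k) hr3 hr4
        have hl0 : 0 < Real.log r := by linarith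
        have hs0 : 0 < √(r : ℝ) := by linarith
        have h3 := hn0 r (by omega)
        rw [le_div_iff₀ hl0] at h3
        have h4 : 2 * b' * Real.log k ≤ dens μ ℱ A r ω * √(r : ℝ) := by
          refine le_trans ?_ h3
          apply mul_le_mul_of_nonneg_left _ (by positivity)
          linarith
        rw [div_le_iff₀ (by positivity)]
        exact h4.trans (mul_le_mul_of_nonneg_left a2 (hD0 r)))
    refine le_trans ?_ key
    have : (1 : ℝ) / 2 ≤ k / (k + 1) := by
      rw [div_le_div_iff₀ (by norm_num) (by positivity)]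
      linarith
    calc b' * Real.log k = (1 / 2) * (2 * b' * Real.log k) := by ring
      _ ≤ (k / (k + 1)) * (2 * b' * Real.log k) := mul_le_mul_of_nonneg_right this (by positivity)
      _ = _ := by ring

/-- the expected counts at the density of the primes -/
lemma ccmp_primes (hA : ∀ n, MeasurableSet[ℱ n] (A n))
    (hd : ∀ᵐ ω ∂μ, Tendsto (fun n : ℕ => dens μ ℱ A n ω * Real.log n) atTop (𝓝 1)) {T S : ℕ → ℕ}
    (hT : ∀ k, k ^ 2 - k ≤ T k) (hS : ∀ k, S k ≤ k ^ 2 + k) (hTS : ∀ᶠ k in atTop, S k = T k + k) :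
    ∀ᵐ ω ∂μ, Tendsto (fun k : ℕ => ccmp μ ℱ A (T k) (S k) ω / (k / (2 * Real.log k))) atTop (𝓝 1) := by
  filter_upwards [hd, DD'_ae (μ := μ) hA] with ω h1 h2
  have hD0 : ∀ r, 0 ≤ dens μ ℱ A r ω := fun r => by rw [← h2]; exact (DD'_bd _ _).1
  have hD1 : ∀ r, dens μ ℱ A r ω ≤ 1 := fun r => by rw [← h2]; exact (DD'_bd _ _).2
  have hlk : Tendsto (fun k : ℕ => 2 * (Real.log k / k)) atTop (𝓝 0) := by
    have h : Tendsto (fun x : ℝ => Real.log x / x) atTop (𝓝 0) := Real.isLittleO_log_id_atTop.tendsto_div_nhds_zero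
    have := (h.comp tendsto_natCast_atTop_atTop).const_mul 2
    rwa [mul_zero] at this
  rw [Metric.tendsto_nhds]
  intro ε hε
  set η : ℝ := min (ε / 8) (1 / 8) with hη
  have hη0 : 0 < η := lt_min (by positivity) (by norm_num)
  have hη1 : η ≤ 1 / 8 := min_le_right _ _
  have hη2 : η ≤ ε / 8 := min_le_left _ _
  have h3 : ∀ᶠ n : ℕ in atTop, |dens μ ℱ A n ω * Real.log n - 1| < η := Metric.tendsto_nhds.1 h1 _ hη0
  obtain ⟨n0, hn0⟩ := eventually_atTop.1 h3
  have L1 : Tendsto (fun k : ℕ => 1 / (2 * Real.log k)) atTop (𝓝 0) :=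
    Tendsto.const_div_atTop (tendsto_logN.const_mul_atTop two_pos) 1
  filter_upwards [eventually_ge_atTop (n0 + 3), tendsto_logN.eventually_ge_atTop 1, hTS, L1.eventually_le_const hη0,
    hlk.eventually_le_const hη0] with k hk hL hTS L2 L3
  have hk' : (3 : ℝ) ≤ k := by exact_mod_cast (by omega : 3 ≤ k)
  have hL0 : 0 < Real.log k := by linarith
  have hkk : k ≤ k ^ 2 - k := by
    have : k * 2 ≤ k * k := Nat.mul_le_mul_left k (by omega)
    rw [sq]; omega
  rw [div_le_iff₀ (by positivity)] at L2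
  have hb : ∀ r, T k ≤ r → r ≤ S k → (1 - 2 * η) / (2 * Real.log k) ≤ dens μ ℱ A r ω ∧
      dens μ ℱ A r ω ≤ (1 + 4 * η) / (2 * Real.log k) := by
    intro r hr1 hr2
    have hr3 := (hT k).trans hr1
    have hr4 := hr2.trans (hS k)
    obtain ⟨a1, a2, a3, a4⟩ := near_sq (by omega : 2 ≤ k) hr3 hr4
    have k1 := abs_lt.1 (hn0 r (by omega))
    have hd0 := hD0 r
    have hd1 := hD1 r
    set D := dens μ ℱ A r ω
    have b1 : D * (2 * Real.log k - 1) ≤ D * Real.log r := mul_le_mul_of_nonneg_left a3 hd0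
    have b2 : D * Real.log r ≤ D * (2 * Real.log k + 1) := mul_le_mul_of_nonneg_left a4 hd0
    have b3 : D * 1 ≤ D * (η * (2 * Real.log k)) := mul_le_mul_of_nonneg_left L2 hd0
    set X : ℝ := D * (2 * Real.log k) with hX
    have hX0 : 0 ≤ X := by positivity
    have c1 : D ≤ η * X := by rw [hX]; linarith
    have c2 : X - D ≤ 1 + η := by
      have : X - D = D * (2 * Real.log k - 1) := by rw [hX]; ring
      linarith [k1.2]
    have c3 : 1 - η ≤ X + D := by
      have : X + D = D * (2 * Real.log k + 1) := by rw [hX]; ring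
      linarith [k1.1]
    constructor
    · rw [div_le_iff₀ (by positivity)]
      show 1 - 2 * η ≤ X
      nlinarith
    · rw [le_div_iff₀ (by positivity)]
      show X ≤ 1 + 4 * η
      nlinarith
  have lo := ccmp_ge (μ := μ) (ℱ := ℱ) (A := A) (T := T k) (S := S k) (k := k) (ω := ω) hD0 (by omega) (fun r a b => (hb r a b).1)
  have hi := ccmp_le (μ := μ) (ℱ := ℱ) (A := A) (T := T k) (S := S k) (k := k) (ω := ω) hD1 hTS (fun r a b => (hb r a b).2)
  set V := ccmp μ ℱ A (T k) (S k) ω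
  set m : ℝ := k / (2 * Real.log k) with hm
  have hm0 : 0 < m := by positivity
  have e1 : (k : ℝ) * ((1 - 2 * η) / (2 * Real.log k)) = (1 - 2 * η) * m := by rw [hm]; ring
  have e2 : (k : ℝ) * ((1 + 4 * η) / (2 * Real.log k)) = (1 + 4 * η) * m := by rw [hm]; ring
  rw [e1] at lo
  rw [e2] at hi
  have e3 : 1 ≤ η * m := by
    have h4 : 2 * (Real.log k / k) * m = 1 := by rw [hm]; field_simp
    calc (1 : ℝ) = 2 * (Real.log k / k) * m := h4.symm
      _ ≤ η * m := mul_le_mul_of_nonneg_right L3 hm0.le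
  rw [Real.dist_eq]
  have e4 : V / m - 1 = (V - m) / m := by field_simp
  rw [e4, abs_div, abs_of_pos hm0, div_lt_iff₀ hm0]
  have e5 : 8 * η * m ≤ ε * m := mul_le_mul_of_nonneg_right (by linarith) hm0.le
  have e6 : 0 < η * m := by positivity
  rw [abs_lt]
  constructor <;> nlinarith

/-- at the density of the primes -/
theorem opp_primes (hA : ∀ n, MeasurableSet[ℱ n] (A n))
    (hd : ∀ᵐ ω ∂μ, Tendsto (fun n : ℕ => dens μ ℱ A n ω * Real.log n) atTop (𝓝 1)) :
    ∀ᵐ ω ∂μ, Tendsto (fun k : ℕ => ccnt A (k ^ 2 - k) (k ^ 2) ω / (k / (2 * Real.log k))) atTop (𝓝 1) ∧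
      Tendsto (fun k : ℕ => ccnt A (k ^ 2) (k ^ 2 + k) ω / (k / (2 * Real.log k))) atTop (𝓝 1) := by
  have hsq : ∀ k : ℕ, k ≤ k ^ 2 := fun k => by rw [sq]; exact Nat.le_mul_self k
  have hd' : ∀ᵐ ω ∂μ, Tendsto (fun n : ℕ => dens μ ℱ A n ω * √(n : ℝ) / Real.log n) atTop atTop := by
    filter_upwards [hd] with ω hω
    have h1 : Tendsto (fun n : ℕ => √(n : ℝ) / Real.log n ^ 2) atTop atTop := by
      have h2 : Tendsto (fun x : ℝ => Real.log x ^ 2 / x ^ (1 / 2 : ℝ)) atTop (𝓝 0) :=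
        (isLittleO_log_rpow_rpow_atTop 2 (by norm_num : (0 : ℝ) < 1 / 2)).tendsto_div_nhds_zero.congr fun x => by
          norm_num
      have h3 := h2.comp tendsto_natCast_atTop_atTop
      have h4 : Tendsto (fun n : ℕ => (Real.log (n : ℝ) ^ 2 / (n : ℝ) ^ (1 / 2 : ℝ))⁻¹) atTop atTop := by
        refine Tendsto.inv_tendsto_nhdsGT_zero ?_
        rw [tendsto_nhdsWithin_iff]
        refine ⟨h3, ?_⟩
        filter_upwards [eventually_ge_atTop 2] with n hn
        have hn' : (2 : ℝ) ≤ n := by exact_mod_cast hn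
        have : 0 < Real.log n := Real.log_pos (by linarith)
        exact Set.mem_Ioi.2 (by positivity)
      refine h4.congr fun n => ?_
      rw [inv_div, Real.sqrt_eq_rpow]
    have h5 := hω.pos_mul_atTop one_pos h1
    refine h5.congr' ?_
    filter_upwards [tendsto_logN.eventually_gt_atTop 0] with n hn
    field_simp
  have a1 := opp_dense hA hd' (T := fun k => k ^ 2 - k) (S := fun k => k ^ 2) (fun k => le_rfl) (fun k => by simp)
    (fun k => by have := hsq k; show k ^ 2 - k + k ≤ k ^ 2; omega)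
  have a2 := opp_dense hA hd' (T := fun k => k ^ 2) (S := fun k => k ^ 2 + k) (fun k => Nat.sub_le _ _) (fun k => le_rfl)
    (fun k => le_rfl)
  have b1 := ccmp_primes hA hd (T := fun k => k ^ 2 - k) (S := fun k => k ^ 2) (fun k => le_rfl) (fun k => by simp)
    (Eventually.of_forall fun k => by have := hsq k; show k ^ 2 = k ^ 2 - k + k; omega)
  have b2 := ccmp_primes hA hd (T := fun k => k ^ 2) (S := fun k => k ^ 2 + k) (fun k => Nat.sub_le _ _) (fun k => le_rfl)
    (Eventually.of_forall fun k => rfl)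
  have comb : ∀ {M V m : ℕ → ℝ}, Tendsto (fun k => M k / V k) atTop (𝓝 1) → Tendsto (fun k => V k / m k) atTop (𝓝 1) →
      Tendsto (fun k => M k / m k) atTop (𝓝 1) := by
    intro M V m h1 h2
    have h3 := h1.mul h2
    rw [one_mul] at h3
    refine h3.congr' ?_
    filter_upwards [h1.eventually_ne (one_ne_zero)] with k hk
    have hV : V k ≠ 0 := by
      intro h
      rw [h, div_zero] at hk
      exact hk rfl
    field_simp
  filter_upwards [a1, a2, b1, b2] with ω h1 h2 h3 h4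
  exact ⟨comb h1 h3, comb h2 h4⟩

end Pool.Agent.N417.LD
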