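import Mathlib
import Pool.Agent.N417.LD.H
import Pool.Agent.N740.HK.Sch

/-!
# Limit points of the pairs of counts
-/

set_option autoImplicit false
set_option linter.unusedSectionVars false

open MeasureTheory Filter Set ProbabilityTheory
open scoped ENNReal Topology

namespace Pool.Agent.N417.LD

open Pool.Agent.R528.RM Pool.Agent.N740.HK

/-- the region -/
def Reg (κ : ℝ) : Set (ℝ × ℝ) := {z | 0 ≤ z.1 ∧ 0 ≤ z.2 ∧ 2 * κ * (hh z.1 + hh z.2) ≤ 1}

lemma Reg_closed (κ : ℝ) : IsClosed (Reg κ) := by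
  have h1 : Continuous (fun z : ℝ × ℝ => 2 * κ * (hh z.1 + hh z.2)) :=
    ((hh_cont.comp continuous_fst).add (hh_cont.comp continuous_snd)).const_mul (2 * κ)
  exact (isClosed_le continuous_const continuous_fst).inter
    ((isClosed_le continuous_const continuous_snd).inter (isClosed_le h1 continuous_const))

/-- the limit points -/
lemma cluster_eq {u : ℕ → ℝ × ℝ} {R : Set (ℝ × ℝ)} (hR : IsClosed R)
    (h1 : ∀ z ∈ R, ∀ ε : ℝ, 0 < ε → ∀ K : ℕ, ∃ k, K ≤ k ∧ dist (u k) z < ε)
    (h2 : ∀ ε : ℝ, 0 < ε → ∀ᶠ k : ℕ in atTop, ∃ z ∈ R, dist (u k) z < ε) :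
    {z | MapClusterPt z atTop u} = R ∧ Tendsto (fun n => Metric.infDist (u n) R) atTop (𝓝 0) := by
  constructor
  · ext z
    simp only [mem_ofPred_eq]
    constructor
    · intro hz
      rw [← hR.closure_eq, Metric.mem_closure_iff]
      intro ε hε
      have h3 := (mapClusterPt_iff_frequently.1 hz) (Metric.ball z (ε / 2)) (Metric.ball_mem_nhds _ (by positivity))
      obtain ⟨k, hk1, w, hw, hk2⟩ := (h3.and_eventually (h2 (ε / 2) (by positivity))).exists
      refine ⟨w, hw, ?_⟩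
      rw [Metric.mem_ball] at hk1
      have := dist_triangle z (u k) w
      rw [dist_comm z (u k)] at this
      linarith
    · intro hz
      rw [mapClusterPt_iff_frequently]
      intro s hs
      obtain ⟨ε, hε, hs⟩ := Metric.mem_nhds_iff.1 hs
      rw [frequently_atTop]
      intro K
      obtain ⟨k, hk, hk2⟩ := h1 z hz ε hε K
      exact ⟨k, hk, hs hk2⟩
  · rw [Metric.tendsto_nhds]
    intro ε hε
    filter_upwards [h2 ε hε] with k hk
    obtain ⟨z, hz, hk⟩ := hk
    rw [Real.dist_eq, sub_zero, abs_of_nonneg Metric.infDist_nonneg]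
    exact (Metric.infDist_le_dist_of_mem hz).trans_lt hk

/-- the limit points of a coordinate -/
lemma proj_eq {u : ℕ → ℝ × ℝ} {R : Set (ℝ × ℝ)} (hne : R.Nonempty) (h1 : {z | MapClusterPt z atTop u} = R)
    (h2 : Tendsto (fun n => Metric.infDist (u n) R) atTop (𝓝 0)) {f : ℝ × ℝ → ℝ} (hf : ∀ z w, |f z - f w| ≤ dist z w)
    {I : Set ℝ} (hI : IsClosed I) (hfR : f '' R = I) : {x | MapClusterPt x atTop (fun n => f (u n))} = I := by
  have hfc : Continuous f := by
    refine (LipschitzWith.of_dist_le_mul (K := 1) fun z w => ?_).continuous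
    rw [NNReal.coe_one, one_mul, Real.dist_eq]
    exact hf z w
  ext x
  simp only [mem_ofPred_eq]
  constructor
  · intro hx
    rw [← hI.closure_eq, Metric.mem_closure_iff]
    intro ε hε
    have h3 := (mapClusterPt_iff_frequently.1 hx) (Metric.ball x (ε / 2)) (Metric.ball_mem_nhds _ (by positivity))
    obtain ⟨k, hk1, hk2⟩ := (h3.and_eventually (h2.eventually_lt_const (show 0 < ε / 2 by positivity))).exists
    obtain ⟨w, hw, hk3⟩ := (Metric.infDist_lt_iff hne).1 hk2
    refine ⟨f w, hfR ▸ mem_image_of_mem f hw, ?_⟩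
    rw [Metric.mem_ball, Real.dist_eq] at hk1
    rw [Real.dist_eq]
    have h4 := hf (u k) w
    have h5 := abs_sub_le x (f (u k)) (f w)
    rw [abs_sub_comm x (f (u k))] at h5
    linarith
  · intro hx
    rw [← hfR] at hx
    obtain ⟨z, hz, rfl⟩ := hx
    have hz' : MapClusterPt z atTop u := by
      have : z ∈ {z | MapClusterPt z atTop u} := h1 ▸ hz
      exact this
    exact hz'.continuousAt_comp hfc.continuousAt

variable {Ω : Type} {m0 : MeasurableSpace Ω} {μ : Measure Ω} [IsProbabilityMeasure μ]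
  {ℱ : Filtration ℕ m0} {A : ℕ → Set Ω}

/-- the expected counts at the critical density -/
lemma ccmp_crit (hA : ∀ n, MeasurableSet[ℱ n] (A n)) {κ : ℝ} (hκ : 0 < κ)
    (hd : ∀ᵐ ω ∂μ, Tendsto (fun n : ℕ => dens μ ℱ A n ω * √(n : ℝ) / Real.log n) atTop (𝓝 κ)) {T S : ℕ → ℕ}
    (hT : ∀ k, k ^ 2 - k ≤ T k) (hS : ∀ k, S k ≤ k ^ 2 + k) (hTS : ∀ k, S k = T k + k) :
    ∀ᵐ ω ∂μ, Tendsto (fun k : ℕ => ccmp μ ℱ A (T k) (S k) ω / (2 * κ * Real.log k)) atTop (𝓝 1) := by
  filter_upwards [good_opp (H := fun k => k) hA hκ hd hT (fun k => by show T k + k ≤ _; rw [← hTS]; exact hS k),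
    DD'_ae (μ := μ) hA] with ω h1 h2
  have hD0 : ∀ r, 0 ≤ dens μ ℱ A r ω := fun r => by rw [← h2]; exact (DD'_bd _ _).1
  have hD1 : ∀ r, dens μ ℱ A r ω ≤ 1 := fun r => by rw [← h2]; exact (DD'_bd _ _).2
  rw [Metric.tendsto_nhds]
  intro ε hε
  set η : ℝ := min (ε / 3) 1 with hη
  have hη0 : 0 < η := lt_min (by positivity) one_pos
  have hη1 : η ≤ 1 := min_le_right _ _
  have hη2 : η ≤ ε / 3 := min_le_left _ _
  filter_upwards [h1 η hη0 hη1, tendsto_logN.eventually_ge_atTop (3 / (ε * (2 * κ))), tendsto_logN.eventually_gt_atTop 0,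
    eventually_gt_atTop 0] with k hk hL hL0 hk0
  have hk' : (0 : ℝ) < k := by exact_mod_cast hk0
  set m : ℝ := 2 * κ * Real.log k with hm
  have hm0 : 0 < m := by positivity
  have hdec : ccmp μ ℱ A (T k) (S k) ω = dens μ ℱ A (T k - 1) ω + ∑ i ∈ Finset.range k, dens μ ℱ A (T k + i) ω := by
    unfold ccmp
    rw [hTS, show Finset.Icc (T k) (T k + k) = Finset.Ico (T k) (T k + k + 1) from by ext; simp,
      Finset.sum_eq_sum_Ico_succ_bot (by omega)]
    congr 1
    rw [Finset.sum_Ico_eq_sum_range, show T k + k + 1 - (T k + 1) = k by omega]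
    exact Finset.sum_congr rfl fun i _ => by rw [show T k + 1 + i - 1 = T k + i by omega]
  have hlo : k * ((1 - η) * (m / k)) ≤ ∑ i ∈ Finset.range k, dens μ ℱ A (T k + i) ω := by
    have : ∑ i ∈ Finset.range k, (1 - η) * (m / k) ≤ ∑ i ∈ Finset.range k, dens μ ℱ A (T k + i) ω :=
      Finset.sum_le_sum fun i hi => by
        rw [← h2]
        exact (hk i (Finset.mem_range.1 hi)).1
    rwa [Finset.sum_const, Finset.card_range, nsmul_eq_mul] at this
  have hup : ∑ i ∈ Finset.range k, dens μ ℱ A (T k + i) ω ≤ k * ((1 + η) * (m / k)) := by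
    have : ∑ i ∈ Finset.range k, dens μ ℱ A (T k + i) ω ≤ ∑ i ∈ Finset.range k, (1 + η) * (m / k) :=
      Finset.sum_le_sum fun i hi => by
        rw [← h2]
        exact (hk i (Finset.mem_range.1 hi)).2
    rwa [Finset.sum_const, Finset.card_range, nsmul_eq_mul] at this
  have e1 : (k : ℝ) * ((1 - η) * (m / k)) = (1 - η) * m := by field_simp
  have e2 : (k : ℝ) * ((1 + η) * (m / k)) = (1 + η) * m := by field_simp
  rw [e1] at hlo
  rw [e2] at hup
  have h3 := hD0 (T k - 1)
  have h4 := hD1 (T k - 1)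
  rw [div_le_iff₀ (by positivity)] at hL
  have h5 : 3 ≤ ε * m := by
    have : Real.log k * (ε * (2 * κ)) = ε * m := by rw [hm]; ring
    linarith
  rw [Real.dist_eq]
  have e3 : ccmp μ ℱ A (T k) (S k) ω / m - 1 = (ccmp μ ℱ A (T k) (S k) ω - m) / m := by field_simp
  rw [e3, abs_div, abs_of_pos hm0, div_lt_iff₀ hm0, hdec]
  have h6 : η * m ≤ ε / 3 * m := mul_le_mul_of_nonneg_right hη2 hm0.le
  have h7 : 0 < ε * m := by positivity
  rw [abs_lt]
  constructor <;> nlinarith

end Pool.Agent.N417.LD
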